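import Mathlib
import Pool.Agent.D0H91.UB.Bc
import Pool.Agent.H560R3.GB.Defs

/-!
# Project GI: binary problems for primes of generic prime index (`MP_778b46_nt`)

`ch l q` is the prime obtained from the prime `q` by the operations `q ↦ p_⌊α q⌋`, `α ∈ l` (the head of the list first),
`wt l q` its weight; `mu l u` is the total weight of the `u ≥ 1` obtained. For `l = []`, `mu [] u = om u` (`log u` for
`u` prime, `0` otherwise).
-/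

set_option autoImplicit false

namespace Pool.Agent.D0H91.GI

open Finset MeasureTheory Filter Topology
open scoped ENNReal
open Pool.Agent.W301.SS (om)
open Pool.Agent.D0H91.UB (Ex)
open Pool.Agent.H560R3.GB (sing)

/-- the `m`-th prime, and `0` for `m = 0` -/
noncomputable def pr (m : ℕ) : ℕ := if m = 0 then 0 else Nat.nth Nat.Prime (m - 1)

/-- the chain -/
noncomputable def ch : List ℝ → ℕ → ℕ
  | [], q => q
  | α :: l, q => ch l (pr ⌊α * q⌋₊)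

/-- the weight -/
noncomputable def wt : List ℝ → ℕ → ℝ
  | [], _ => 1
  | α :: l, q => α * Real.log (pr ⌊α * q⌋₊) * wt l (pr ⌊α * q⌋₊)

/-- `ch l q = u ≥ 1` implies `q ≤ KK l * (u + 1)` -/
noncomputable def KK : List ℝ → ℕ
  | [] => 1
  | α :: l => ⌈1 / α⌉₊ * (KK l + 1)

/-- total weight of `u` -/
noncomputable def mu (l : List ℝ) (u : ℕ) : ℝ := ∑ q ∈ Icc 1 (KK l * (u + 1)), if ch l q = u then om q * wt l q else 0

/-- number of primes `q` with `ch l q = u` (for `u ≥ 1`) -/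
noncomputable def cn (l : List ℝ) (u : ℕ) : ℕ := ((Icc 1 (KK l * (u + 1))).filter fun q => q.Prime ∧ ch l q = u).card

def Pos (l : List ℝ) : Prop := ∀ α ∈ l, 0 < α

noncomputable def TT (l l' : List ℝ) (n : ℕ) : ℝ := ∑ u ∈ Ico 1 n, mu l u * mu l' (n - u)

noncomputable def rr (l l' : List ℝ) (n : ℕ) : ℕ := ∑ u ∈ Ico 1 n, cn l u * cn l' (n - u)

/-- the coefficients to be sampled -/
noncomputable def be (l : List ℝ) (M : ℕ → ℝ) (n m : ℕ) : ℝ :=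
  if 0 < m ∧ 0 < ch l (pr m) ∧ ch l (pr m) < n then Real.log (pr m) * wt l (pr m) * M (n - ch l (pr m)) else 0

/-- (TR) truncation -/
def S_TR : Prop := ∀ l, Pos l → ∀ q, 0 < ch l q → q ≤ KK l * (ch l q + 1)

/-- (MB) multiplicities and bounds -/
def S_MB : Prop := ∀ l, Pos l → ∃ C E : ℕ, (∀ q, 0 ≤ wt l q) ∧ (∀ q, 0 < ch l q → wt l q ≤ C * Real.log (ch l q + 3) ^ E) ∧
  (∀ u, 0 < u → ((Icc 1 (KK l * (u + 1))).filter fun q => ch l q = u).card ≤ C) ∧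
  (∀ u, 0 < u → |mu l u| ≤ C * Real.log (u + 3) ^ E)

/-- (I1) the sum over the samples -/
def S_I1 : Prop := ∀ l, Pos l → ∀ (M : ℕ → ℝ) (n : ℕ) (α : ℝ), 0 < α → ∀ Z : ℕ, ⌈1 / α⌉₊ * (KK l + 1) * (n + 1) ≤ Z →
  α * ∑ q ∈ Icc 1 Z, om q * be l M n ⌊α * q⌋₊ = ∑ u ∈ Ico 1 n, mu (α :: l) u * M (n - u)

/-- (I2) the integral over the samples -/
def S_I2 : Prop := ∀ l, Pos l → ∀ (M : ℕ → ℝ) (n : ℕ) (α : ℝ), 0 < α → ∀ Z : ℕ, ⌈1 / α⌉₊ * (KK l + 1) * (n + 1) ≤ Z →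
  α * ∫ u in (0 : ℝ)..Z, be l M n ⌊α * u⌋₊ = ∑ u ∈ Ico 1 n, mu l u * M (n - u)

/-- (L2) mean square of the samples at the primes -/
def S_L2 : Prop := ∀ (w0 : ℝ) (A : ℕ), ∀ᶠ Y : ℕ in atTop, ∀ (β : ℕ → ℂ) (Λ : ℝ), 0 ≤ Λ → β 0 = 0 →
  (∀ m : ℕ, (m : ℝ) ≤ (Y : ℝ) ^ 2 → ‖β m‖ ≤ Λ) →
  ∫⁻ w in Set.Icc w0 (w0 + 1), ‖∑ q ∈ Icc 1 Y, (om q : ℂ) * β ⌊Real.exp w * q⌋₊ -
    ∫ u in (0 : ℝ)..Y, β ⌊Real.exp w * u⌋₊‖ₑ ^ 2 ≤ ENNReal.ofReal (Λ ^ 2 * Y ^ 2 / Real.log Y ^ A)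

/-- (STEP) one more generic factor changes little -/
def S_STEP : Prop := ∀ l, Pos l → ∀ (M : ℕ → ℝ) (C E : ℕ), (∀ v, 0 < v → |M v| ≤ C * Real.log (v + 3) ^ E) →
  ∀ᵐ α : ℝ, 0 < α → ∀ A : ℕ, ∀ᶠ N : ℕ in atTop,
    (Ex (fun n => |∑ u ∈ Ico 1 n, (mu (α :: l) u - mu l u) * M (n - u)|) A N : ℝ) ≤ N / Real.log N ^ A

/-- (AS) the weights asymptotically -/
def S_AS : Prop := ∀ l, Pos l → Tendsto (fun q => ch l q) atTop atTop ∧
  Tendsto (fun q : ℕ => Real.log q * wt l q / (l.prod * Real.log (ch l q) ^ (l.length + 1))) atTop (𝓝 1)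

/-- (CT) from weights to numbers -/
def S_CT : Prop := ∀ l l', Pos l → Pos l' → ∀ ε : ℝ, 0 < ε → ∀ᶠ n : ℕ in atTop,
  |TT l l' n - l.prod * l'.prod * Real.log n ^ (l.length + l'.length + 2) * rr l l' n| ≤
    ε * (l.prod * l'.prod * Real.log n ^ (l.length + l'.length + 2) * rr l l' n) + ε * n

/-- (BASE) the classical case (`Pool.Agent.W93.GB.fam`, `h = 1`, `s m = 2 * m`) -/
def S_BASE : Prop := ∀ ε : ℝ, 0 < ε → ∀ U : ℕ, ∀ᶠ N : ℕ in atTop,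
  (((Icc 1 N).filter fun n => Even n ∧ ¬ |(rr [] [] n : ℝ) * Real.log n ^ 2 - sing n * n| ≤ ε * (sing n * n)).card : ℝ) ≤
    N / Real.log N ^ U

/-- for almost all entries: for almost every `α₁`, for almost every `α₂`, ... -/
def AE : ℕ → (List ℝ → Prop) → Prop
  | 0, P => P []
  | k + 1, P => AE k fun l => ∀ᵐ α : ℝ, 0 < α → P (α :: l)

/-- (END) -/
def S_END : Prop := ∀ a b : ℕ, AE a fun l => AE b fun l' => ∀ ε : ℝ, 0 < ε → ∀ A : ℕ, ∀ᶠ N : ℕ in atTop,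
  (((Icc 1 N).filter fun n => Even n ∧ ¬ |(rr l l' n : ℝ) * (l.prod * l'.prod) * Real.log n ^ (a + b + 2) - sing n * n| ≤
    ε * (sing n * n)).card : ℝ) ≤ N / Real.log N ^ A

end Pool.Agent.D0H91.GI
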