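import Mathlib
import Pool.Agent.D0H91.GI.Stm

/-! The mean square of samples at the primes, uniformly in the sampled function. -/

set_option autoImplicit false

namespace Pool.Agent.D0H91.GI

open Finset MeasureTheory FourierTransform Filter
open scoped ENNReal
open Pool.Agent.H376R2.MR (er)
open Pool.Agent.D0H91.MG
open Pool.Agent.D0H91.US
open Pool.Agent.D0H91.UB (Wv_key)
open Pool.Agent.Y957.VK (Dn Gn Gn_int four_Gn tail_int Neg)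
open Pool.Agent.Y957.AD (memLp_of_bdd)
open Pool.Agent.W301.SS (om)

theorem l2direct (c : ℕ → ℂ) (hc : ∀ n, ‖c n‖ ≤ 1) (N : ℕ) (B : ℝ → ℂ) (hBi : Integrable B) (bb : ℝ) (hBb : ∀ y, ‖B y‖ ≤ bb)
    (T V W L2B : ℝ) (hT : 1 ≤ T) (hV : 0 ≤ V) (hL : 0 ≤ L2B)
    (h1 : ∀ ξ : ℝ, |ξ| ≤ T → ‖SD c N (2 * Real.pi * ξ)‖ ≤ V)
    (h2 : ∀ ξ : ℝ, T < |ξ| → ‖𝓕 B ξ‖ ≤ W / |ξ|) (h3 : ∫⁻ y, ‖B y‖ₑ ^ 2 ≤ ENNReal.ofReal L2B) :
    ∫⁻ u, ‖Gn c B 1 N u‖ₑ ^ 2 ≤ ENNReal.ofReal (V ^ 2 * L2B + N ^ 2 * (2 * W ^ 2) / T) := by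
  have hT0 : 0 < T := by linarith
  have hFc : Continuous (𝓕 B) := VectorFourier.fourierIntegral_continuous Real.continuous_fourierChar
      (by exact continuous_inner) hBi
  have hFm : Measurable (fun ξ => ‖𝓕 B ξ‖ₑ ^ 2) := hFc.measurable.enorm.pow_const 2
  rw [← Pool.Agent.TH794.QD.plancherel _ (Gn_int c hBi 1 N)
    (memLp_of_bdd (Gn_int c hBi 1 N) (Gn_bdd c hc hBb 1 N))]
  have hSD : ∀ ξ, ‖𝓕 (Gn c B 1 N) ξ‖ = ‖SD c N (2 * Real.pi * ξ)‖ * ‖𝓕 B ξ‖ := by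
    intro ξ
    rw [four_Gn _ hBi, norm_mul, Dn_eq]
  obtain ⟨K, hK⟩ : ∃ K, K = (N : ℝ) ^ 2 * (2 * W ^ 2) := ⟨_, rfl⟩
  have hK0 : 0 ≤ K := by
    rw [hK]
    positivity
  have hpt : ∀ ξ : ℝ, ‖𝓕 (Gn c B 1 N) ξ‖ₑ ^ 2 ≤ ENNReal.ofReal (V ^ 2) * ‖𝓕 B ξ‖ₑ ^ 2 +
      (Set.Iic T)ᶜ.indicator (fun x => ENNReal.ofReal (K / 2 * (x ^ 2)⁻¹)) |ξ| := by
    intro ξ
    have e2 : ‖𝓕 (Gn c B 1 N) ξ‖ₑ ^ 2 =
        ENNReal.ofReal ((‖SD c N (2 * Real.pi * ξ)‖ * ‖𝓕 B ξ‖) ^ 2) := by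
      rw [← hSD, ENNReal.ofReal_pow (norm_nonneg _), ofReal_norm]
    have e3 : ‖𝓕 B ξ‖ₑ ^ 2 = ENNReal.ofReal (‖𝓕 B ξ‖ ^ 2) := by
      rw [ENNReal.ofReal_pow (norm_nonneg _), ofReal_norm]
    rw [e2, e3]
    obtain ⟨E, hE⟩ : ∃ E, E = ‖SD c N (2 * Real.pi * ξ)‖ := ⟨_, rfl⟩
    have hE0 : 0 ≤ E := by
      rw [hE]
      positivity
    obtain ⟨F, hF⟩ : ∃ F, F = ‖𝓕 B ξ‖ := ⟨_, rfl⟩
    have hF0 : 0 ≤ F := by
      rw [hF]
      exact norm_nonneg _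
    by_cases hξ : |ξ| ≤ T
    · rw [Set.indicator_of_notMem (by simpa using hξ), add_zero, ← ENNReal.ofReal_mul (by positivity)]
      apply ENNReal.ofReal_le_ofReal
      have s1 := h1 ξ hξ
      rw [← hE] at s1
      rw [← hE, ← hF, mul_pow]
      exact mul_le_mul_of_nonneg_right (pow_le_pow_left₀ hE0 s1 2) (by positivity)
    · have hξ1 : T < |ξ| := not_le.1 hξ
      have hξ0 : 0 < |ξ| := by linarith
      refine le_add_left ?_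
      rw [Set.indicator_of_mem (by simpa using hξ)]
      apply ENNReal.ofReal_le_ofReal
      have s1 : E ≤ N := by
        rw [hE]
        exact SD_le c hc N _
      have s2 : F ≤ W / |ξ| := by
        rw [hF]
        exact h2 ξ hξ1
      rw [← hE, ← hF]
      calc (E * F) ^ 2 ≤ (N * (W / |ξ|)) ^ 2 := by
            apply pow_le_pow_left₀ (by positivity)
            exact mul_le_mul s1 s2 hF0 (by positivity)
        _ = _ := by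
            rw [hK]
            field_simp
  have hI3 := tail_int hT hK0
  calc ∫⁻ ξ, ‖𝓕 (Gn c B 1 N) ξ‖ₑ ^ 2 ≤ ∫⁻ ξ, (ENNReal.ofReal (V ^ 2) * ‖𝓕 B ξ‖ₑ ^ 2 +
      (Set.Iic T)ᶜ.indicator (fun x => ENNReal.ofReal (K / 2 * (x ^ 2)⁻¹)) |ξ|) := lintegral_mono hpt
    _ = ENNReal.ofReal (V ^ 2) * (∫⁻ ξ, ‖𝓕 B ξ‖ₑ ^ 2) +
      ∫⁻ ξ : ℝ, (Set.Iic T)ᶜ.indicator (fun x => ENNReal.ofReal (K / 2 * (x ^ 2)⁻¹)) |ξ| := by
        rw [lintegral_add_left (hFm.const_mul _), lintegral_const_mul _ hFm]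
    _ ≤ ENNReal.ofReal (V ^ 2) * ENNReal.ofReal L2B + ENNReal.ofReal (K / T) := by
        rw [Pool.Agent.TH794.QD.plancherel _ hBi (memLp_of_bdd hBi hBb)]
        gcongr
    _ = _ := by
        rw [← ENNReal.ofReal_mul (by positivity), ← ENNReal.ofReal_add (by positivity) (by positivity), hK]

theorem two_sq (x y : ℂ) : ‖x + y‖ₑ ^ 2 ≤ 2 * ‖x‖ₑ ^ 2 + 2 * ‖y‖ₑ ^ 2 := by
  refine (enorm_add_sq x y ‖y‖ le_rfl).trans (le_of_eq ?_)
  congr 1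
  rw [ENNReal.ofReal_mul (by norm_num), ENNReal.ofReal_pow (norm_nonneg _), ofReal_norm]
  norm_num

/-- the part of `log p - 1` -/
theorem l2tb (A : ℕ) (w0 : ℝ) : ∀ᶠ Y : ℕ in atTop, ∀ (β : ℕ → ℂ) (Λ : ℝ), 0 ≤ Λ → β 0 = 0 →
    (∀ m : ℕ, (m : ℝ) ≤ (Y : ℝ) ^ 2 → ‖β m‖ ≤ Λ) →
    ∫⁻ w in Set.Icc w0 (w0 + 1), ‖∑ q ∈ Icc 1 Y, tb q * β ⌊Real.exp (1 * w) * (q : ℝ) ^ (1 : ℝ)⌋₊‖ₑ ^ 2 ≤
      ENNReal.ofReal (Λ ^ 2 * Y ^ 2 / Real.log Y ^ A) := by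
  obtain ⟨C0, hC0⟩ := tb_neg 7 (A + 4)
  obtain ⟨C, hC⟩ : ∃ C, C = |C0| + 1 := ⟨_, rfl⟩
  have hCpos : 0 < C := by
    rw [hC]
    positivity
  have hCC : C0 ≤ C := by
    rw [hC]
    linarith [le_abs_self C0]
  filter_upwards [ev_logge 1, ev_logge (24 * C ^ 2), ev_logpow 16 (A + 2),
    eventually_ge_atTop (⌈Real.exp (w0 + 1)⌉₊ + 7)] with N hL1 hA2 hA1 hN β Λ hΛ hβ0 hβ
  obtain ⟨L, hL⟩ : ∃ L, L = Real.log (N : ℝ) := ⟨_, rfl⟩
  rw [← hL] at hL1 hA2 hA1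
  rw [← hL]
  have hN7 : (7 : ℝ) ≤ N := by exact_mod_cast (by omega : 7 ≤ N)
  have hNe : Real.exp (w0 + 1) ≤ N := by
    have a1 := Nat.le_ceil (Real.exp (w0 + 1))
    have a2 : ((⌈Real.exp (w0 + 1)⌉₊ : ℕ) : ℝ) ≤ N := by
      exact_mod_cast (by omega : ⌈Real.exp (w0 + 1)⌉₊ ≤ N)
    linarith
  have hN0 : (0 : ℝ) < N := by linarith
  have hN1 : (1 : ℝ) ≤ N := by linarith
  have hL0 : 0 < L := by linarith
  obtain ⟨X2, hX2⟩ : ∃ X2 : ℕ, X2 = N ^ 2 := ⟨_, rfl⟩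
  have hX2a : (X2 : ℝ) = (N : ℝ) ^ 2 := by
    rw [hX2]
    push_cast
    rfl
  have hm1 : ∀ m : ℕ, 0 < m → 1 ≤ (m : ℝ) + 1 - (1 : ℕ) := by
    intro m hm
    have : (1 : ℝ) ≤ m := by exact_mod_cast hm
    push_cast
    linarith
  have hb : ∀ m ∈ Ioc 0 X2, ‖β m‖ ≤ Λ := by
    intro m hm
    apply hβ
    rw [← hX2a]
    exact_mod_cast (Finset.mem_Ioc.1 hm).2
  have hk : (0 : ℝ) < 1 := one_pos
  obtain ⟨B, hB⟩ : ∃ B : ℝ → ℂ, B = Wv β 1 1 1 0 X2 := ⟨_, rfl⟩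
  have hBi : Integrable B := by
    rw [hB]
    exact Wv_int _ _ _ _ _ _
  have hBb : ∀ y, ‖B y‖ ≤ Λ := by
    intro y
    rw [hB]
    have h := Wv_bd β hk zero_le_one le_rfl hΛ (y := 1) hm1 hb y
    rw [Nat.cast_one, one_mul] at h
    exact h
  have hBs : ∫⁻ y, ‖B y‖ₑ ^ 2 ≤ ENNReal.ofReal (Λ ^ 2 * (Real.log (X2 + 1) / 1)) := by
    rw [hB]
    have h := Wv_sq β hk zero_le_one le_rfl hΛ (y := 1) hm1 hb
    rw [Nat.cast_one, one_mul] at h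
    exact h
  have hBt : ∀ ξ : ℝ, ξ ≠ 0 → ‖𝓕 B ξ‖ ≤ X2 * Λ / |ξ| := by
    intro ξ hξ
    rw [hB]
    exact four_Wv_tail β hk zero_le_one hΛ (fun m hm => by
      have := hm1 m hm
      push_cast at this
      linarith) hb hξ
  have hX : ∀ w ∈ Set.Icc w0 (w0 + 1), ⌊Real.exp (1 * w) * (N : ℝ) ^ (1 : ℝ)⌋₊ ≤ X2 := by
    intro w hw
    rw [hX2]
    apply Nat.floor_le_of_le
    rw [Real.rpow_one, one_mul]
    push_cast
    rw [sq]
    apply mul_le_mul_of_nonneg_right _ hN0.le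
    exact le_trans (Real.exp_le_exp.2 hw.2) hNe
  obtain ⟨lg, hlg⟩ : ∃ lg, lg = Real.log ((N : ℝ) + 3) := ⟨_, rfl⟩
  have hlg1 : 1 ≤ lg := by
    rw [hlg]
    exact one_le_log N
  have hlg2 : lg ≤ 2 * L := by
    rw [hlg, hL]
    have : Real.log ((N : ℝ) ^ 2) = 2 * Real.log N := by
      rw [Real.log_pow]
      norm_num
    rw [← this]
    exact Real.log_le_log (by positivity) (by nlinarith)
  have hlg0 : 0 < lg := by linarith
  obtain ⟨c, hc⟩ : ∃ c : ℕ → ℂ, c = fun n => if n ≤ N then tb n / (lg : ℂ) else 0 := ⟨_, rfl⟩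
  have hc1 : ∀ n, ‖c n‖ ≤ 1 := by
    intro n
    rw [hc]
    simp only
    split_ifs with h
    · rw [norm_div, Complex.norm_real, Real.norm_eq_abs, abs_of_pos hlg0, div_le_one hlg0, hlg]
      refine (tb_le n).trans ?_
      apply Real.log_le_log (by positivity)
      have : (n : ℝ) ≤ N := by exact_mod_cast h
      linarith
    · rw [norm_zero]
      exact zero_le_one
  have hlgC : (lg : ℂ) ≠ 0 := by exact_mod_cast hlg0.ne'
  have hcv : ∀ n ∈ Icc 1 N, c n = tb n / (lg : ℂ) := by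
    intro n hn
    rw [hc]
    simp only
    rw [if_pos (Finset.mem_Icc.1 hn).2]
  obtain ⟨T, hT⟩ : ∃ T, T = (N : ℝ) ^ 6 := ⟨_, rfl⟩
  obtain ⟨V, hV⟩ : ∃ V, V = C * (N : ℝ) / L ^ (A + 4) := ⟨_, rfl⟩
  have hT1 : 1 ≤ T := by
    rw [hT]
    exact one_le_pow₀ hN1
  have hT0 : 0 < T := by linarith
  have hV0 : 0 ≤ V := by
    rw [hV]
    positivity
  have hlog0 : 0 ≤ Real.log ((X2 : ℝ) + 1) := Real.log_nonneg (by
    have : (0 : ℝ) ≤ X2 := Nat.cast_nonneg X2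
    linarith)
  have hL2B : 0 ≤ Λ ^ 2 * (Real.log (X2 + 1) / 1) := by positivity
  have hmain := l2direct c hc1 N B hBi Λ hBb T V (X2 * Λ) (Λ ^ 2 * (Real.log (X2 + 1) / 1)) hT1 hV0 hL2B ?_ ?_ hBs
  · have hpt : ∀ w ∈ Set.Icc w0 (w0 + 1), ‖∑ q ∈ Icc 1 N, tb q * β ⌊Real.exp (1 * w) * (q : ℝ) ^ (1 : ℝ)⌋₊‖ₑ ^ 2 =
        ENNReal.ofReal (lg ^ 2) * ‖Gn c B 1 N w‖ₑ ^ 2 := by
      intro w hw
      have e1 : ∑ q ∈ Icc 1 N, tb q * β ⌊Real.exp (1 * w) * (q : ℝ) ^ (1 : ℝ)⌋₊ = (lg : ℂ) * Gn c B 1 N w := by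
        unfold Gn
        rw [Finset.mul_sum]
        refine Finset.sum_congr rfl fun q hq => ?_
        have hq' := Finset.mem_Icc.1 hq
        rw [one_mul (Real.log q), hB, Wv_key β hβ0 hk (hX w hw) q (by exact_mod_cast hq'.1) (by exact_mod_cast hq'.2), hcv q hq]
        field_simp
      have e2 : ‖(lg : ℂ)‖ₑ ^ 2 = ENNReal.ofReal (lg ^ 2) := by
        rw [← ofReal_norm, Complex.norm_real, Real.norm_eq_abs, abs_of_pos hlg0, ENNReal.ofReal_pow hlg0.le]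
      rw [e1, enorm_mul, mul_pow, e2]
    rw [setLIntegral_congr_fun measurableSet_Icc hpt, lintegral_const_mul' _ _ (by simp)]
    refine (mul_le_mul_right ((setLIntegral_le_lintegral _ _).trans hmain) _).trans ?_
    rw [← ENNReal.ofReal_mul (by positivity)]
    apply ENNReal.ofReal_le_ofReal
    have q1 : Real.log ((X2 : ℝ) + 1) ≤ 3 * L := by
      have : Real.log ((N : ℝ) ^ 3) = 3 * Real.log N := by
        rw [Real.log_pow]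
        norm_num
      rw [hL, ← this]
      apply Real.log_le_log (by positivity)
      rw [hX2a]
      nlinarith [sq_nonneg (N : ℝ), mul_nonneg hN0.le (sq_nonneg (N : ℝ))]
    have q2 : (N : ℝ) ^ 2 * (2 * (X2 * Λ) ^ 2) / T = 2 * Λ ^ 2 := by
      rw [hX2a, hT]
      field_simp
    rw [q2, div_one]
    have q3 : V ^ 2 = C ^ 2 * N ^ 2 / (L ^ A * L ^ A * L ^ 8) := by
      rw [hV, div_pow, mul_pow, ← pow_mul]
      congr 1
      rw [← pow_add, ← pow_add]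
      congr 1
      ring
    have hLA : 1 ≤ L ^ A := one_le_pow₀ hL1
    have t1 : (2 * L) ^ 2 * (V ^ 2 * (Λ ^ 2 * (3 * L))) ≤ Λ ^ 2 * N ^ 2 / L ^ A * (1 / 2) := by
      have h4 : 24 * C ^ 2 * L ^ 3 ≤ L ^ A * L ^ 8 := by
        calc 24 * C ^ 2 * L ^ 3 ≤ L * L ^ 3 := by gcongr
          _ = L ^ 4 := by ring
          _ ≤ L ^ 8 := pow_le_pow_right₀ hL1 (by norm_num)
          _ = 1 * L ^ 8 := by ring
          _ ≤ L ^ A * L ^ 8 := by gcongr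
      calc (2 * L) ^ 2 * (V ^ 2 * (Λ ^ 2 * (3 * L))) =
            Λ ^ 2 * N ^ 2 / L ^ A * ((24 * C ^ 2 * L ^ 3) / (L ^ A * L ^ 8)) * (1 / 2) := by
            rw [q3]
            field_simp
            ring
        _ ≤ Λ ^ 2 * N ^ 2 / L ^ A * 1 * (1 / 2) := by
            gcongr
            rw [div_le_one (by positivity)]
            exact h4
        _ = _ := by ring
    have t2 : (2 * L) ^ 2 * (2 * Λ ^ 2) ≤ Λ ^ 2 * N ^ 2 / L ^ A * (1 / 2) := by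
      have h5 : 16 * L ^ (A + 2) ≤ (N : ℝ) ^ 2 := by
        refine hA1.trans ?_
        nlinarith
      calc (2 * L) ^ 2 * (2 * Λ ^ 2) = Λ ^ 2 * (16 * L ^ (A + 2)) / L ^ A * (1 / 2) := by
            rw [pow_add]
            field_simp
            ring
        _ ≤ Λ ^ 2 * N ^ 2 / L ^ A * (1 / 2) := by gcongr
    calc lg ^ 2 * (V ^ 2 * (Λ ^ 2 * Real.log (X2 + 1)) + 2 * Λ ^ 2) ≤
          (2 * L) ^ 2 * (V ^ 2 * (Λ ^ 2 * (3 * L)) + 2 * Λ ^ 2) := by gcongr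
      _ = (2 * L) ^ 2 * (V ^ 2 * (Λ ^ 2 * (3 * L))) + (2 * L) ^ 2 * (2 * Λ ^ 2) := by ring
      _ ≤ Λ ^ 2 * N ^ 2 / L ^ A * (1 / 2) + Λ ^ 2 * N ^ 2 / L ^ A * (1 / 2) := add_le_add t1 t2
      _ = _ := by ring
  · intro ξ hξ
    have h2 : |2 * Real.pi * ξ| ≤ (N : ℝ) ^ 7 := by
      rw [abs_mul, abs_of_pos (show 0 < 2 * Real.pi by positivity)]
      have hpi := Real.pi_lt_d2
      calc 2 * Real.pi * |ξ| ≤ N * T := by
            apply mul_le_mul _ hξ (abs_nonneg _) hN0.le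
            linarith
        _ = (N : ℝ) ^ 7 := by
            rw [hT]
            ring
    have h3 := hC0 N (2 * Real.pi * ξ) (by omega) h2
    have e1 : SD c N (2 * Real.pi * ξ) = (1 / (lg : ℂ)) * ∑ n ∈ Icc 1 N, tb n * er (2 * Real.pi * ξ) (Real.log n) := by
      unfold SD
      rw [Finset.mul_sum]
      refine Finset.sum_congr rfl fun q hq => ?_
      rw [hcv q hq]
      field_simp
    rw [e1, norm_mul, norm_div, norm_one, Complex.norm_real, Real.norm_eq_abs, abs_of_pos hlg0, hV]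
    rw [← hL] at h3
    calc 1 / lg * _ ≤ 1 * (C * N / L ^ (A + 4)) := by
          apply mul_le_mul _ _ (norm_nonneg _) zero_le_one
          · rw [div_le_one hlg0]
            exact hlg1
          · refine h3.trans ?_
            gcongr
      _ = _ := one_mul _
  · intro ξ hξ
    apply hBt
    rintro rfl
    rw [abs_zero] at hξ
    linarith

theorem t_L2 : S_L2 := by
  intro w0 A
  obtain ⟨c, hc0, -, hus⟩ := us_l2 1 one_pos
  filter_upwards [hus w0, l2tb (A + 1) w0, Pool.Agent.W301.SS.ev_log A 4 c hc0, ev_logge 4, eventually_ge_atTop 2] with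
    N h1 h2 h3 h4 hN β Λ hΛ hβ0 hβ
  have hN0 : (0 : ℝ) < N := by exact_mod_cast (by omega : 0 < N)
  have g1 := h1 β Λ hΛ (by
    intro m hm
    apply hβ
    rwa [show ((1 : ℝ) + 1) = ((2 : ℕ) : ℝ) by norm_num, Real.rpow_natCast] at hm)
  have g2 := h2 β Λ hΛ hβ0 hβ
  obtain ⟨L, hL⟩ : ∃ L, L = Real.log (N : ℝ) := ⟨_, rfl⟩
  rw [← hL] at h3 h4 g2
  rw [← hL]
  have hL0 : 0 < L := by linarith
  have e1 : ∀ w : ℝ, ∑ q ∈ Icc 1 N, (om q : ℂ) * β ⌊Real.exp w * q⌋₊ - ∫ u in (0 : ℝ)..N, β ⌊Real.exp w * u⌋₊ =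
      DD β 1 N w + ∑ q ∈ Icc 1 N, tb q * β ⌊Real.exp (1 * w) * (q : ℝ) ^ (1 : ℝ)⌋₊ := by
    intro w
    unfold DD tb
    simp only [one_mul, Real.rpow_one]
    rw [sub_add_eq_add_sub, ← Finset.sum_add_distrib]
    congr 1
    refine Finset.sum_congr rfl fun q _ => ?_
    push_cast
    ring
  simp only [e1]
  have hm : Measurable fun w => ‖DD β 1 N w‖ₑ ^ 2 := (DD_meas β 1 N).enorm.pow_const 2
  calc ∫⁻ w in Set.Icc w0 (w0 + 1), ‖DD β 1 N w + ∑ q ∈ Icc 1 N, tb q * β ⌊Real.exp (1 * w) * (q : ℝ) ^ (1 : ℝ)⌋₊‖ₑ ^ 2 ≤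
      ∫⁻ w in Set.Icc w0 (w0 + 1), (2 * ‖DD β 1 N w‖ₑ ^ 2 +
        2 * ‖∑ q ∈ Icc 1 N, tb q * β ⌊Real.exp (1 * w) * (q : ℝ) ^ (1 : ℝ)⌋₊‖ₑ ^ 2) := lintegral_mono fun w => two_sq _ _
    _ = 2 * (∫⁻ w in Set.Icc w0 (w0 + 1), ‖DD β 1 N w‖ₑ ^ 2) +
        2 * ∫⁻ w in Set.Icc w0 (w0 + 1), ‖∑ q ∈ Icc 1 N, tb q * β ⌊Real.exp (1 * w) * (q : ℝ) ^ (1 : ℝ)⌋₊‖ₑ ^ 2 := by
        rw [lintegral_add_left (hm.const_mul _), lintegral_const_mul _ hm, lintegral_const_mul' _ _ (by norm_num)]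
    _ ≤ 2 * ENNReal.ofReal (Λ ^ 2 * (N : ℝ) ^ (2 - c)) + 2 * ENNReal.ofReal (Λ ^ 2 * N ^ 2 / L ^ (A + 1)) := by gcongr
    _ = ENNReal.ofReal (2 * (Λ ^ 2 * (N : ℝ) ^ (2 - c)) + 2 * (Λ ^ 2 * N ^ 2 / L ^ (A + 1))) := by
        rw [show (2 : ℝ≥0∞) = ENNReal.ofReal 2 by simp, ← ENNReal.ofReal_mul (by norm_num), ← ENNReal.ofReal_mul (by norm_num),
          ← ENNReal.ofReal_add (by positivity) (by positivity)]
    _ ≤ _ := by
        apply ENNReal.ofReal_le_ofReal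
        have t1 : 2 * (Λ ^ 2 * (N : ℝ) ^ (2 - c)) ≤ Λ ^ 2 * N ^ 2 / L ^ A * (1 / 2) := by
          have e2 : (N : ℝ) ^ (2 - c) = N ^ 2 / (N : ℝ) ^ c := by
            rw [Real.rpow_sub hN0, Real.rpow_two]
          rw [e2]
          have hNc : 0 < (N : ℝ) ^ c := by positivity
          calc 2 * (Λ ^ 2 * (N ^ 2 / (N : ℝ) ^ c)) = Λ ^ 2 * N ^ 2 / L ^ A * ((4 * L ^ A) / (N : ℝ) ^ c) * (1 / 2) := by
                field_simp
                ring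
            _ ≤ Λ ^ 2 * N ^ 2 / L ^ A * 1 * (1 / 2) := by
                gcongr
                rw [div_le_one hNc]
                exact h3
            _ = _ := by ring
        have t2 : 2 * (Λ ^ 2 * N ^ 2 / L ^ (A + 1)) ≤ Λ ^ 2 * N ^ 2 / L ^ A * (1 / 2) := by
          calc 2 * (Λ ^ 2 * N ^ 2 / L ^ (A + 1)) = Λ ^ 2 * N ^ 2 / L ^ A * (4 / L) * (1 / 2) := by
                rw [pow_succ]
                field_simp
                ring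
            _ ≤ Λ ^ 2 * N ^ 2 / L ^ A * 1 * (1 / 2) := by
                gcongr
                rw [div_le_one hL0]
                exact h4
            _ = _ := by ring
        linarith

end Pool.Agent.D0H91.GI
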