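import Mathlib
import Pool.Agent.D0H91.GI.L2

/-! One more generic factor changes little. -/

set_option autoImplicit false

namespace Pool.Agent.D0H91.GI

open Finset MeasureTheory Filter Topology
open scoped ENNReal
open Pool.Agent.D0H91.MG
open Pool.Agent.D0H91.UB (Ex bc)
open Pool.Agent.W301.SS (om)

theorem pr_ge (m : ℕ) : m ≤ pr m := by
  unfold pr
  split_ifs with h
  · omega
  · have := Nat.add_two_le_nth_prime (m - 1)
    omega

/-- the coefficients are small -/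
theorem be_le (hTR : S_TR) (hMB : S_MB) (l : List ℝ) (hl : Pos l) (M : ℕ → ℝ) (C E : ℕ)
    (hM : ∀ v, 0 < v → |M v| ≤ C * Real.log (v + 3) ^ E) : ∃ F : ℕ, ∀ᶠ N : ℕ in atTop, ∀ n ≤ N, ∀ m : ℕ,
    |be l M n m| ≤ Real.log N ^ F := by
  obtain ⟨C1, E1, hw0, hw, -, -⟩ := hMB l hl
  refine ⟨1 + E1 + E + 1, ?_⟩
  filter_upwards [ev_logge 1, ev_logge (2 ^ (1 + E1 + E) * (C1 * C)), eventually_ge_atTop (KK l + 3)] with N h1 h2 h3 n hn m
  obtain ⟨L, hL⟩ : ∃ L, L = Real.log (N : ℝ) := ⟨_, rfl⟩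
  rw [← hL] at h1 h2
  rw [← hL]
  have hN3 : (3 : ℝ) ≤ N := by exact_mod_cast (by omega : 3 ≤ N)
  have hN0 : (0 : ℝ) < N := by linarith
  have hL0 : 0 < L := by linarith
  have hlog2 : Real.log ((N : ℝ) ^ 2) = 2 * L := by
    rw [Real.log_pow, hL]
    norm_num
  have hsm : ∀ v : ℕ, v ≤ N → Real.log ((v : ℝ) + 3) ≤ 2 * L := by
    intro v hv
    rw [← hlog2]
    apply Real.log_le_log (by positivity)
    have : (v : ℝ) ≤ N := by exact_mod_cast hv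
    nlinarith
  unfold be
  split_ifs with h
  · obtain ⟨hm, hu0, hun⟩ := h
    obtain ⟨u, hu⟩ : ∃ u, u = ch l (pr m) := ⟨_, rfl⟩
    have htr := hTR l hl (pr m) hu0
    have hww := hw (pr m) hu0
    have hw00 := hw0 (pr m)
    rw [← hu] at hu0 hun htr hww
    rw [← hu]
    have hp1 : 1 ≤ pr m := le_trans hm (pr_ge m)
    have hpN : ((pr m : ℕ) : ℝ) ≤ (N : ℝ) ^ 2 := by
      have e1 : pr m ≤ N ^ 2 := by
        calc pr m ≤ KK l * (u + 1) := htr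
          _ ≤ N * N := Nat.mul_le_mul (by omega) (by omega)
          _ = N ^ 2 := (sq N).symm
      exact_mod_cast e1
    have a1 : Real.log (pr m) ≤ 2 * L := by
      rw [← hlog2]
      exact Real.log_le_log (by exact_mod_cast hp1) hpN
    have a0 : 0 ≤ Real.log (pr m) := Real.log_natCast_nonneg _
    have b1 : 1 ≤ Real.log ((u : ℝ) + 3) := one_le_log u
    have a2 : wt l (pr m) ≤ C1 * (2 * L) ^ E1 := by
      refine hww.trans ?_
      have := hsm u (by omega)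
      gcongr
    have a3 : |M (n - u)| ≤ C * (2 * L) ^ E := by
      refine (hM (n - u) (by omega)).trans ?_
      have := hsm (n - u) (by omega)
      have b2 := one_le_log (n - u)
      gcongr
    rw [abs_mul, abs_mul, abs_of_nonneg a0, abs_of_nonneg hw00]
    calc Real.log (pr m) * wt l (pr m) * |M (n - u)| ≤ (2 * L) * (C1 * (2 * L) ^ E1) * (C * (2 * L) ^ E) := by
          gcongr
      _ = (2 ^ (1 + E1 + E) * (C1 * C)) * L ^ (1 + E1 + E) := by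
          rw [mul_pow, mul_pow, pow_add, pow_add, pow_add, pow_add]
          ring
      _ ≤ L * L ^ (1 + E1 + E) := by gcongr
      _ = L ^ (1 + E1 + E + 1) := by ring
  · rw [abs_zero]
    positivity

/-- the error -/
noncomputable def FF (l : List ℝ) (M : ℕ → ℝ) (K n : ℕ) (w : ℝ) : ℂ :=
  ((Real.exp w * ∑ q ∈ Icc 1 (K * (n + 1)), om q * be l M n ⌊Real.exp w * q⌋₊ - ∑ u ∈ Ico 1 n, mu l u * M (n - u) : ℝ) : ℂ)

theorem FF_meas (l : List ℝ) (M : ℕ → ℝ) (K n : ℕ) : Measurable (FF l M K n) := by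
  unfold FF
  apply Complex.measurable_ofReal.comp
  apply Measurable.sub_const
  apply Measurable.mul Real.measurable_exp
  refine Finset.measurable_fun_sum _ fun q _ => ?_
  exact ((measurable_from_nat (f := be l M n)).comp (Nat.measurable_floor.comp (by fun_prop))).const_mul _

theorem FF_eq (hI1 : S_I1) (l : List ℝ) (hl : Pos l) (M : ℕ → ℝ) (w0 : ℝ) (n : ℕ) {w : ℝ} (hw : w0 ≤ w) :
    FF l M (⌈1 / Real.exp w0⌉₊ * (KK l + 1)) n w = ((∑ u ∈ Ico 1 n, (mu (Real.exp w :: l) u - mu l u) * M (n - u) : ℝ) : ℂ) := by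
  unfold FF
  congr 1
  rw [hI1 l hl M n (Real.exp w) (Real.exp_pos w) _ ?_, ← Finset.sum_sub_distrib]
  · refine Finset.sum_congr rfl fun u _ => ?_
    ring
  · have h1 : ⌈1 / Real.exp w⌉₊ ≤ ⌈1 / Real.exp w0⌉₊ := by
      apply Nat.ceil_le_ceil
      apply one_div_le_one_div_of_le (Real.exp_pos _)
      exact Real.exp_le_exp.2 hw
    gcongr

theorem step_l2 (hTR : S_TR) (hMB : S_MB) (hI1 : S_I1) (hI2 : S_I2) (l : List ℝ) (hl : Pos l) (M : ℕ → ℝ) (C E : ℕ)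
    (hM : ∀ v, 0 < v → |M v| ≤ C * Real.log (v + 3) ^ E) (w0 : ℝ) (A : ℕ) : ∀ᶠ N : ℕ in atTop,
    ∫⁻ w in Set.Icc w0 (w0 + 1), ∑ n ∈ Icc 1 N, ‖FF l M (⌈1 / Real.exp w0⌉₊ * (KK l + 1)) n w‖ₑ ^ 2 ≤
      ENNReal.ofReal (N ^ 3 / Real.log N ^ A) := by
  obtain ⟨F, hF⟩ := be_le hTR hMB l hl M C E hM
  obtain ⟨K, hK⟩ : ∃ K, K = ⌈1 / Real.exp w0⌉₊ * (KK l + 1) := ⟨_, rfl⟩
  rw [← hK]
  have hK1 : 1 ≤ K := by
    rw [hK]
    have : 0 < ⌈1 / Real.exp w0⌉₊ := Nat.ceil_pos.2 (by positivity)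
    exact Nat.mul_pos this (by omega)
  have ht : Tendsto (fun N : ℕ => K * (N + 1)) atTop atTop :=
    (tendsto_add_atTop_nat 1).const_mul_atTop' (by omega)
  filter_upwards [hF, ht.eventually (t_L2 w0 (A + 2 * F + 1)), ev_logge 1,
    ev_logge (4 * Real.exp (w0 + 1) ^ 2 * K ^ 2), eventually_ge_atTop 2] with N h1 h2 h3 h4 h5
  obtain ⟨L, hL⟩ : ∃ L, L = Real.log (N : ℝ) := ⟨_, rfl⟩
  rw [← hL] at h1 h3 h4
  rw [← hL]
  have hN2 : (2 : ℝ) ≤ N := by exact_mod_cast h5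
  have hN0 : (0 : ℝ) < N := by linarith
  have hL0 : 0 < L := by linarith
  have hK1r : (1 : ℝ) ≤ K := by exact_mod_cast hK1
  obtain ⟨Y, hY⟩ : ∃ Y, Y = K * (N + 1) := ⟨_, rfl⟩
  rw [← hY] at h2
  have hYr : (Y : ℝ) = K * (N + 1) := by
    rw [hY]
    push_cast
    ring
  have hYN : (N : ℝ) ≤ Y := by
    rw [hYr]
    nlinarith
  have hLY : L ≤ Real.log Y := by
    rw [hL]
    exact Real.log_le_log hN0 hYN
  have hkey : ∀ n ∈ Icc 1 N, ∫⁻ w in Set.Icc w0 (w0 + 1), ‖FF l M K n w‖ₑ ^ 2 ≤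
      ENNReal.ofReal (Real.exp (w0 + 1) ^ 2 * ((L ^ F) ^ 2 * Y ^ 2 / L ^ (A + 2 * F + 1))) := by
    intro n hn
    have hn' := (Finset.mem_Icc.1 hn).2
    have g1 := h2 (fun m => (be l M n m : ℂ)) (L ^ F) (by positivity) (by simp [be]) (fun m _ => by
      rw [Complex.norm_real, Real.norm_eq_abs]
      exact h1 n hn' m)
    have hpt : ∀ w ∈ Set.Icc w0 (w0 + 1), ‖FF l M K n w‖ₑ ^ 2 ≤ ENNReal.ofReal (Real.exp (w0 + 1) ^ 2) *
        ‖∑ q ∈ Icc 1 Y, (om q : ℂ) * (be l M n ⌊Real.exp w * q⌋₊ : ℂ) -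
          ∫ u in (0 : ℝ)..Y, (be l M n ⌊Real.exp w * u⌋₊ : ℂ)‖ₑ ^ 2 := by
      intro w hw
      have hZ : ⌈1 / Real.exp w⌉₊ * (KK l + 1) * (n + 1) ≤ Y := by
        rw [hY, hK]
        have h1 : ⌈1 / Real.exp w⌉₊ ≤ ⌈1 / Real.exp w0⌉₊ := by
          apply Nat.ceil_le_ceil
          apply one_div_le_one_div_of_le (Real.exp_pos _)
          exact Real.exp_le_exp.2 hw.1
        gcongr
      have i1 := hI1 l hl M n (Real.exp w) (Real.exp_pos w) Y hZ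
      have i2 := hI2 l hl M n (Real.exp w) (Real.exp_pos w) Y hZ
      have e1 : FF l M K n w = (Real.exp w : ℂ) * (∑ q ∈ Icc 1 Y, (om q : ℂ) * (be l M n ⌊Real.exp w * q⌋₊ : ℂ) -
          ∫ u in (0 : ℝ)..Y, (be l M n ⌊Real.exp w * u⌋₊ : ℂ)) := by
        rw [hK, FF_eq hI1 l hl M w0 n hw.1, intervalIntegral.integral_ofReal]
        have e2 : ∑ u ∈ Ico 1 n, (mu (Real.exp w :: l) u - mu l u) * M (n - u) =
            Real.exp w * (∑ q ∈ Icc 1 Y, om q * be l M n ⌊Real.exp w * q⌋₊ - ∫ u in (0 : ℝ)..Y, be l M n ⌊Real.exp w * u⌋₊) := by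
          rw [mul_sub, i1, i2, ← Finset.sum_sub_distrib]
          refine Finset.sum_congr rfl fun u _ => ?_
          ring
        rw [e2]
        push_cast
        rfl
      rw [e1, enorm_mul, mul_pow]
      gcongr
      rw [← ofReal_norm, Complex.norm_real, Real.norm_eq_abs, abs_of_pos (Real.exp_pos w), ← ENNReal.ofReal_pow (Real.exp_pos w).le]
      apply ENNReal.ofReal_le_ofReal
      apply pow_le_pow_left₀ (Real.exp_pos w).le
      exact Real.exp_le_exp.2 hw.2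
    refine (setLIntegral_mono' measurableSet_Icc hpt).trans ?_
    rw [lintegral_const_mul' _ _ (by simp), ENNReal.ofReal_mul (by positivity)]
    refine mul_le_mul_right (g1.trans ?_) _
    apply ENNReal.ofReal_le_ofReal
    gcongr
  rw [lintegral_finsetSum _ (fun n _ => (FF_meas l M K n).enorm.pow_const 2)]
  refine (Finset.sum_le_sum hkey).trans ?_
  rw [Finset.sum_const, Nat.card_Icc, Nat.add_sub_cancel, nsmul_eq_mul, ← ENNReal.ofReal_natCast, ← ENNReal.ofReal_mul hN0.le]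
  apply ENNReal.ofReal_le_ofReal
  have hY2 : (Y : ℝ) ^ 2 ≤ 4 * K ^ 2 * N ^ 2 := by
    have : (Y : ℝ) ≤ K * (2 * N) := by
      rw [hYr]
      gcongr
      linarith
    calc (Y : ℝ) ^ 2 ≤ (K * (2 * N)) ^ 2 := by gcongr
      _ = _ := by ring
  calc (N : ℝ) * (Real.exp (w0 + 1) ^ 2 * ((L ^ F) ^ 2 * Y ^ 2 / L ^ (A + 2 * F + 1))) ≤
      (N : ℝ) * (Real.exp (w0 + 1) ^ 2 * ((L ^ F) ^ 2 * (4 * K ^ 2 * N ^ 2) / L ^ (A + 2 * F + 1))) := by gcongr
    _ = N ^ 3 / L ^ A * ((4 * Real.exp (w0 + 1) ^ 2 * K ^ 2) / L) := by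
        have e9 : L ^ (A + 2 * F + 1) = L ^ A * (L ^ F) ^ 2 * L := by
          rw [← pow_mul, ← pow_add, ← pow_succ, mul_comm 2 F]
        have e8 : 0 < L ^ F := by positivity
        rw [e9]
        field_simp
    _ ≤ N ^ 3 / L ^ A * 1 := by
        gcongr
        rw [div_le_one hL0]
        exact h4
    _ = _ := mul_one _

theorem t_STEP (hTR : S_TR) (hMB : S_MB) (hI1 : S_I1) (hI2 : S_I2) : S_STEP := by
  intro l hl M C E hM
  apply ae_of_exp (P := fun α => ∀ A : ℕ, ∀ᶠ N : ℕ in atTop,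
    (Ex (fun n => |∑ u ∈ Ico 1 n, (mu (α :: l) u - mu l u) * M (n - u)|) A N : ℝ) ≤ N / Real.log N ^ A) one_pos
  have h1 : ∀ᵐ w : ℝ, ∀ z : ℤ, w ∈ Set.Icc (z : ℝ) (z + 1) → ∀ A : ℕ, ∀ᶠ N : ℕ in atTop,
      (Ex (fun n => ‖FF l M (⌈1 / Real.exp (z : ℝ)⌉₊ * (KK l + 1)) n w‖) A N : ℝ) ≤ N / Real.log N ^ A := by
    rw [ae_all_iff]
    intro z
    exact (ae_restrict_iff' measurableSet_Icc).1 (bc (fun n w => FF l M (⌈1 / Real.exp (z : ℝ)⌉₊ * (KK l + 1)) n w)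
      (fun n => FF_meas l M _ n) z (fun A => step_l2 hTR hMB hI1 hI2 l hl M C E hM z A))
  filter_upwards [h1] with w hw A
  filter_upwards [hw ⌊w⌋ ⟨Int.floor_le w, (Int.lt_floor_add_one w).le⟩ A] with N hN
  rw [one_mul]
  have e : ∀ n, ‖FF l M (⌈1 / Real.exp ((⌊w⌋ : ℤ) : ℝ)⌉₊ * (KK l + 1)) n w‖ =
      |∑ u ∈ Ico 1 n, (mu (Real.exp w :: l) u - mu l u) * M (n - u)| := by
    intro n
    rw [FF_eq hI1 l hl M _ n (Int.floor_le w), Complex.norm_real, Real.norm_eq_abs]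
  simp only [e] at hN
  exact hN

end Pool.Agent.D0H91.GI
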