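import Mathlib
import Pool.Agent.D0H91.GI.Step
import Pool.Agent.W93.GB1

/-! The end of the proof. -/

set_option autoImplicit false

namespace Pool.Agent.D0H91.GI

open Finset MeasureTheory Filter Topology
open Pool.Agent.D0H91.MG
open Pool.Agent.D0H91.UB (Ex)
open Pool.Agent.W301.SS (om)
open Pool.Agent.H560R3.GB (sing)

theorem AE_imp {k : ℕ} : ∀ {P Q : List ℝ → Prop}, (∀ l, l.length = k → Pos l → P l → Q l) → AE k P → AE k Q := by
  induction k with
  | zero =>
    intro P Q h hP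
    exact h [] rfl (by intro α hα; simp at hα) hP
  | succ k ih =>
    intro P Q h hP
    refine ih ?_ hP
    intro l hl hpos hα
    filter_upwards [hα] with α hα h0
    refine h (α :: l) (by simp [hl]) ?_ (hα h0)
    intro β hβ
    rcases List.mem_cons.1 hβ with rfl | hβ
    · exact h0
    · exact hpos β hβ

theorem AE_and {k : ℕ} : ∀ {P Q : List ℝ → Prop}, AE k P → AE k Q → AE k fun l => P l ∧ Q l := by
  induction k with
  | zero =>
    intro P Q hP hQ
    exact ⟨hP, hQ⟩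
  | succ k ih =>
    intro P Q hP hQ
    refine AE_imp (k := k) (P := fun l => (∀ᵐ α : ℝ, 0 < α → P (α :: l)) ∧ ∀ᵐ α : ℝ, 0 < α → Q (α :: l))
      (Q := fun l => ∀ᵐ α : ℝ, 0 < α → P (α :: l) ∧ Q (α :: l)) ?_ (ih hP hQ)
    rintro l - - ⟨h1, h2⟩
    filter_upwards [h1, h2] with α h1 h2 h0
    exact ⟨h1 h0, h2 h0⟩

theorem ex_add (f g h : ℕ → ℝ) (hf : ∀ n, f n ≤ g n + h n) (A N : ℕ) (hL : 2 ≤ Real.log N) :
    Ex f A N ≤ Ex g (A + 1) N + Ex h (A + 1) N := by
  unfold Ex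
  refine le_trans (Finset.card_le_card ?_) (Finset.card_union_le _ _)
  intro n hn
  rw [Finset.mem_filter] at hn
  rw [Finset.mem_union, Finset.mem_filter, Finset.mem_filter]
  by_contra hc
  push Not at hc
  have h1 := hc.1 hn.1
  have h2 := hc.2 hn.1
  have hL0 : 0 < Real.log (N : ℝ) := by linarith
  have e1 : (N : ℝ) / Real.log N ^ (A + 1) + N / Real.log N ^ (A + 1) ≤ N / Real.log N ^ A := by
    calc (N : ℝ) / Real.log N ^ (A + 1) + N / Real.log N ^ (A + 1) = N / Real.log N ^ A * (2 / Real.log N) := by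
          rw [pow_succ]
          field_simp
          ring
      _ ≤ N / Real.log N ^ A * 1 := by
          gcongr
          rw [div_le_one hL0]
          exact hL
      _ = _ := mul_one _
  have := hf n
  linarith [hn.2]

def Cl (l : List ℝ) (M : ℕ → ℝ) : Prop := ∀ A : ℕ, ∀ᶠ N : ℕ in atTop,
  (Ex (fun n => |∑ u ∈ Ico 1 n, (mu l u - mu [] u) * M (n - u)|) A N : ℝ) ≤ N / Real.log N ^ A

theorem cl_nil (M : ℕ → ℝ) : Cl [] M := by
  intro A
  filter_upwards with N
  have : Ex (fun n => |∑ u ∈ Ico 1 n, (mu [] u - mu [] u) * M (n - u)|) A N = 0 := by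
    unfold Ex
    rw [Finset.card_eq_zero, Finset.filter_eq_empty_iff]
    intro n _
    rw [not_lt]
    simp only [sub_self, zero_mul, Finset.sum_const_zero, abs_zero]
    have : 0 ≤ Real.log (N : ℝ) := Real.log_natCast_nonneg N
    positivity
  rw [this]
  have : 0 ≤ Real.log (N : ℝ) := Real.log_natCast_nonneg N
  push_cast
  positivity

theorem cl_cons (l : List ℝ) (M : ℕ → ℝ) (α : ℝ) (h1 : Cl l M) (h2 : ∀ A : ℕ, ∀ᶠ N : ℕ in atTop,
    (Ex (fun n => |∑ u ∈ Ico 1 n, (mu (α :: l) u - mu l u) * M (n - u)|) A N : ℝ) ≤ N / Real.log N ^ A) : Cl (α :: l) M := by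
  intro A
  filter_upwards [h1 (A + 2), h2 (A + 2), h1 (A + 1), h2 (A + 1), ev_logge 2] with N h3 h4 h5 h6 h7
  have hL0 : 0 < Real.log (N : ℝ) := by linarith
  have h8 := ex_add (fun n => |∑ u ∈ Ico 1 n, (mu (α :: l) u - mu [] u) * M (n - u)|)
    (fun n => |∑ u ∈ Ico 1 n, (mu (α :: l) u - mu l u) * M (n - u)|)
    (fun n => |∑ u ∈ Ico 1 n, (mu l u - mu [] u) * M (n - u)|) (by
      intro n
      have e : ∑ u ∈ Ico 1 n, (mu (α :: l) u - mu [] u) * M (n - u) = ∑ u ∈ Ico 1 n, (mu (α :: l) u - mu l u) * M (n - u) +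
          ∑ u ∈ Ico 1 n, (mu l u - mu [] u) * M (n - u) := by
        rw [← Finset.sum_add_distrib]
        refine Finset.sum_congr rfl fun u _ => ?_
        ring
      simp only [e]
      exact abs_add_le _ _) A N h7
  have h9 : (Ex (fun n => |∑ u ∈ Ico 1 n, (mu (α :: l) u - mu [] u) * M (n - u)|) A N : ℝ) ≤
      Ex (fun n => |∑ u ∈ Ico 1 n, (mu (α :: l) u - mu l u) * M (n - u)|) (A + 1) N +
      Ex (fun n => |∑ u ∈ Ico 1 n, (mu l u - mu [] u) * M (n - u)|) (A + 1) N := by exact_mod_cast h8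
  have e1 : (N : ℝ) / Real.log N ^ (A + 1) + N / Real.log N ^ (A + 1) ≤ N / Real.log N ^ A := by
    calc (N : ℝ) / Real.log N ^ (A + 1) + N / Real.log N ^ (A + 1) = N / Real.log N ^ A * (2 / Real.log N) := by
          rw [pow_succ]
          field_simp
          ring
      _ ≤ N / Real.log N ^ A * 1 := by
          gcongr
          rw [div_le_one hL0]
          exact h7
      _ = _ := mul_one _
  linarith

theorem ae_cl (hST : S_STEP) (M : ℕ → ℝ) (C E : ℕ) (hM : ∀ v, 0 < v → |M v| ≤ C * Real.log (v + 3) ^ E) (k : ℕ) :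
    AE k fun l => Cl l M := by
  induction k with
  | zero => exact cl_nil M
  | succ k ih =>
    refine AE_imp (k := k) (P := fun l => Cl l M) (Q := fun l => ∀ᵐ α : ℝ, 0 < α → Cl (α :: l) M) ?_ ih
    intro l _ hl h1
    filter_upwards [hST l hl M C E hM] with α hα h0
    exact cl_cons l M α h1 (hα h0)

theorem TT_symm (l l' : List ℝ) (n : ℕ) : TT l l' n = TT l' l n := by
  unfold TT
  refine Finset.sum_nbij' (fun u => n - u) (fun u => n - u) ?_ ?_ ?_ ?_ ?_
  · intro u hu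
    rw [Finset.mem_Ico] at hu ⊢
    omega
  · intro u hu
    rw [Finset.mem_Ico] at hu ⊢
    omega
  · intro u hu
    rw [Finset.mem_Ico] at hu
    omega
  · intro u hu
    rw [Finset.mem_Ico] at hu
    omega
  · intro u hu
    rw [Finset.mem_Ico] at hu
    rw [show n - (n - u) = u by omega, mul_comm]

theorem TT_diff (l l' : List ℝ) (n : ℕ) : TT l l' n - TT [] [] n =
    ∑ u ∈ Ico 1 n, (mu l' u - mu [] u) * mu l (n - u) + ∑ u ∈ Ico 1 n, (mu l u - mu [] u) * mu [] (n - u) := by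
  have e1 : TT l l' n - TT [] [] n = (TT l' l n - TT [] l n) + (TT l [] n - TT [] [] n) := by
    rw [TT_symm l l', TT_symm [] l]
    ring
  rw [e1]
  unfold TT
  rw [← Finset.sum_sub_distrib, ← Finset.sum_sub_distrib]
  congr 1
  · refine Finset.sum_congr rfl fun u _ => ?_
    ring
  · refine Finset.sum_congr rfl fun u _ => ?_
    ring

/-- the arithmetic of the last step -/
theorem last {ε X X0 T T0 S n : ℝ} (hε : 0 < ε) (hε1 : ε ≤ 1) (hS : n ≤ S) (hn : 0 ≤ n) (hX0 : 0 ≤ X0)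
    (h1 : |T - X| ≤ ε / 20 * X + ε / 20 * n) (h2 : |T0 - X0| ≤ ε / 20 * X0 + ε / 20 * n) (h3 : |X0 - S| ≤ ε / 20 * S)
    (h4 : |T - T0| ≤ ε / 20 * n) : |X - S| ≤ ε * S := by
  have hS0 : 0 ≤ S := hn.trans hS
  have hη : 0 < ε / 20 := by positivity
  obtain ⟨η, hη'⟩ : ∃ η, η = ε / 20 := ⟨_, rfl⟩
  have he : ε = 20 * η := by
    rw [hη']
    ring
  rw [← hη'] at h1 h2 h3 h4 hη
  have hη1 : η ≤ 1 / 20 := by
    rw [hη']
    linarith
  rw [he]
  rw [abs_le] at h1 h2 h3 h4 ⊢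
  obtain ⟨a1, a2⟩ := h1
  obtain ⟨b1, b2⟩ := h2
  obtain ⟨c1, c2⟩ := h3
  obtain ⟨d1, d2⟩ := h4
  have hnS : η * n ≤ η * S := mul_le_mul_of_nonneg_left hS hη.le
  have hSS : 0 ≤ η * S := by positivity
  have hηη : η * (η * S) ≤ 1 / 20 * (η * S) := mul_le_mul_of_nonneg_right hη1 hSS
  have hX0S : η * X0 ≤ η * S + η * (η * S) := by
    have := mul_le_mul_of_nonneg_left c2 hη.le
    nlinarith
  have hXS : X ≤ 2 * S := by
    by_contra hc
    push Not at hc
    have e1 : X - η * X ≤ S + 5 * (η * S) := by nlinarith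
    have e2 : X * (1 - η) > 2 * S * (19 / 20) := by nlinarith
    nlinarith
  have hX2 : η * X ≤ 2 * (η * S) := by
    have := mul_le_mul_of_nonneg_left hXS hη.le
    linarith
  constructor
  · nlinarith
  · nlinarith

open Classical in
theorem good_pair (hBASE : S_BASE) (hCT : S_CT) (l l' : List ℝ) (hl : Pos l) (hl' : Pos l')
    (h1 : Cl l (mu [])) (h2 : Cl l' (mu l)) : ∀ ε : ℝ, 0 < ε → ∀ A : ℕ, ∀ᶠ N : ℕ in atTop,
    (((Icc 1 N).filter fun n => Even n ∧ ¬ |(rr l l' n : ℝ) * (l.prod * l'.prod) *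
      Real.log n ^ (l.length + l'.length + 2) - sing n * n| ≤ ε * (sing n * n)).card : ℝ) ≤ N / Real.log N ^ A := by
  intro ε0 hε0 A
  obtain ⟨ε, hε⟩ : ∃ ε, ε = min ε0 1 := ⟨_, rfl⟩
  have hε00 : 0 < ε := by
    rw [hε]
    positivity
  have hε1 : ε ≤ 1 := by
    rw [hε]
    exact min_le_right _ _
  have hεε : ε ≤ ε0 := by
    rw [hε]
    exact min_le_left _ _
  obtain ⟨n1, hn1⟩ := (hCT l l' hl hl' (ε / 20) (by positivity)).exists_forall_of_atTop
  obtain ⟨n2, hn2⟩ := (hCT [] [] (by intro α hα; simp at hα) (by intro α hα; simp at hα) (ε / 20) (by positivity)).exists_forall_of_atTop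
  filter_upwards [hBASE (ε / 20) (by positivity) (A + 1), h1 (A + 3), h2 (A + 3), ev_logge 5, ev_logge (40 / ε),
    ev_logpow (n1 + n2 : ℕ) (A + 1), eventually_ge_atTop 2] with N g1 g2 g3 g4 g5 g6 g7
  obtain ⟨L, hL⟩ : ∃ L, L = Real.log (N : ℝ) := ⟨_, rfl⟩
  rw [← hL] at g1 g2 g3 g4 g5 g6
  rw [← hL]
  have hN2 : (2 : ℝ) ≤ N := by exact_mod_cast g7
  have hN0 : (0 : ℝ) < N := by linarith
  have hL0 : 0 < L := by linarith
  have hL1 : 1 ≤ L := by linarith
  obtain ⟨E1, hE1⟩ : ∃ E1, E1 = (Icc 1 N).filter fun n => Even n ∧ ¬ |(rr [] [] n : ℝ) * Real.log n ^ 2 - sing n * n| ≤ ε / 20 * (sing n * n) := ⟨_, rfl⟩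
  obtain ⟨E2, hE2⟩ : ∃ E2, E2 = (Icc 1 N).filter fun n => (N : ℝ) / Real.log N ^ (A + 3) < |∑ u ∈ Ico 1 n, (mu l u - mu [] u) * mu [] (n - u)| := ⟨_, rfl⟩
  obtain ⟨E3, hE3⟩ : ∃ E3, E3 = (Icc 1 N).filter fun n => (N : ℝ) / Real.log N ^ (A + 3) < |∑ u ∈ Ico 1 n, (mu l' u - mu [] u) * mu l (n - u)| := ⟨_, rfl⟩
  obtain ⟨E4, hE4⟩ : ∃ E4, E4 = Icc 1 ⌊(N : ℝ) / L ^ (A + 1)⌋₊ := ⟨_, rfl⟩
  obtain ⟨E5, hE5⟩ : ∃ E5, E5 = Icc 1 (n1 + n2) := ⟨_, rfl⟩
  have c1 : (E1.card : ℝ) ≤ N / L ^ (A + 1) := by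
    rw [hE1]
    convert g1
  have c2 : (E2.card : ℝ) ≤ N / L ^ (A + 3) := by
    rw [hE2]
    unfold Ex at g2
    convert g2
  have c3 : (E3.card : ℝ) ≤ N / L ^ (A + 3) := by
    rw [hE3]
    unfold Ex at g3
    convert g3
  have c4 : (E4.card : ℝ) ≤ N / L ^ (A + 1) := by
    rw [hE4, Nat.card_Icc, Nat.add_sub_cancel]
    exact Nat.floor_le (by positivity)
  have c5 : (E5.card : ℝ) ≤ N / L ^ (A + 1) := by
    rw [hE5, Nat.card_Icc, Nat.add_sub_cancel, le_div_iff₀ (by positivity)]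
    exact g6
  have hsub : ((Icc 1 N).filter fun n => Even n ∧ ¬ |(rr l l' n : ℝ) * (l.prod * l'.prod) *
      Real.log n ^ (l.length + l'.length + 2) - sing n * n| ≤ ε0 * (sing n * n)) ⊆ E1 ∪ E2 ∪ E3 ∪ E4 ∪ E5 := by
    intro n hn
    rw [Finset.mem_filter] at hn
    obtain ⟨hnN, hev, hbad⟩ := hn
    by_contra hc
    simp only [Finset.mem_union, not_or] at hc
    obtain ⟨⟨⟨⟨m1, m2⟩, m3⟩, m4⟩, m5⟩ := hc
    apply hbad
    have hnN' := Finset.mem_Icc.1 hnN
    have hn1r : (1 : ℝ) ≤ n := by exact_mod_cast hnN'.1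
    have k1 : |(rr [] [] n : ℝ) * Real.log n ^ 2 - sing n * n| ≤ ε / 20 * (sing n * n) := by
      by_contra hq
      apply m1
      rw [hE1, Finset.mem_filter]
      exact ⟨hnN, hev, hq⟩
    have k2 : |∑ u ∈ Ico 1 n, (mu l u - mu [] u) * mu [] (n - u)| ≤ (N : ℝ) / L ^ (A + 3) := by
      by_contra hq
      apply m2
      rw [hE2, Finset.mem_filter, ← hL]
      exact ⟨hnN, not_le.1 hq⟩
    have k3 : |∑ u ∈ Ico 1 n, (mu l' u - mu [] u) * mu l (n - u)| ≤ (N : ℝ) / L ^ (A + 3) := by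
      by_contra hq
      apply m3
      rw [hE3, Finset.mem_filter, ← hL]
      exact ⟨hnN, not_le.1 hq⟩
    have k4 : (N : ℝ) / L ^ (A + 1) < n := by
      rw [hE4, Finset.mem_Icc, not_and, not_le] at m4
      exact (Nat.floor_lt (by positivity)).1 (m4 hnN'.1)
    have k5 : n1 + n2 < n := by
      rw [hE5, Finset.mem_Icc, not_and, not_le] at m5
      exact m5 hnN'.1
    have q1 := hn1 n (by omega)
    have q2 := hn2 n (by omega)
    simp only [List.prod_nil, List.length_nil, mul_one, one_mul, zero_add] at q2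
    have q3 : |TT l l' n - TT [] [] n| ≤ ε / 20 * n := by
      rw [TT_diff]
      refine (abs_add_le _ _).trans ?_
      have e1 : (N : ℝ) / L ^ (A + 3) + N / L ^ (A + 3) ≤ ε / 20 * (N / L ^ (A + 1)) := by
        calc (N : ℝ) / L ^ (A + 3) + N / L ^ (A + 3) = ε / 20 * (N / L ^ (A + 1)) * ((40 / ε) / L) * (1 / L) := by
              rw [show A + 3 = A + 1 + 1 + 1 by ring, pow_succ _ (A + 1 + 1), pow_succ _ (A + 1)]
              field_simp
              ring
          _ ≤ ε / 20 * (N / L ^ (A + 1)) * 1 * 1 := by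
              gcongr
              · rw [div_le_one hL0]
                exact g5
              · rw [div_le_one hL0]
                exact hL1
          _ = _ := by ring
      have e2 : ε / 20 * ((N : ℝ) / L ^ (A + 1)) ≤ ε / 20 * n := by gcongr
      linarith
    have hs := Pool.Agent.W93.GB.one_le_sing n
    have hSn : (n : ℝ) ≤ sing n * n := by nlinarith
    have hfin := last (ε := ε) (X := l.prod * l'.prod * Real.log n ^ (l.length + l'.length + 2) * rr l l' n)
      (X0 := Real.log n ^ 2 * rr [] [] n) (T := TT l l' n) (T0 := TT [] [] n) (S := sing n * n) (n := n)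
      hε00 hε1 hSn (by linarith) (by positivity) q1 q2 (by rwa [mul_comm (Real.log (n : ℝ) ^ 2)]) q3
    rw [show (rr l l' n : ℝ) * (l.prod * l'.prod) * Real.log n ^ (l.length + l'.length + 2) =
      l.prod * l'.prod * Real.log n ^ (l.length + l'.length + 2) * rr l l' n by ring]
    refine hfin.trans ?_
    apply mul_le_mul_of_nonneg_right hεε
    linarith
  have hcard : (((Icc 1 N).filter fun n => Even n ∧ ¬ |(rr l l' n : ℝ) * (l.prod * l'.prod) *
      Real.log n ^ (l.length + l'.length + 2) - sing n * n| ≤ ε0 * (sing n * n)).card : ℝ) ≤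
      E1.card + E2.card + E3.card + E4.card + E5.card := by
    have h := Finset.card_le_card hsub
    have h' := (Finset.card_union_le (E1 ∪ E2 ∪ E3 ∪ E4) E5).trans (Nat.add_le_add_right
      ((Finset.card_union_le (E1 ∪ E2 ∪ E3) E4).trans (Nat.add_le_add_right
      ((Finset.card_union_le (E1 ∪ E2) E3).trans (Nat.add_le_add_right (Finset.card_union_le E1 E2) _)) _)) _)
    exact_mod_cast h.trans h'
  have e3 : (N : ℝ) / L ^ (A + 3) ≤ N / L ^ (A + 1) := by
    apply div_le_div_of_nonneg_left hN0.le (by positivity)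
    exact pow_le_pow_right₀ hL1 (by omega)
  calc _ ≤ _ := hcard
    _ ≤ 5 * (N / L ^ (A + 1)) := by linarith
    _ = N / L ^ A * (5 / L) := by
        rw [pow_succ]
        field_simp
    _ ≤ N / L ^ A * 1 := by
        gcongr
        rw [div_le_one hL0]
        exact g4
    _ = _ := mul_one _

theorem t_END (hST : S_STEP) (hMB : S_MB) (hBASE : S_BASE) (hCT : S_CT) : S_END := by
  intro a b
  obtain ⟨C0, E0, -, -, -, h0⟩ := hMB [] (by intro α hα; simp at hα)
  refine AE_imp ?_ (ae_cl hST (mu []) C0 E0 h0 a)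
  intro l hla hl h1
  obtain ⟨C1, E1, -, -, -, h2⟩ := hMB l hl
  refine AE_imp ?_ (ae_cl hST (mu l) C1 E1 h2 b)
  intro l' hlb hl' h3 ε hε A
  have h4 := good_pair hBASE hCT l l' hl hl' h1 h3 ε hε A
  rw [hla, hlb] at h4
  filter_upwards [h4] with N hN
  convert hN

end Pool.Agent.D0H91.GI
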