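import Mathlib
import Pool.Agent.D0H91.GI.End
import Pool.Agent.D0H42.GI.Base

/-! The number of pairs of primes. -/

set_option autoImplicit false

namespace Pool.Agent.D0H91.GI

open Finset MeasureTheory Filter Topology
open Pool.Agent.D0H91.MG
open Pool.Agent.D0H91.UB (Ex)
open Pool.Agent.W301.SS (om)
open Pool.Agent.H560R3.GB (sing)

/-- the pairs of primes counted -/
def RS (l l' : List ℝ) (n : ℕ) : Set (ℕ × ℕ) :=
  {q : ℕ × ℕ | q.1.Prime ∧ q.2.Prime ∧ 0 < ch l q.1 ∧ 0 < ch l' q.2 ∧ ch l q.1 + ch l' q.2 = n}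

theorem RS_card (hTR : S_TR) (l l' : List ℝ) (hl : Pos l) (hl' : Pos l') (n : ℕ) : Nat.card (RS l l' n) = rr l l' n := by
  classical
  obtain ⟨S, hS⟩ : ∃ S : Finset ((_ : ℕ) × (ℕ × ℕ)), S = (Ico 1 n).sigma fun u =>
    ((Icc 1 (KK l * (u + 1))).filter fun q => q.Prime ∧ ch l q = u) ×ˢ
      ((Icc 1 (KK l' * (n - u + 1))).filter fun q => q.Prime ∧ ch l' q = n - u) := ⟨_, rfl⟩
  have h1 : S.card = rr l l' n := by
    rw [hS, Finset.card_sigma]
    unfold rr cn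
    refine Finset.sum_congr rfl fun u _ => ?_
    rw [Finset.card_product]
  have h2 : RS l l' n = ((S.image fun x => x.2 : Finset (ℕ × ℕ)) : Set (ℕ × ℕ)) := by
    ext ⟨q, q'⟩
    simp only [RS, Set.mem_setOf_eq, Finset.coe_image, Set.mem_image, Finset.mem_coe]
    constructor
    · rintro ⟨a1, a2, a3, a4, a5⟩
      refine ⟨⟨ch l q, (q, q')⟩, ?_, rfl⟩
      rw [hS, Finset.mem_sigma, Finset.mem_product]
      simp only [Finset.mem_Ico, Finset.mem_filter, Finset.mem_Icc]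
      have b1 := hTR l hl q a3
      have b2 := hTR l' hl' q' a4
      have b3 : n - ch l q = ch l' q' := by omega
      rw [b3]
      exact ⟨⟨by omega, by omega⟩, ⟨⟨a1.one_lt.le, b1⟩, a1, by trivial⟩, ⟨⟨a2.one_lt.le, b2⟩, a2, by trivial⟩⟩
    · rintro ⟨⟨u, ⟨r, r'⟩⟩, hx, hxe⟩
      simp only [Prod.mk.injEq] at hxe
      obtain ⟨rfl, rfl⟩ := hxe
      rw [hS, Finset.mem_sigma, Finset.mem_product] at hx
      simp only [Finset.mem_Ico, Finset.mem_filter, Finset.mem_Icc] at hx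
      obtain ⟨⟨c1, c2⟩, ⟨⟨c3, c4⟩, c5, c6⟩, ⟨⟨c7, c8⟩, c9, c10⟩⟩ := hx
      exact ⟨c5, c9, by omega, by omega, by omega⟩
  rw [h2, Nat.card_coe_set_eq, Set.ncard_coe_finset, Finset.card_image_of_injOn, h1]
  intro x hx y hy hxy
  rw [hS] at hx hy
  rw [Finset.mem_coe, Finset.mem_sigma, Finset.mem_product] at hx hy
  simp only [Finset.mem_Ico, Finset.mem_filter, Finset.mem_Icc] at hx hy
  obtain ⟨u, q⟩ := x
  obtain ⟨v, q'⟩ := y
  simp only at hxy
  subst hxy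
  have : u = v := by
    have e1 := hx.2.1.2.2
    have e2 := hy.2.1.2.2
    simp only at e1 e2
    rw [← e1, ← e2]
  subst this
  rfl

theorem fin (hTR : S_TR) (hMB : S_MB) (hI1 : S_I1) (hI2 : S_I2) (hCT : S_CT) (a b : ℕ) :
    AE a fun l => AE b fun l' => ∀ ε : ℝ, 0 < ε → ∀ A : ℕ, ∀ᶠ N : ℕ in atTop,
      (Nat.card {n : ℕ | 1 ≤ n ∧ n ≤ N ∧ Even n ∧ ¬ |(Nat.card (RS l l' n) : ℝ) * (l.prod * l'.prod) *
        Real.log n ^ (a + b + 2) - sing n * n| ≤ ε * (sing n * n)} : ℝ) ≤ N / Real.log N ^ A := by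
  classical
  have h := t_END (t_STEP hTR hMB hI1 hI2) hMB Pool.Agent.D0H42.GI.t_BASE hCT a b
  refine AE_imp ?_ h
  intro l _ hl h1
  refine AE_imp ?_ h1
  intro l' _ hl' h2 ε hε A
  filter_upwards [h2 ε hε A] with N hN
  have e : {n : ℕ | 1 ≤ n ∧ n ≤ N ∧ Even n ∧ ¬ |(Nat.card (RS l l' n) : ℝ) * (l.prod * l'.prod) *
        Real.log n ^ (a + b + 2) - sing n * n| ≤ ε * (sing n * n)} =
      (((Icc 1 N).filter fun n => Even n ∧ ¬ |(rr l l' n : ℝ) * (l.prod * l'.prod) * Real.log n ^ (a + b + 2) - sing n * n| ≤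
        ε * (sing n * n) : Finset ℕ) : Set ℕ) := by
    ext n
    simp only [Set.mem_setOf_eq, Finset.coe_filter, Finset.mem_Icc, RS_card hTR l l' hl hl']
    tauto
  rw [e, Nat.card_coe_set_eq, Set.ncard_coe_finset]
  convert hN

end Pool.Agent.D0H91.GI
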