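import Mathlib
import Pool.Agent.D0H91.GI.Fin

/-! Distinct summands, and the transfer for fixed chains. -/

set_option autoImplicit false

namespace Pool.Agent.D0H91.GI

open Finset MeasureTheory Filter Topology
open Pool.Agent.D0H91.MG
open Pool.Agent.D0H91.UB (Ex)
open Pool.Agent.W301.SS (om)
open Pool.Agent.H560R3.GB (sing)

/-- the pairs of primes counted, with different summands -/
def RD (l l' : List ℝ) (n : ℕ) : Set (ℕ × ℕ) :=
  {q : ℕ × ℕ | q.1.Prime ∧ q.2.Prime ∧ 0 < ch l q.1 ∧ 0 < ch l' q.2 ∧ ch l q.1 ≠ ch l' q.2 ∧ ch l q.1 + ch l' q.2 = n}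

theorem RS_fin (hTR : S_TR) (l l' : List ℝ) (hl : Pos l) (hl' : Pos l') (n : ℕ) : (RS l l' n).Finite := by
  refine Set.Finite.subset ((Icc 1 (KK l * (n + 1)) ×ˢ Icc 1 (KK l' * (n + 1)) : Finset (ℕ × ℕ)).finite_toSet) ?_
  rintro ⟨q, q'⟩ ⟨a1, a2, a3, a4, a5⟩
  simp only at a1 a2 a3 a4 a5
  rw [Finset.mem_coe, Finset.mem_product, Finset.mem_Icc, Finset.mem_Icc]
  have b1 := hTR l hl q a3
  have b2 := hTR l' hl' q' a4
  refine ⟨⟨a1.one_lt.le, b1.trans ?_⟩, ⟨a2.one_lt.le, b2.trans ?_⟩⟩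
  · exact Nat.mul_le_mul_left _ (by omega)
  · exact Nat.mul_le_mul_left _ (by omega)

theorem RD_RS (hTR : S_TR) (hMB : S_MB) (l l' : List ℝ) (hl : Pos l) (hl' : Pos l') : ∃ c : ℕ, ∀ n : ℕ,
    Nat.card (RD l l' n) ≤ Nat.card (RS l l' n) ∧ Nat.card (RS l l' n) ≤ Nat.card (RD l l' n) + c := by
  classical
  obtain ⟨C, E, -, -, hC, -⟩ := hMB l hl
  obtain ⟨C', E', -, -, hC', -⟩ := hMB l' hl'
  refine ⟨C * C', fun n => ?_⟩
  have hfin := RS_fin hTR l l' hl hl' n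
  have hsub : RD l l' n ⊆ RS l l' n := by
    rintro ⟨q, q'⟩ ⟨a1, a2, a3, a4, -, a5⟩
    exact ⟨a1, a2, a3, a4, a5⟩
  rw [Nat.card_coe_set_eq, Nat.card_coe_set_eq]
  refine ⟨Set.ncard_le_ncard hsub hfin, ?_⟩
  rcases Nat.eq_zero_or_pos (n / 2) with h0 | h0
  · have : RS l l' n ⊆ RD l l' n := by
      rintro ⟨q, q'⟩ ⟨a1, a2, a3, a4, a5⟩
      simp only at a1 a2 a3 a4 a5
      exact ⟨a1, a2, a3, a4, by simp only; omega, a5⟩
    exact (Set.ncard_le_ncard this (hfin.subset hsub)).trans (Nat.le_add_right _ _)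
  · obtain ⟨D, hD⟩ : ∃ D : Finset (ℕ × ℕ), D = ((Icc 1 (KK l * (n / 2 + 1))).filter fun q => ch l q = n / 2) ×ˢ
        ((Icc 1 (KK l' * (n / 2 + 1))).filter fun q => ch l' q = n / 2) := ⟨_, rfl⟩
    have hDc : D.card ≤ C * C' := by
      rw [hD, Finset.card_product]
      exact Nat.mul_le_mul (hC _ h0) (hC' _ h0)
    have hun : RS l l' n ⊆ RD l l' n ∪ (D : Set (ℕ × ℕ)) := by
      rintro ⟨q, q'⟩ ⟨a1, a2, a3, a4, a5⟩
      simp only at a1 a2 a3 a4 a5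
      by_cases h : ch l q = ch l' q'
      · right
        have e1 : ch l q = n / 2 := by omega
        have e2 : ch l' q' = n / 2 := by omega
        have b1 := hTR l hl q a3
        have b2 := hTR l' hl' q' a4
        rw [e1] at b1
        rw [e2] at b2
        rw [hD, Finset.mem_coe, Finset.mem_product, Finset.mem_filter, Finset.mem_filter, Finset.mem_Icc, Finset.mem_Icc]
        exact ⟨⟨⟨a1.one_lt.le, b1⟩, e1⟩, ⟨⟨a2.one_lt.le, b2⟩, e2⟩⟩
      · left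
        exact ⟨a1, a2, a3, a4, h, a5⟩
    calc (RS l l' n).ncard ≤ (RD l l' n ∪ (D : Set (ℕ × ℕ))).ncard :=
          Set.ncard_le_ncard hun ((hfin.subset hsub).union D.finite_toSet)
      _ ≤ (RD l l' n).ncard + (D : Set (ℕ × ℕ)).ncard := Set.ncard_union_le _ _
      _ ≤ (RD l l' n).ncard + C * C' := by
          rw [Set.ncard_coe_finset]
          omega

/-- generic chains, distinct summands -/
theorem fin_d (hTR : S_TR) (hMB : S_MB) (hI1 : S_I1) (hI2 : S_I2) (hCT : S_CT) (a b : ℕ) :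
    AE a fun l => AE b fun l' => ∀ ε : ℝ, 0 < ε → ∀ A : ℕ, ∀ᶠ N : ℕ in atTop,
      (Nat.card {n : ℕ | 1 ≤ n ∧ n ≤ N ∧ Even n ∧ ¬ |(Nat.card (RD l l' n) : ℝ) * (l.prod * l'.prod) *
        Real.log n ^ (a + b + 2) - sing n * n| ≤ ε * (sing n * n)} : ℝ) ≤ N / Real.log N ^ A := by
  refine AE_imp ?_ (fin hTR hMB hI1 hI2 hCT a b)
  intro l _ hl h1
  refine AE_imp ?_ h1
  intro l' _ hl' h2 ε hε A
  obtain ⟨c, hc⟩ := RD_RS hTR hMB l l' hl hl'
  have hlp : 0 < l.prod := List.prod_pos hl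
  have hlp' : 0 < l'.prod := List.prod_pos hl'
  obtain ⟨P, hP⟩ : ∃ P, P = l.prod * l'.prod := ⟨_, rfl⟩
  have hP0 : 0 < P := by
    rw [hP]
    positivity
  rw [← hP]
  rw [← hP] at h2
  obtain ⟨n0, hn0⟩ := (ev_logpow (c * P / (ε / 2)) (a + b + 2)).exists_forall_of_atTop
  filter_upwards [h2 (ε / 2) (by positivity) (A + 1), ev_logge 2, ev_logpow n0 (A + 1), eventually_ge_atTop 2] with N h3 h4 h5 h6
  obtain ⟨L, hL⟩ : ∃ L, L = Real.log (N : ℝ) := ⟨_, rfl⟩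
  rw [← hL] at h3 h4 h5
  rw [← hL]
  have hL0 : 0 < L := by linarith
  have hsub : {n : ℕ | 1 ≤ n ∧ n ≤ N ∧ Even n ∧ ¬ |(Nat.card (RD l l' n) : ℝ) * P *
        Real.log n ^ (a + b + 2) - sing n * n| ≤ ε * (sing n * n)} ⊆
      {n : ℕ | 1 ≤ n ∧ n ≤ N ∧ Even n ∧ ¬ |(Nat.card (RS l l' n) : ℝ) * P *
        Real.log n ^ (a + b + 2) - sing n * n| ≤ ε / 2 * (sing n * n)} ∪ ((Icc 1 n0 : Finset ℕ) : Set ℕ) := by
    rintro n ⟨b1, b2, b3, b4⟩
    by_cases hn : n ≤ n0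
    · right
      rw [Finset.mem_coe, Finset.mem_Icc]
      exact ⟨b1, hn⟩
    · left
      refine ⟨b1, b2, b3, fun h => b4 ?_⟩
      have g1 := hn0 n (by omega)
      obtain ⟨g2, g3⟩ := hc n
      have g2' : (Nat.card (RD l l' n) : ℝ) ≤ Nat.card (RS l l' n) := by exact_mod_cast g2
      have g3' : (Nat.card (RS l l' n) : ℝ) ≤ Nat.card (RD l l' n) + c := by exact_mod_cast g3
      have hs := Pool.Agent.W93.GB.one_le_sing n
      have hn1 : (1 : ℝ) ≤ n := by exact_mod_cast b1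
      have hSn : (n : ℝ) ≤ sing n * n := by nlinarith
      obtain ⟨ℓ, hℓ⟩ : ∃ ℓ, ℓ = P * Real.log (n : ℝ) ^ (a + b + 2) := ⟨_, rfl⟩
      have hlog : 0 ≤ Real.log (n : ℝ) := Real.log_natCast_nonneg n
      have hℓ0 : 0 ≤ ℓ := by
        rw [hℓ]
        positivity
      have g4 : c * ℓ ≤ ε / 2 * n := by
        rw [hℓ]
        calc (c : ℝ) * (P * Real.log (n : ℝ) ^ (a + b + 2)) = ε / 2 * (c * P / (ε / 2) * Real.log n ^ (a + b + 2)) := by
              field_simp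
          _ ≤ ε / 2 * n := by gcongr
      rw [mul_assoc, ← hℓ] at h ⊢
      have g5 := mul_le_mul_of_nonneg_right g2' hℓ0
      have g6 := mul_le_mul_of_nonneg_right g3' hℓ0
      have g7 : ε / 2 * (n : ℝ) ≤ ε / 2 * (sing n * n) := by gcongr
      rw [abs_le] at h ⊢
      constructor <;> linarith
  have hfin1 : {n : ℕ | 1 ≤ n ∧ n ≤ N ∧ Even n ∧ ¬ |(Nat.card (RS l l' n) : ℝ) * P *
        Real.log n ^ (a + b + 2) - sing n * n| ≤ ε / 2 * (sing n * n)}.Finite :=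
    (Finset.Icc 1 N).finite_toSet.subset fun n hn => by
      rw [Finset.mem_coe, Finset.mem_Icc]
      exact ⟨hn.1, hn.2.1⟩
  have hcard := (Set.ncard_le_ncard hsub (hfin1.union (Finset.finite_toSet _))).trans (Set.ncard_union_le _ _)
  rw [Set.ncard_coe_finset, Nat.card_Icc, Nat.add_sub_cancel] at hcard
  rw [Nat.card_coe_set_eq] at h3 ⊢
  have hcard' : (({n : ℕ | 1 ≤ n ∧ n ≤ N ∧ Even n ∧ ¬ |(Nat.card (RD l l' n) : ℝ) * P *
        Real.log n ^ (a + b + 2) - sing n * n| ≤ ε * (sing n * n)}.ncard : ℕ) : ℝ) ≤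
      ({n : ℕ | 1 ≤ n ∧ n ≤ N ∧ Even n ∧ ¬ |(Nat.card (RS l l' n) : ℝ) * P *
        Real.log n ^ (a + b + 2) - sing n * n| ≤ ε / 2 * (sing n * n)}.ncard : ℕ) + n0 := by exact_mod_cast hcard
  have h7 : (n0 : ℝ) ≤ N / L ^ (A + 1) := by
    rw [le_div_iff₀ (by positivity)]
    exact h5
  calc _ ≤ _ := hcard'
    _ ≤ N / L ^ (A + 1) + N / L ^ (A + 1) := add_le_add h3 h7
    _ = N / L ^ A * (2 / L) := by
        rw [pow_succ]
        field_simp
        ring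
    _ ≤ N / L ^ A * 1 := by
        gcongr
        rw [div_le_one hL0]
        exact h4
    _ = _ := mul_one _

end Pool.Agent.D0H91.GI
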