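import Mathlib
import Pool.Agent.D0H91.GI.Trans

/-! The transfer law for arbitrary fixed chains. -/

set_option autoImplicit false

namespace Pool.Agent.D0H91.GI

open Finset MeasureTheory Filter Topology
open Pool.Agent.D0H91.MG
open Pool.Agent.D0H91.UB (Ex)
open Pool.Agent.W301.SS (om)

theorem last2 {η X X' T T' n : ℝ} (hη : 0 < η) (hη1 : η ≤ 1 / 10) (hn : 0 ≤ n) (hX : 0 ≤ X)
    (h1 : |T' - X'| ≤ η * X' + η * n) (h2 : |T - X| ≤ η * X + η * n) (h3 : |T' - T| ≤ η * n) :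
    |X' - X| ≤ 4 * η * (X + n) := by
  rw [abs_le] at h1 h2 h3 ⊢
  obtain ⟨a1, a2⟩ := h1
  obtain ⟨b1, b2⟩ := h2
  obtain ⟨c1, c2⟩ := h3
  have e0 : η * n ≤ 1 / 10 * n := mul_le_mul_of_nonneg_right hη1 hn
  have e0' : η * X ≤ 1 / 10 * X := mul_le_mul_of_nonneg_right hη1 hX
  have e1 : X' * (1 - η) ≤ (1 + η) * X + 3 * (η * n) := by nlinarith
  have e2 : X' ≤ 2 * X + n := by
    by_contra hc
    push Not at hc
    have e3 : (2 * X + n) * (9 / 10) < X' * (1 - η) := by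
      have : (2 * X + n) * (9 / 10) ≤ (2 * X + n) * (1 - η) := by
        apply mul_le_mul_of_nonneg_left _ (by linarith)
        linarith
      have h5 : (2 * X + n) * (1 - η) < X' * (1 - η) := mul_lt_mul_of_pos_right hc (by linarith)
      linarith
    nlinarith
  have e4 : η * X' ≤ η * (2 * X + n) := mul_le_mul_of_nonneg_left e2 hη.le
  constructor <;> nlinarith

open Classical in
theorem law_S (hMB : S_MB) (hCT : S_CT) (l l' : List ℝ) (hl : Pos l) (hl' : Pos l') (α : ℝ) (hα : 0 < α)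
    (hst : ∀ A : ℕ, ∀ᶠ N : ℕ in atTop,
      (Ex (fun n => |∑ u ∈ Ico 1 n, (mu (α :: l) u - mu l u) * mu l' (n - u)|) A N : ℝ) ≤ N / Real.log N ^ A)
    (hTR : S_TR) (ε : ℝ) (hε : 0 < ε) (A : ℕ) : ∀ᶠ N : ℕ in atTop,
    (Nat.card {n : ℕ | 1 ≤ n ∧ n ≤ N ∧ ¬ |α * Real.log n * Nat.card (RD (α :: l) l' n) - Nat.card (RD l l' n)| ≤
      ε * (Nat.card (RD l l' n) + n / Real.log n ^ (l.length + l'.length + 2))} : ℝ) ≤ N / Real.log N ^ A := by
  have hl1 : Pos (α :: l) := by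
    intro β hβ
    rcases List.mem_cons.1 hβ with rfl | hβ
    · exact hα
    · exact hl β hβ
  have hlp : 0 < l.prod := List.prod_pos hl
  have hlp' : 0 < l'.prod := List.prod_pos hl'
  obtain ⟨P, hP⟩ : ∃ P, P = l.prod * l'.prod := ⟨_, rfl⟩
  have hP0 : 0 < P := by
    rw [hP]
    positivity
  obtain ⟨η, hη⟩ : ∃ η, η = min (1 / 10) (min (ε / 8) (ε * P / 8)) := ⟨_, rfl⟩
  have hη0 : 0 < η := by
    rw [hη]
    positivity
  have hη1 : η ≤ 1 / 10 := by
    rw [hη]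
    exact min_le_left _ _
  have hη2 : 4 * η ≤ ε / 2 := by
    have : η ≤ ε / 8 := by
      rw [hη]
      exact (min_le_right _ _).trans (min_le_left _ _)
    linarith
  have hη3 : 4 * η / P ≤ ε / 2 := by
    have : η ≤ ε * P / 8 := by
      rw [hη]
      exact (min_le_right _ _).trans (min_le_right _ _)
    rw [div_le_iff₀ hP0]
    linarith
  obtain ⟨k, hk⟩ : ∃ k, k = l.length + l'.length + 2 := ⟨_, rfl⟩
  rw [← hk]
  obtain ⟨c, hc⟩ := RD_RS hTR hMB l l' hl hl'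
  obtain ⟨c', hc'⟩ := RD_RS hTR hMB (α :: l) l' hl1 hl'
  obtain ⟨n1, hn1⟩ := (hCT (α :: l) l' hl1 hl' η hη0).exists_forall_of_atTop
  obtain ⟨n2, hn2⟩ := (hCT l l' hl hl' η hη0).exists_forall_of_atTop
  obtain ⟨n3, hn3⟩ := (ev_logpow ((α * c' + (1 + ε) * c) / (ε / 2)) (k + 1)).exists_forall_of_atTop
  obtain ⟨n4, hn4⟩ := (ev_logge 1).exists_forall_of_atTop
  filter_upwards [hst (A + 3), ev_logge 3, ev_logge (1 / η), ev_logpow (n1 + n2 + n3 + n4 : ℕ) (A + 1),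
    eventually_ge_atTop 2] with N g2 g4 g5 g6 g7
  obtain ⟨L, hL⟩ : ∃ L, L = Real.log (N : ℝ) := ⟨_, rfl⟩
  rw [← hL] at g2 g4 g5 g6
  rw [← hL]
  have hN2 : (2 : ℝ) ≤ N := by exact_mod_cast g7
  have hN0 : (0 : ℝ) < N := by linarith
  have hL0 : 0 < L := by linarith
  have hL1 : 1 ≤ L := by linarith
  obtain ⟨E2, hE2⟩ : ∃ E2, E2 = (Icc 1 N).filter fun n => (N : ℝ) / Real.log N ^ (A + 3) < |∑ u ∈ Ico 1 n, (mu (α :: l) u - mu l u) * mu l' (n - u)| := ⟨_, rfl⟩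
  obtain ⟨E4, hE4⟩ : ∃ E4, E4 = Icc 1 ⌊(N : ℝ) / L ^ (A + 1)⌋₊ := ⟨_, rfl⟩
  obtain ⟨E5, hE5⟩ : ∃ E5, E5 = Icc 1 (n1 + n2 + n3 + n4) := ⟨_, rfl⟩
  have c2 : (E2.card : ℝ) ≤ N / L ^ (A + 3) := by
    rw [hE2]
    unfold Ex at g2
    convert g2
  have c4 : (E4.card : ℝ) ≤ N / L ^ (A + 1) := by
    rw [hE4, Nat.card_Icc, Nat.add_sub_cancel]
    exact Nat.floor_le (by positivity)
  have c5 : (E5.card : ℝ) ≤ N / L ^ (A + 1) := by
    rw [hE5, Nat.card_Icc, Nat.add_sub_cancel, le_div_iff₀ (by positivity)]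
    exact g6
  have hsub : {n : ℕ | 1 ≤ n ∧ n ≤ N ∧ ¬ |α * Real.log n * Nat.card (RD (α :: l) l' n) - Nat.card (RD l l' n)| ≤
      ε * (Nat.card (RD l l' n) + n / Real.log n ^ k)} ⊆ ((E2 ∪ E4 ∪ E5 : Finset ℕ) : Set ℕ) := by
    rintro n ⟨w1, w2, hbad⟩
    rw [Finset.mem_coe]
    by_contra hcc
    simp only [Finset.mem_union, not_or] at hcc
    obtain ⟨⟨m2, m4⟩, m5⟩ := hcc
    apply hbad
    have hnN : n ∈ Icc 1 N := Finset.mem_Icc.2 ⟨w1, w2⟩
    have hn1r : (1 : ℝ) ≤ n := by exact_mod_cast w1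
    have k2 : |∑ u ∈ Ico 1 n, (mu (α :: l) u - mu l u) * mu l' (n - u)| ≤ (N : ℝ) / L ^ (A + 3) := by
      by_contra hq
      apply m2
      rw [hE2, Finset.mem_filter, ← hL]
      exact ⟨hnN, not_le.1 hq⟩
    have k4 : (N : ℝ) / L ^ (A + 1) < n := by
      rw [hE4, Finset.mem_Icc, not_and, not_le] at m4
      exact (Nat.floor_lt (by positivity)).1 (m4 w1)
    have k5 : n1 + n2 + n3 + n4 < n := by
      rw [hE5, Finset.mem_Icc, not_and, not_le] at m5
      exact m5 w1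
    have q1 := hn1 n (by omega)
    have q2 := hn2 n (by omega)
    have q3 : |TT (α :: l) l' n - TT l l' n| ≤ η * n := by
      have e0 : TT (α :: l) l' n - TT l l' n = ∑ u ∈ Ico 1 n, (mu (α :: l) u - mu l u) * mu l' (n - u) := by
        unfold TT
        rw [← Finset.sum_sub_distrib]
        refine Finset.sum_congr rfl fun u _ => ?_
        ring
      rw [e0]
      refine k2.trans ?_
      have e1 : (N : ℝ) / L ^ (A + 3) ≤ η * (N / L ^ (A + 1)) := by
        calc (N : ℝ) / L ^ (A + 3) = η * (N / L ^ (A + 1)) * ((1 / η) / L) * (1 / L) := by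
              rw [show A + 3 = A + 1 + 1 + 1 by ring, pow_succ _ (A + 1 + 1), pow_succ _ (A + 1)]
              field_simp
          _ ≤ η * (N / L ^ (A + 1)) * 1 * 1 := by
              gcongr
              · rw [div_le_one hL0]
                exact g5
              · rw [div_le_one hL0]
                exact hL1
          _ = _ := by ring
      have e2 : η * ((N : ℝ) / L ^ (A + 1)) ≤ η * n := by gcongr
      linarith
    obtain ⟨ℓ, hℓ⟩ : ∃ ℓ, ℓ = Real.log (n : ℝ) := ⟨_, rfl⟩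
    have hℓ1 : 1 ≤ ℓ := by
      rw [hℓ]
      exact hn4 n (by omega)
    have hℓ0 : 0 < ℓ := by linarith
    have hlen : (α :: l).length + l'.length + 2 = k + 1 := by
      rw [hk, List.length_cons]
      ring
    rw [hlen, List.prod_cons, ← hℓ] at q1
    rw [← hk, ← hP, ← hℓ] at q2
    have hαP : α * l.prod * l'.prod = α * P := by
      rw [hP]
      ring
    rw [hαP] at q1
    have hfin := last2 hη0 hη1 (show (0 : ℝ) ≤ n by linarith) (show 0 ≤ P * ℓ ^ k * rr l l' n by positivity) q1 q2 q3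
    have hQ : 0 < P * ℓ ^ k := by positivity
    have h6 : |α * ℓ * rr (α :: l) l' n - rr l l' n| ≤ 4 * η * (rr l l' n + n / (P * ℓ ^ k)) := by
      have e1 : α * P * ℓ ^ (k + 1) * rr (α :: l) l' n - P * ℓ ^ k * rr l l' n =
          P * ℓ ^ k * (α * ℓ * rr (α :: l) l' n - rr l l' n) := by
        rw [pow_succ]
        ring
      rw [e1, abs_mul, abs_of_pos hQ] at hfin
      have e2 : 4 * η * (P * ℓ ^ k * rr l l' n + n) = P * ℓ ^ k * (4 * η * (rr l l' n + n / (P * ℓ ^ k))) := by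
        field_simp
      rw [e2] at hfin
      exact le_of_mul_le_mul_left hfin hQ
    rw [← hℓ]
    obtain ⟨i1, i2⟩ := hc n
    obtain ⟨j1, j2⟩ := hc' n
    rw [RS_card hTR l l' hl hl'] at i1 i2
    rw [RS_card hTR (α :: l) l' hl1 hl'] at j1 j2
    have i1' : (Nat.card (RD l l' n) : ℝ) ≤ rr l l' n := by exact_mod_cast i1
    have i2' : (rr l l' n : ℝ) ≤ Nat.card (RD l l' n) + c := by exact_mod_cast i2
    have j1' : (Nat.card (RD (α :: l) l' n) : ℝ) ≤ rr (α :: l) l' n := by exact_mod_cast j1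
    have j2' : (rr (α :: l) l' n : ℝ) ≤ Nat.card (RD (α :: l) l' n) + c' := by exact_mod_cast j2
    obtain ⟨r, hr⟩ : ∃ r : ℝ, r = Nat.card (RD l l' n) := ⟨_, rfl⟩
    obtain ⟨r', hr'⟩ : ∃ r' : ℝ, r' = Nat.card (RD (α :: l) l' n) := ⟨_, rfl⟩
    obtain ⟨s, hs⟩ : ∃ s : ℝ, s = rr l l' n := ⟨_, rfl⟩
    obtain ⟨s', hs'⟩ : ∃ s' : ℝ, s' = rr (α :: l) l' n := ⟨_, rfl⟩
    rw [← hr, ← hs] at i1' i2'
    rw [← hr', ← hs'] at j1' j2'
    rw [← hs, ← hs'] at h6
    rw [← hr, ← hr']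
    have hr0 : 0 ≤ r := by
      rw [hr]
      positivity
    have h7 : 4 * η * (n / (P * ℓ ^ k)) ≤ ε / 2 * (n / ℓ ^ k) := by
      have e1 : 4 * η * ((n : ℝ) / (P * ℓ ^ k)) = 4 * η / P * (n / ℓ ^ k) := by
        field_simp
      rw [e1]
      gcongr
    have h8 : α * ℓ * c' + (1 + ε) * c ≤ ε / 2 * (n / ℓ ^ k) := by
      have g1 := hn3 n (by omega)
      rw [← hℓ] at g1
      have e1 : α * ℓ * c' + (1 + ε) * c ≤ (α * c' + (1 + ε) * c) * ℓ := by
        have : (1 + ε) * (c : ℝ) * 1 ≤ (1 + ε) * c * ℓ := by gcongr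
        nlinarith
      refine e1.trans ?_
      rw [← mul_div_assoc, le_div_iff₀ (by positivity)]
      calc (α * c' + (1 + ε) * c) * ℓ * ℓ ^ k = ε / 2 * ((α * c' + (1 + ε) * c) / (ε / 2) * ℓ ^ (k + 1)) := by
            rw [pow_succ]
            field_simp
        _ ≤ ε / 2 * n := by gcongr
    have h9 : 4 * η * s ≤ ε / 2 * (r + c) := by
      calc 4 * η * s ≤ 4 * η * (r + c) := by gcongr
        _ ≤ ε / 2 * (r + c) := by gcongr
    have hαℓ : 0 < α * ℓ := by positivity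
    have h10 := mul_le_mul_of_nonneg_left j1' hαℓ.le
    have h11 := mul_le_mul_of_nonneg_left j2' hαℓ.le
    have h12 : 0 ≤ ε * (c : ℝ) := by positivity
    have h13 : 0 ≤ ε * r := by positivity
    have hc0 : (0 : ℝ) ≤ c := Nat.cast_nonneg c
    have hc0' : (0 : ℝ) ≤ α * ℓ * c' := by positivity
    rw [abs_le] at h6 ⊢
    obtain ⟨u1, u2⟩ := h6
    rw [mul_add] at u1 u2 h9 h11
    constructor <;> nlinarith
  have hcard := Set.ncard_le_ncard hsub (Finset.finite_toSet _)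
  rw [Set.ncard_coe_finset] at hcard
  have hcard2 := hcard.trans ((Finset.card_union_le (E2 ∪ E4) E5).trans (Nat.add_le_add_right (Finset.card_union_le E2 E4) _))
  rw [Nat.card_coe_set_eq]
  have e3 : (N : ℝ) / L ^ (A + 3) ≤ N / L ^ (A + 1) := by
    apply div_le_div_of_nonneg_left hN0.le (by positivity)
    exact pow_le_pow_right₀ hL1 (by omega)
  calc _ ≤ ((E2.card + E4.card + E5.card : ℕ) : ℝ) := by exact_mod_cast hcard2
    _ = E2.card + E4.card + E5.card := by push_cast; ring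
    _ ≤ 3 * (N / L ^ (A + 1)) := by linarith
    _ = N / L ^ A * (3 / L) := by
        rw [pow_succ]
        field_simp
    _ ≤ N / L ^ A * 1 := by
        gcongr
        rw [div_le_one hL0]
        exact g4
    _ = _ := mul_one _

/-- arbitrary fixed chains, one more generic factor -/
theorem law (hTR : S_TR) (hMB : S_MB) (hI1 : S_I1) (hI2 : S_I2) (hCT : S_CT) (l l' : List ℝ) (hl : Pos l) (hl' : Pos l') :
    ∀ᵐ α : ℝ, 0 < α → ∀ ε : ℝ, 0 < ε → ∀ A : ℕ, ∀ᶠ N : ℕ in atTop,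
      (Nat.card {n : ℕ | 1 ≤ n ∧ n ≤ N ∧ ¬ |α * Real.log n * Nat.card (RD (α :: l) l' n) - Nat.card (RD l l' n)| ≤
        ε * (Nat.card (RD l l' n) + n / Real.log n ^ (l.length + l'.length + 2))} : ℝ) ≤ N / Real.log N ^ A := by
  obtain ⟨C1, E1, -, -, -, h2⟩ := hMB l' hl'
  filter_upwards [t_STEP hTR hMB hI1 hI2 l hl (mu l') C1 E1 h2] with α h1 h0 ε hε A
  exact law_S hMB hCT l l' hl hl' α h0 (h1 h0) hTR ε hε A

end Pool.Agent.D0H91.GI
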