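import Mathlib
import Pool.Agent.D0H91.GI.Trans
import Pool.Agent.D0H91.MG.Fub

/-! Almost every vector instead of iterated almost every. -/

set_option autoImplicit false

namespace Pool.Agent.D0H91.GI

open Finset MeasureTheory Filter Topology
open Pool.Agent.D0H91.MG
open Pool.Agent.H560R3.GB (sing)

theorem pos_ofFn {k : ℕ} (v : Fin k → ℝ) (hv : ∀ i, 0 < v i) : Pos (List.ofFn v) := by
  intro α hα
  rw [List.mem_ofFn] at hα
  obtain ⟨i, rfl⟩ := hα
  exact hv i

theorem sec_meas {X : Type} [MeasurableSpace X] {T : Set (X × ℝ)} (hT : MeasurableSet T) :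
    MeasurableSet {x : X | ∀ᵐ t : ℝ, (x, t) ∈ T} := by
  have h := measurable_measure_prodMk_left (ν := (volume : Measure ℝ)) hT.compl
  have e : {x : X | ∀ᵐ t : ℝ, (x, t) ∈ T} = (fun x => (volume : Measure ℝ) (Prod.mk x ⁻¹' Tᶜ)) ⁻¹' {0} := by
    ext x
    simp only [Set.mem_setOf_eq, Set.mem_preimage, Set.mem_singleton_iff, ae_iff]
    rfl
  rw [e]
  exact h (measurableSet_singleton 0)

theorem AE_vec : ∀ (k : ℕ) (P : List ℝ → Prop), MeasurableSet {v : Fin k → ℝ | (∀ i, 0 < v i) → P (List.ofFn v)} →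
    AE k P → ∀ᵐ v : Fin k → ℝ, (∀ i, 0 < v i) → P (List.ofFn v) := by
  intro k
  induction k with
  | zero =>
    intro P _ h
    refine Filter.Eventually.of_forall fun v _ => ?_
    rw [List.ofFn_zero]
    exact h
  | succ k ih =>
    intro P hm h
    have hT : MeasurableSet {p : (Fin k → ℝ) × ℝ | (∀ i, 0 < (Fin.cons p.2 p.1 : Fin (k + 1) → ℝ) i) →
        P (List.ofFn (Fin.cons p.2 p.1 : Fin (k + 1) → ℝ))} := (cons_meas k) hm
    have key : ∀ v : Fin k → ℝ, ((∀ i, 0 < v i) → ∀ᵐ α : ℝ, 0 < α → P (α :: List.ofFn v)) ↔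
        ∀ᵐ t : ℝ, ((∀ i, 0 < (Fin.cons t v : Fin (k + 1) → ℝ) i) → P (List.ofFn (Fin.cons t v : Fin (k + 1) → ℝ))) := by
      intro v
      rw [← Filter.eventually_imp_distrib_left]
      refine Filter.eventually_congr (Filter.Eventually.of_forall fun t => ?_)
      have e1 : List.ofFn (Fin.cons t v : Fin (k + 1) → ℝ) = t :: List.ofFn v := by
        rw [List.ofFn_succ]
        simp
      rw [e1]
      constructor
      · intro h1 h2
        exact h1 (fun i => by simpa using h2 i.succ) (by simpa using h2 0)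
      · intro h1 h2 h3
        apply h1
        intro i
        refine Fin.cases ?_ (fun j => ?_) i
        · simpa using h3
        · simpa using h2 j
    have hQm : MeasurableSet {v : Fin k → ℝ | (∀ i, 0 < v i) → ∀ᵐ α : ℝ, 0 < α → P (α :: List.ofFn v)} := by
      have e : {v : Fin k → ℝ | (∀ i, 0 < v i) → ∀ᵐ α : ℝ, 0 < α → P (α :: List.ofFn v)} =
          {v : Fin k → ℝ | ∀ᵐ t : ℝ, (v, t) ∈ {p : (Fin k → ℝ) × ℝ | (∀ i, 0 < (Fin.cons p.2 p.1 : Fin (k + 1) → ℝ) i) →
            P (List.ofFn (Fin.cons p.2 p.1 : Fin (k + 1) → ℝ))}} := by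
        ext v
        exact key v
      rw [e]
      exact sec_meas hT
    have h2 := ih (fun l => ∀ᵐ α : ℝ, 0 < α → P (α :: l)) hQm h
    refine fubini_ae hm ?_
    filter_upwards [h2] with v hv
    exact (key v).1 hv

theorem ch_meas (k : ℕ) : ∀ q : ℕ, Measurable fun v : Fin k → ℝ => ch (List.ofFn v) q := by
  induction k with
  | zero =>
    intro q
    simp only [List.ofFn_zero]
    exact measurable_const
  | succ k ih =>
    intro q
    have h1 : Measurable fun p : ℕ × (Fin k → ℝ) => ch (List.ofFn p.2) p.1 :=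
      measurable_from_prod_countable_right fun m => ih m
    have h2 : Measurable fun v : Fin (k + 1) → ℝ => (pr ⌊v 0 * q⌋₊, fun j : Fin k => v j.succ) := by
      apply Measurable.prodMk
      · exact (measurable_from_nat (f := pr)).comp (Nat.measurable_floor.comp ((measurable_pi_apply 0).mul_const _))
      · rw [measurable_pi_iff]
        intro j
        exact measurable_pi_apply j.succ
    have e : (fun v : Fin (k + 1) → ℝ => ch (List.ofFn v) q) =
        (fun p : ℕ × (Fin k → ℝ) => ch (List.ofFn p.2) p.1) ∘ fun v : Fin (k + 1) → ℝ => (pr ⌊v 0 * q⌋₊, fun j : Fin k => v j.succ) := by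
      funext v
      simp only [Function.comp, List.ofFn_succ, ch]
    rw [e]
    exact h1.comp h2

/-- cardinality of a random subset of a countable set -/
theorem card_meas {X Y : Type} [MeasurableSpace X] [Countable Y] (S : X → Set Y) (h : ∀ y, MeasurableSet {x | y ∈ S x}) :
    Measurable fun x => Nat.card (S x) := by
  classical
  have hE : ∀ F : Finset Y, MeasurableSet {x | S x = (F : Set Y)} := by
    intro F
    have e : {x | S x = (F : Set Y)} = ⋂ y : Y, {x | y ∈ S x ↔ y ∈ F} := by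
      ext x
      simp only [Set.mem_setOf_eq, Set.mem_iInter]
      constructor
      · intro h1 y
        rw [h1]
        rfl
      · intro h1
        ext y
        exact h1 y
    rw [e]
    refine MeasurableSet.iInter fun y => ?_
    by_cases hy : y ∈ F
    · have : {x | y ∈ S x ↔ y ∈ F} = {x | y ∈ S x} := by
        ext x
        simp [hy]
      rw [this]
      exact h y
    · have : {x | y ∈ S x ↔ y ∈ F} = {x | y ∈ S x}ᶜ := by
        ext x
        simp [hy]
      rw [this]
      exact (h y).compl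
  have hK : ∀ j : ℕ, 0 < j → MeasurableSet {x | Nat.card (S x) = j} := by
    intro j hj
    have e : {x | Nat.card (S x) = j} = ⋃ F : Finset Y, ⋃ _ : F.card = j, {x | S x = (F : Set Y)} := by
      ext x
      simp only [Set.mem_setOf_eq, Set.mem_iUnion]
      constructor
      · intro h1
        have hfin : (S x).Finite := by
          by_contra hc
          have : Nat.card (S x) = 0 := by
            rw [Nat.card_coe_set_eq]
            exact Set.Infinite.ncard hc
          omega
        refine ⟨hfin.toFinset, ?_, hfin.coe_toFinset.symm⟩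
        rw [← h1, Nat.card_coe_set_eq, Set.ncard_eq_toFinset_card _ hfin]
      · rintro ⟨F, hF, h1⟩
        rw [h1, Nat.card_coe_set_eq, Set.ncard_coe_finset, hF]
    rw [e]
    exact MeasurableSet.iUnion fun F => MeasurableSet.iUnion fun _ => hE F
  apply measurable_to_countable'
  intro j
  rcases Nat.eq_zero_or_pos j with rfl | hj
  · have e : (fun x => Nat.card (S x)) ⁻¹' {0} = (⋃ j : ℕ, ⋃ _ : 0 < j, {x | Nat.card (S x) = j})ᶜ := by
      ext x
      simp only [Set.mem_preimage, Set.mem_singleton_iff, Set.mem_compl_iff, Set.mem_iUnion, Set.mem_setOf_eq, not_exists]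
      constructor
      · intro h1 i hi h2
        omega
      · intro h1
        by_contra hc
        exact h1 _ (Nat.pos_of_ne_zero hc) rfl
    rw [e]
    exact (MeasurableSet.iUnion fun j => MeasurableSet.iUnion fun hj => hK j hj).compl
  · exact hK j hj

theorem RD_meas (a b n : ℕ) : Measurable fun p : (Fin a → ℝ) × (Fin b → ℝ) => Nat.card (RD (List.ofFn p.1) (List.ofFn p.2) n) := by
  apply card_meas (fun p : (Fin a → ℝ) × (Fin b → ℝ) => RD (List.ofFn p.1) (List.ofFn p.2) n)
  rintro ⟨q, q'⟩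
  have h1 : Measurable fun p : (Fin a → ℝ) × (Fin b → ℝ) => (ch (List.ofFn p.1) q, ch (List.ofFn p.2) q') :=
    ((ch_meas a q).comp measurable_fst).prodMk ((ch_meas b q').comp measurable_snd)
  have e : {p : (Fin a → ℝ) × (Fin b → ℝ) | (q, q') ∈ RD (List.ofFn p.1) (List.ofFn p.2) n} =
      (fun p : (Fin a → ℝ) × (Fin b → ℝ) => (ch (List.ofFn p.1) q, ch (List.ofFn p.2) q')) ⁻¹'
        {z : ℕ × ℕ | q.Prime ∧ q'.Prime ∧ 0 < z.1 ∧ 0 < z.2 ∧ z.1 ≠ z.2 ∧ z.1 + z.2 = n} := by
    ext p
    rfl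
  rw [e]
  exact h1 (MeasurableSet.of_discrete)

/-- the exceptional set -/
def XS (l l' : List ℝ) (k : ℕ) (ε : ℝ) (N : ℕ) : Set ℕ :=
  {n : ℕ | 1 ≤ n ∧ n ≤ N ∧ Even n ∧ ¬ |(Nat.card (RD l l' n) : ℝ) * (l.prod * l'.prod) *
        Real.log n ^ k - sing n * n| ≤ ε * (sing n * n)}

theorem XS_meas (a b k N : ℕ) (ε : ℝ) :
    Measurable fun p : (Fin a → ℝ) × (Fin b → ℝ) => Nat.card (XS (List.ofFn p.1) (List.ofFn p.2) k ε N) := by
  apply card_meas (fun p : (Fin a → ℝ) × (Fin b → ℝ) => XS (List.ofFn p.1) (List.ofFn p.2) k ε N)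
  intro n
  have hpr : ∀ c : ℕ, Measurable fun v : Fin c → ℝ => (List.ofFn v).prod := by
    intro c
    simp only [List.prod_ofFn]
    exact Finset.measurable_fun_prod _ fun i _ => measurable_pi_apply i
  have h1 : Measurable fun p : (Fin a → ℝ) × (Fin b → ℝ) => |(Nat.card (RD (List.ofFn p.1) (List.ofFn p.2) n) : ℝ) *
      ((List.ofFn p.1).prod * (List.ofFn p.2).prod) * Real.log n ^ k - sing n * n| := by
    apply Measurable.abs
    apply Measurable.sub_const
    apply Measurable.mul_const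
    apply Measurable.mul
    · exact (measurable_from_nat (f := fun m : ℕ => (m : ℝ))).comp (RD_meas a b n)
    · exact ((hpr a).comp measurable_fst).mul ((hpr b).comp measurable_snd)
  have h2 : MeasurableSet {p : (Fin a → ℝ) × (Fin b → ℝ) | |(Nat.card (RD (List.ofFn p.1) (List.ofFn p.2) n) : ℝ) *
      ((List.ofFn p.1).prod * (List.ofFn p.2).prod) * Real.log n ^ k - sing n * n| ≤ ε * (sing n * n)} :=
    measurableSet_le h1 measurable_const
  by_cases hn : 1 ≤ n ∧ n ≤ N ∧ Even n
  · have e : {p : (Fin a → ℝ) × (Fin b → ℝ) | n ∈ XS (List.ofFn p.1) (List.ofFn p.2) k ε N} =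
        {p : (Fin a → ℝ) × (Fin b → ℝ) | |(Nat.card (RD (List.ofFn p.1) (List.ofFn p.2) n) : ℝ) *
      ((List.ofFn p.1).prod * (List.ofFn p.2).prod) * Real.log n ^ k - sing n * n| ≤ ε * (sing n * n)}ᶜ := by
      ext p
      simp only [XS, Set.mem_setOf_eq, Set.mem_compl_iff]
      tauto
    rw [e]
    exact h2.compl
  · have e : {p : (Fin a → ℝ) × (Fin b → ℝ) | n ∈ XS (List.ofFn p.1) (List.ofFn p.2) k ε N} = ∅ := by
      ext p
      simp only [XS, Set.mem_setOf_eq, Set.mem_empty_iff_false, iff_false]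
      tauto
    rw [e]
    exact MeasurableSet.empty

theorem XS_anti (l l' : List ℝ) (k N : ℕ) {ε δ : ℝ} (h : ε ≤ δ) : Nat.card (XS l l' k δ N) ≤ Nat.card (XS l l' k ε N) := by
  rw [Nat.card_coe_set_eq, Nat.card_coe_set_eq]
  apply Set.ncard_le_ncard
  · rintro n ⟨h1, h2, h3, h4⟩
    refine ⟨h1, h2, h3, fun h5 => h4 (h5.trans ?_)⟩
    apply mul_le_mul_of_nonneg_right h
    have := Pool.Agent.W93.GB.one_le_sing n
    positivity
  · exact (Finset.Icc 1 N).finite_toSet.subset fun n hn => by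
      rw [Finset.mem_coe, Finset.mem_Icc]
      exact ⟨hn.1, hn.2.1⟩

/-- the property -/
def GP (k : ℕ) (l l' : List ℝ) : Prop := ∀ ε : ℝ, 0 < ε → ∀ A : ℕ, ∀ᶠ N : ℕ in atTop,
  (Nat.card (XS l l' k ε N) : ℝ) ≤ N / Real.log N ^ A

theorem GP_meas (a b k : ℕ) : MeasurableSet {p : (Fin a → ℝ) × (Fin b → ℝ) | GP k (List.ofFn p.1) (List.ofFn p.2)} := by
  have e : {p : (Fin a → ℝ) × (Fin b → ℝ) | GP k (List.ofFn p.1) (List.ofFn p.2)} =
      ⋂ j : ℕ, ⋂ A : ℕ, ⋃ N0 : ℕ, ⋂ N : ℕ, ⋂ _ : N0 ≤ N, {p : (Fin a → ℝ) × (Fin b → ℝ) |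
        (Nat.card (XS (List.ofFn p.1) (List.ofFn p.2) k (1 / ((j : ℝ) + 1)) N) : ℝ) ≤ N / Real.log N ^ A} := by
    ext p
    simp only [Set.mem_iInter, Set.mem_iUnion, Set.mem_setOf_eq]
    constructor
    · intro h j A
      exact (h (1 / ((j : ℝ) + 1)) (by positivity) A).exists_forall_of_atTop
    · intro h ε hε A
      obtain ⟨j, hj⟩ := exists_nat_one_div_lt hε
      obtain ⟨N0, h0⟩ := h j A
      filter_upwards [eventually_ge_atTop N0] with N hN
      refine le_trans ?_ (h0 N hN)
      exact_mod_cast XS_anti _ _ k N hj.le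
  rw [e]
  refine MeasurableSet.iInter fun j => MeasurableSet.iInter fun A => MeasurableSet.iUnion fun N0 =>
    MeasurableSet.iInter fun N => MeasurableSet.iInter fun _ => ?_
  exact measurableSet_le ((measurable_from_nat (f := fun m : ℕ => (m : ℝ))).comp (XS_meas a b k N _)) measurable_const

end Pool.Agent.D0H91.GI
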