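import Mathlib
import Pool.Agent.D0H91.GI.Prodm
import Pool.Agent.D0H91.GI.Law
import Pool.Agent.D0H30.GI.Ch
import Pool.Agent.D0H42.GI.Ct
import Pool.Agent.D0H65.GI.I2
import Pool.Agent.D0H65.GI.As

/-! The two theorems. -/

set_option autoImplicit false

namespace Pool.Agent.D0H91.GI

open Finset MeasureTheory Filter Topology
open Pool.Agent.D0H91.MG
open Pool.Agent.H560R3.GB (sing)

theorem cTR : S_TR := Pool.Agent.D0H30.GI.t_TR

theorem cMB : S_MB := Pool.Agent.D0H30.GI.t_MB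

theorem cI1 : S_I1 := Pool.Agent.D0H30.GI.t_I1

theorem cI2 : S_I2 := Pool.Agent.D0H65.GI.t_I2 cTR

theorem cCT : S_CT := Pool.Agent.D0H42.GI.t_CT cTR cMB Pool.Agent.D0H65.GI.t_AS

theorem sec_meas' {X Y : Type} [MeasurableSpace X] [MeasurableSpace Y] (ν : Measure Y) [SFinite ν] {T : Set (X × Y)}
    (hT : MeasurableSet T) : MeasurableSet {x : X | ∀ᵐ t ∂ν, (x, t) ∈ T} := by
  have h := measurable_measure_prodMk_left (ν := ν) hT.compl
  have e : {x : X | ∀ᵐ t ∂ν, (x, t) ∈ T} = (fun x => ν (Prod.mk x ⁻¹' Tᶜ)) ⁻¹' {0} := by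
    ext x
    simp only [Set.mem_setOf_eq, Set.mem_preimage, Set.mem_singleton_iff, ae_iff]
    rfl
  rw [e]
  exact h (measurableSet_singleton 0)

theorem posset_meas (a b : ℕ) : MeasurableSet {p : (Fin a → ℝ) × (Fin b → ℝ) | (∀ i, 0 < p.1 i) ∧ ∀ j, 0 < p.2 j} := by
  have e : {p : (Fin a → ℝ) × (Fin b → ℝ) | (∀ i, 0 < p.1 i) ∧ ∀ j, 0 < p.2 j} =
      (⋂ i : Fin a, {p : (Fin a → ℝ) × (Fin b → ℝ) | 0 < p.1 i}) ∩ ⋂ j : Fin b, {p : (Fin a → ℝ) × (Fin b → ℝ) | 0 < p.2 j} := by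
    ext p
    simp only [Set.mem_setOf_eq, Set.mem_inter_iff, Set.mem_iInter]
  rw [e]
  apply MeasurableSet.inter
  · refine MeasurableSet.iInter fun i => ?_
    exact measurableSet_lt measurable_const ((measurable_pi_apply i).comp measurable_fst)
  · refine MeasurableSet.iInter fun j => ?_
    exact measurableSet_lt measurable_const ((measurable_pi_apply j).comp measurable_snd)

theorem full_meas (a b k : ℕ) : MeasurableSet {p : (Fin a → ℝ) × (Fin b → ℝ) |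
    (∀ i, 0 < p.1 i) → (∀ j, 0 < p.2 j) → GP k (List.ofFn p.1) (List.ofFn p.2)} := by
  have e : {p : (Fin a → ℝ) × (Fin b → ℝ) | (∀ i, 0 < p.1 i) → (∀ j, 0 < p.2 j) → GP k (List.ofFn p.1) (List.ofFn p.2)} =
      {p : (Fin a → ℝ) × (Fin b → ℝ) | (∀ i, 0 < p.1 i) ∧ ∀ j, 0 < p.2 j}ᶜ ∪
        {p : (Fin a → ℝ) × (Fin b → ℝ) | GP k (List.ofFn p.1) (List.ofFn p.2)} := by
    ext p
    simp only [Set.mem_setOf_eq, Set.mem_union, Set.mem_compl_iff]
    tauto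
  rw [e]
  exact (posset_meas a b).compl.union (GP_meas a b k)

theorem vec (a b : ℕ) : ∀ᵐ p : (Fin a → ℝ) × (Fin b → ℝ), (∀ i, 0 < p.1 i) → (∀ j, 0 < p.2 j) →
    GP (a + b + 2) (List.ofFn p.1) (List.ofFn p.2) := by
  have h0 : AE a fun l => AE b fun l' => GP (a + b + 2) l l' := fin_d cTR cMB cI1 cI2 cCT a b
  have h1 : AE a fun l => ∀ᵐ w : Fin b → ℝ, (∀ j, 0 < w j) → GP (a + b + 2) l (List.ofFn w) := by
    refine AE_imp ?_ h0
    intro l hla hl h2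
    obtain ⟨v, rfl⟩ : ∃ v : Fin a → ℝ, List.ofFn v = l := by
      subst hla
      exact ⟨l.get, List.ofFn_get l⟩
    refine AE_vec b _ ?_ h2
    have hm := full_meas a b (a + b + 2)
    have hv : ∀ i, 0 < v i := fun i => hl (v i) (List.mem_ofFn.2 ⟨i, rfl⟩)
    have hs : Measurable fun w : Fin b → ℝ => (v, w) := measurable_const.prodMk measurable_id
    have h3 := hs hm
    have e : (fun w : Fin b → ℝ => (v, w)) ⁻¹' {p : (Fin a → ℝ) × (Fin b → ℝ) |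
        (∀ i, 0 < p.1 i) → (∀ j, 0 < p.2 j) → GP (a + b + 2) (List.ofFn p.1) (List.ofFn p.2)} =
        {w : Fin b → ℝ | (∀ i, 0 < w i) → GP (a + b + 2) (List.ofFn v) (List.ofFn w)} := by
      ext w
      simp only [Set.mem_preimage, Set.mem_setOf_eq]
      exact ⟨fun h => h hv, fun h _ => h⟩
    rwa [e] at h3
  have key : ∀ v : Fin a → ℝ, ((∀ i, 0 < v i) → ∀ᵐ w : Fin b → ℝ, (∀ j, 0 < w j) → GP (a + b + 2) (List.ofFn v) (List.ofFn w)) ↔
      ∀ᵐ w : Fin b → ℝ, (v, w) ∈ {p : (Fin a → ℝ) × (Fin b → ℝ) |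
        (∀ i, 0 < p.1 i) → (∀ j, 0 < p.2 j) → GP (a + b + 2) (List.ofFn p.1) (List.ofFn p.2)} := by
    intro v
    rw [← Filter.eventually_imp_distrib_left]
    rfl
  have h2 := AE_vec a (fun l => ∀ᵐ w : Fin b → ℝ, (∀ j, 0 < w j) → GP (a + b + 2) l (List.ofFn w)) (by
    have e : {v : Fin a → ℝ | (∀ i, 0 < v i) → ∀ᵐ w : Fin b → ℝ, (∀ j, 0 < w j) → GP (a + b + 2) (List.ofFn v) (List.ofFn w)} =
        {v : Fin a → ℝ | ∀ᵐ w : Fin b → ℝ, (v, w) ∈ {p : (Fin a → ℝ) × (Fin b → ℝ) |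
        (∀ i, 0 < p.1 i) → (∀ j, 0 < p.2 j) → GP (a + b + 2) (List.ofFn p.1) (List.ofFn p.2)}} := by
      ext v
      exact key v
    rw [e]
    exact sec_meas' volume (full_meas a b (a + b + 2))) h1
  have h3 : (volume : Measure ((Fin a → ℝ) × (Fin b → ℝ))) {p : (Fin a → ℝ) × (Fin b → ℝ) |
      (∀ i, 0 < p.1 i) → (∀ j, 0 < p.2 j) → GP (a + b + 2) (List.ofFn p.1) (List.ofFn p.2)}ᶜ = 0 := by
    rw [Measure.volume_eq_prod, Measure.measure_prod_null (full_meas a b (a + b + 2)).compl]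
    filter_upwards [h2] with v hv
    exact (key v).1 hv
  rw [ae_iff]
  exact h3

end Pool.Agent.D0H91.GI
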