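import Mathlib
import Pool.Agent.D0H91.GI.Vec

/-! Along arbitrary increasing sequences. -/

set_option autoImplicit false

namespace Pool.Agent.D0H91.GI

open Finset MeasureTheory Filter Topology
open scoped ENNReal
open Pool.Agent.D0H91.MG
open Pool.Agent.D0H91.UB (Ex bc)
open Pool.Agent.W301.SS (om)

theorem one_l2 (l : List ℝ) (hl : Pos l) (M : ℕ → ℝ) (C E : ℕ)
    (hM : ∀ v, 0 < v → |M v| ≤ C * Real.log (v + 3) ^ E) (w0 : ℝ) (A : ℕ) : ∀ᶠ n : ℕ in atTop,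
    ∫⁻ w in Set.Icc w0 (w0 + 1), ‖FF l M (⌈1 / Real.exp w0⌉₊ * (KK l + 1)) n w‖ₑ ^ 2 ≤
      ENNReal.ofReal (n ^ 2 / Real.log n ^ A) := by
  have hTR := cTR
  have hMB := cMB
  have hI1 := cI1
  have hI2 := cI2
  obtain ⟨F, hF⟩ := be_le hTR hMB l hl M C E hM
  obtain ⟨K, hK⟩ : ∃ K, K = ⌈1 / Real.exp w0⌉₊ * (KK l + 1) := ⟨_, rfl⟩
  rw [← hK]
  have hK1 : 1 ≤ K := by
    rw [hK]
    have : 0 < ⌈1 / Real.exp w0⌉₊ := Nat.ceil_pos.2 (by positivity)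
    exact Nat.mul_pos this (by omega)
  have ht : Tendsto (fun N : ℕ => K * (N + 1)) atTop atTop :=
    (tendsto_add_atTop_nat 1).const_mul_atTop' (by omega)
  filter_upwards [hF, ht.eventually (t_L2 w0 (A + 2 * F + 1)), ev_logge 1,
    ev_logge (4 * Real.exp (w0 + 1) ^ 2 * K ^ 2), eventually_ge_atTop 2] with n h1 h2 h3 h4 h5
  obtain ⟨L, hL⟩ : ∃ L, L = Real.log (n : ℝ) := ⟨_, rfl⟩
  rw [← hL] at h1 h3 h4
  rw [← hL]
  have hN2 : (2 : ℝ) ≤ n := by exact_mod_cast h5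
  have hN0 : (0 : ℝ) < n := by linarith
  have hL0 : 0 < L := by linarith
  have hK1r : (1 : ℝ) ≤ K := by exact_mod_cast hK1
  obtain ⟨Y, hY⟩ : ∃ Y, Y = K * (n + 1) := ⟨_, rfl⟩
  rw [← hY] at h2
  have hYr : (Y : ℝ) = K * (n + 1) := by
    rw [hY]
    push_cast
    ring
  have hYN : (n : ℝ) ≤ Y := by
    rw [hYr]
    nlinarith
  have hLY : L ≤ Real.log Y := by
    rw [hL]
    exact Real.log_le_log hN0 hYN
  have hkey : ∫⁻ w in Set.Icc w0 (w0 + 1), ‖FF l M K n w‖ₑ ^ 2 ≤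
      ENNReal.ofReal (Real.exp (w0 + 1) ^ 2 * ((L ^ F) ^ 2 * Y ^ 2 / L ^ (A + 2 * F + 1))) := by
    have g1 := h2 (fun m => (be l M n m : ℂ)) (L ^ F) (by positivity) (by simp [be]) (fun m _ => by
      rw [Complex.norm_real, Real.norm_eq_abs]
      exact h1 n le_rfl m)
    have hpt : ∀ w ∈ Set.Icc w0 (w0 + 1), ‖FF l M K n w‖ₑ ^ 2 ≤ ENNReal.ofReal (Real.exp (w0 + 1) ^ 2) *
        ‖∑ q ∈ Icc 1 Y, (om q : ℂ) * (be l M n ⌊Real.exp w * q⌋₊ : ℂ) -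
          ∫ u in (0 : ℝ)..Y, (be l M n ⌊Real.exp w * u⌋₊ : ℂ)‖ₑ ^ 2 := by
      intro w hw
      have hZ : ⌈1 / Real.exp w⌉₊ * (KK l + 1) * (n + 1) ≤ Y := by
        rw [hY, hK]
        have h1 : ⌈1 / Real.exp w⌉₊ ≤ ⌈1 / Real.exp w0⌉₊ := by
          apply Nat.ceil_le_ceil
          apply one_div_le_one_div_of_le (Real.exp_pos _)
          exact Real.exp_le_exp.2 hw.1
        gcongr
      have i1 := hI1 l hl M n (Real.exp w) (Real.exp_pos w) Y hZ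
      have i2 := hI2 l hl M n (Real.exp w) (Real.exp_pos w) Y hZ
      have e1 : FF l M K n w = (Real.exp w : ℂ) * (∑ q ∈ Icc 1 Y, (om q : ℂ) * (be l M n ⌊Real.exp w * q⌋₊ : ℂ) -
          ∫ u in (0 : ℝ)..Y, (be l M n ⌊Real.exp w * u⌋₊ : ℂ)) := by
        rw [hK, FF_eq hI1 l hl M w0 n hw.1, intervalIntegral.integral_ofReal]
        have e2 : ∑ u ∈ Ico 1 n, (mu (Real.exp w :: l) u - mu l u) * M (n - u) =
            Real.exp w * (∑ q ∈ Icc 1 Y, om q * be l M n ⌊Real.exp w * q⌋₊ - ∫ u in (0 : ℝ)..Y, be l M n ⌊Real.exp w * u⌋₊) := by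
          rw [mul_sub, i1, i2, ← Finset.sum_sub_distrib]
          refine Finset.sum_congr rfl fun u _ => ?_
          ring
        rw [e2]
        push_cast
        rfl
      rw [e1, enorm_mul, mul_pow]
      gcongr
      rw [← ofReal_norm, Complex.norm_real, Real.norm_eq_abs, abs_of_pos (Real.exp_pos w), ← ENNReal.ofReal_pow (Real.exp_pos w).le]
      apply ENNReal.ofReal_le_ofReal
      apply pow_le_pow_left₀ (Real.exp_pos w).le
      exact Real.exp_le_exp.2 hw.2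
    refine (setLIntegral_mono' measurableSet_Icc hpt).trans ?_
    rw [lintegral_const_mul' _ _ (by simp), ENNReal.ofReal_mul (by positivity)]
    refine mul_le_mul_right (g1.trans ?_) _
    apply ENNReal.ofReal_le_ofReal
    gcongr
  refine hkey.trans ?_
  apply ENNReal.ofReal_le_ofReal
  have hY2 : (Y : ℝ) ^ 2 ≤ 4 * K ^ 2 * n ^ 2 := by
    have : (Y : ℝ) ≤ K * (2 * n) := by
      rw [hYr]
      gcongr
      linarith
    calc (Y : ℝ) ^ 2 ≤ (K * (2 * n)) ^ 2 := by gcongr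
      _ = _ := by ring
  calc Real.exp (w0 + 1) ^ 2 * ((L ^ F) ^ 2 * Y ^ 2 / L ^ (A + 2 * F + 1)) ≤
      Real.exp (w0 + 1) ^ 2 * ((L ^ F) ^ 2 * (4 * K ^ 2 * n ^ 2) / L ^ (A + 2 * F + 1)) := by gcongr
    _ = n ^ 2 / L ^ A * ((4 * Real.exp (w0 + 1) ^ 2 * K ^ 2) / L) := by
        have e9 : L ^ (A + 2 * F + 1) = L ^ A * (L ^ F) ^ 2 * L := by
          rw [← pow_mul, ← pow_add, ← pow_succ, mul_comm 2 F]
        have e8 : 0 < L ^ F := by positivity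
        rw [e9]
        field_simp
    _ ≤ n ^ 2 / L ^ A * 1 := by
        gcongr
        rw [div_le_one hL0]
        exact h4
    _ = _ := mul_one _

/-- finiteness -/
theorem FF_fin (l : List ℝ) (M : ℕ → ℝ) (K n : ℕ) (w0 : ℝ) (c : ℝ) :
    ∫⁻ w in Set.Icc w0 (w0 + 1), ‖(c : ℂ) * FF l M K n w‖ₑ ^ 2 ≠ ⊤ := by
  obtain ⟨D, hD⟩ : ∃ D : ℝ, D = ∑ m ∈ range (⌊Real.exp (w0 + 1) * (K * (n + 1) : ℕ)⌋₊ + 1), |be l M n m| := ⟨_, rfl⟩
  have hb : ∀ w ∈ Set.Icc w0 (w0 + 1), ‖(c : ℂ) * FF l M K n w‖ ≤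
      |c| * (Real.exp (w0 + 1) * (∑ q ∈ Icc 1 (K * (n + 1)), om q * D) + |∑ u ∈ Ico 1 n, mu l u * M (n - u)|) := by
    intro w hw
    rw [norm_mul, Complex.norm_real, Real.norm_eq_abs]
    apply mul_le_mul_of_nonneg_left _ (abs_nonneg _)
    unfold FF
    rw [Complex.norm_real, Real.norm_eq_abs]
    refine (abs_sub _ _).trans ?_
    apply add_le_add_left
    rw [abs_mul, abs_of_pos (Real.exp_pos w)]
    apply mul_le_mul (Real.exp_le_exp.2 hw.2) _ (abs_nonneg _) (Real.exp_pos _).le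
    refine (Finset.abs_sum_le_sum_abs _ _).trans ?_
    refine Finset.sum_le_sum fun q hq => ?_
    rw [abs_mul, abs_of_nonneg (Pool.Agent.W301.SS.om_nonneg q)]
    apply mul_le_mul_of_nonneg_left _ (Pool.Agent.W301.SS.om_nonneg q)
    rw [hD]
    refine Finset.single_le_sum (f := fun m => |be l M n m|) (fun _ _ => abs_nonneg _) ?_
    rw [Finset.mem_range, Nat.lt_succ_iff]
    apply Nat.floor_le_floor
    have hq' : (q : ℝ) ≤ (K * (n + 1) : ℕ) := by exact_mod_cast (Finset.mem_Icc.1 hq).2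
    exact mul_le_mul (Real.exp_le_exp.2 hw.2) hq' (Nat.cast_nonneg q) (Real.exp_pos _).le
  obtain ⟨R, hR⟩ : ∃ R, R = |c| * (Real.exp (w0 + 1) * (∑ q ∈ Icc 1 (K * (n + 1)), om q * D) + |∑ u ∈ Ico 1 n, mu l u * M (n - u)|) := ⟨_, rfl⟩
  rw [← hR] at hb
  have h1 : ∫⁻ w in Set.Icc w0 (w0 + 1), ‖(c : ℂ) * FF l M K n w‖ₑ ^ 2 ≤ ∫⁻ w in Set.Icc w0 (w0 + 1), ENNReal.ofReal R ^ 2 := by
    refine setLIntegral_mono' measurableSet_Icc fun w hw => ?_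
    gcongr
    rw [← ofReal_norm]
    exact ENNReal.ofReal_le_ofReal (hb w hw)
  refine ne_top_of_le_ne_top ?_ h1
  rw [setLIntegral_const, Real.volume_Icc]
  exact ENNReal.mul_ne_top (by simp) (by simp)

/-- from single integrals to the hypothesis of `bc` -/
theorem to_bc (F : ℕ → ℝ → ℂ) (hFm : ∀ n, Measurable (F n)) (w0 : ℝ)
    (hfin : ∀ m, ∫⁻ w in Set.Icc w0 (w0 + 1), ‖F m w‖ₑ ^ 2 ≠ ⊤)
    (H : ∀ A : ℕ, ∀ᶠ m : ℕ in atTop, ∫⁻ w in Set.Icc w0 (w0 + 1), ‖F m w‖ₑ ^ 2 ≤ ENNReal.ofReal (m ^ 2 / Real.log m ^ A)) (A : ℕ) :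
    ∀ᶠ N : ℕ in atTop, ∫⁻ w in Set.Icc w0 (w0 + 1), ∑ n ∈ Icc 1 N, ‖F n w‖ₑ ^ 2 ≤ ENNReal.ofReal (N ^ 3 / Real.log N ^ A) := by
  obtain ⟨m0, hm0⟩ := ((H (A + 1)).and (eventually_ge_atTop 3)).exists_forall_of_atTop
  obtain ⟨c, hc⟩ : ∃ c : ℝ, c = ∑ m ∈ range m0, (∫⁻ w in Set.Icc w0 (w0 + 1), ‖F m w‖ₑ ^ 2).toReal := ⟨_, rfl⟩
  have hc0 : 0 ≤ c := by
    rw [hc]
    exact Finset.sum_nonneg fun _ _ => ENNReal.toReal_nonneg
  filter_upwards [ev_logge 2, ev_logge (3 * 2 ^ (A + 1)), ev_logpow 3 A, ev_logpow (3 * c) A, eventually_ge_atTop 3] with N h1 h2 h3 h4 h5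
  obtain ⟨L, hL⟩ : ∃ L, L = Real.log (N : ℝ) := ⟨_, rfl⟩
  rw [← hL] at h1 h2 h3 h4
  rw [← hL]
  have hN3 : (3 : ℝ) ≤ N := by exact_mod_cast h5
  have hN0 : (0 : ℝ) < N := by linarith
  have hL0 : 0 < L := by linarith
  have hkey : ∀ m ∈ Icc 1 N, ∫⁻ w in Set.Icc w0 (w0 + 1), ‖F m w‖ₑ ^ 2 ≤
      ENNReal.ofReal (2 ^ (A + 1) * N ^ 2 / L ^ (A + 1) + N ^ 2 / L ^ A * (1 / 3) + c) := by
    intro m hm
    have hm' := Finset.mem_Icc.1 hm
    have p1 : 0 ≤ 2 ^ (A + 1) * (N : ℝ) ^ 2 / L ^ (A + 1) := by positivity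
    have p2 : 0 ≤ (N : ℝ) ^ 2 / L ^ A * (1 / 3) := by positivity
    by_cases h : m < m0
    · have e1 : ∫⁻ w in Set.Icc w0 (w0 + 1), ‖F m w‖ₑ ^ 2 =
          ENNReal.ofReal (∫⁻ w in Set.Icc w0 (w0 + 1), ‖F m w‖ₑ ^ 2).toReal := (ENNReal.ofReal_toReal (hfin m)).symm
      rw [e1]
      apply ENNReal.ofReal_le_ofReal
      have e2 : (∫⁻ w in Set.Icc w0 (w0 + 1), ‖F m w‖ₑ ^ 2).toReal ≤ c := by
        rw [hc]
        exact Finset.single_le_sum (f := fun m => (∫⁻ w in Set.Icc w0 (w0 + 1), ‖F m w‖ₑ ^ 2).toReal)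
          (fun _ _ => ENNReal.toReal_nonneg) (Finset.mem_range.2 h)
      linarith
    · refine (hm0 m (by omega)).1.trans (ENNReal.ofReal_le_ofReal ?_)
      have hmr : (1 : ℝ) ≤ m := by exact_mod_cast hm'.1
      have hmN : (m : ℝ) ≤ N := by exact_mod_cast hm'.2
      by_cases h7 : (m : ℝ) ^ 2 ≤ N
      · have h8 : 3 ≤ m := (hm0 m (by omega)).2
        have hlm : 1 ≤ Real.log (m : ℝ) := by
          have h3m : (3 : ℝ) ≤ m := by exact_mod_cast h8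
          have := Real.log_le_log (by norm_num) h3m
          have h9 := one_le_log3
          linarith
        have e3 : (m : ℝ) ^ 2 / Real.log m ^ (A + 1) ≤ N := by
          refine le_trans (div_le_self (by positivity) (one_le_pow₀ hlm)) h7
        have e5 : (N : ℝ) ≤ (N : ℝ) ^ 2 / L ^ A * (1 / 3) := by
          rw [div_mul_eq_mul_div, le_div_iff₀ (by positivity)]
          nlinarith
        linarith
      · push Not at h7
        have e1 : L ≤ 2 * Real.log m := by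
          have := Real.log_le_log hN0 h7.le
          rw [Real.log_pow, ← hL] at this
          exact_mod_cast this
        have e2 : (m : ℝ) ^ 2 / Real.log m ^ (A + 1) ≤ N ^ 2 / (L / 2) ^ (A + 1) := by
          gcongr
          linarith
        have e3 : (N : ℝ) ^ 2 / (L / 2) ^ (A + 1) = 2 ^ (A + 1) * N ^ 2 / L ^ (A + 1) := by
          rw [div_pow]
          field_simp
        linarith
  rw [lintegral_finsetSum _ (fun n _ => (hFm n).enorm.pow_const 2)]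
  refine (Finset.sum_le_sum hkey).trans ?_
  rw [Finset.sum_const, Nat.card_Icc, Nat.add_sub_cancel, nsmul_eq_mul, ← ENNReal.ofReal_natCast, ← ENNReal.ofReal_mul hN0.le]
  apply ENNReal.ofReal_le_ofReal
  have t1 : (N : ℝ) * (2 ^ (A + 1) * N ^ 2 / L ^ (A + 1)) ≤ N ^ 3 / L ^ A * (1 / 3) := by
    calc (N : ℝ) * (2 ^ (A + 1) * N ^ 2 / L ^ (A + 1)) = N ^ 3 / L ^ A * (3 * 2 ^ (A + 1) / L) * (1 / 3) := by
          rw [pow_succ L]
          field_simp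
      _ ≤ N ^ 3 / L ^ A * 1 * (1 / 3) := by
          gcongr
          rw [div_le_one hL0]
          exact h2
      _ = _ := by ring
  have t2 : (N : ℝ) * (N ^ 2 / L ^ A * (1 / 3)) = N ^ 3 / L ^ A * (1 / 3) := by ring
  have t3 : (N : ℝ) * c ≤ N ^ 3 / L ^ A * (1 / 3) := by
    rw [div_mul_eq_mul_div, le_div_iff₀ (by positivity)]
    nlinarith
  calc (N : ℝ) * (2 ^ (A + 1) * N ^ 2 / L ^ (A + 1) + N ^ 2 / L ^ A * (1 / 3) + c) =
      (N : ℝ) * (2 ^ (A + 1) * N ^ 2 / L ^ (A + 1)) + N * (N ^ 2 / L ^ A * (1 / 3)) + N * c := by ring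
    _ ≤ _ := by linarith

end Pool.Agent.D0H91.GI
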