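import Mathlib
import Pool.Agent.D0H91.GI.SeqA

/-! Along arbitrary increasing sequences: few exceptions. -/

set_option autoImplicit false

namespace Pool.Agent.D0H91.GI

open Finset MeasureTheory Filter Topology
open scoped ENNReal
open Pool.Agent.D0H91.MG
open Pool.Agent.D0H91.UB (Ex bc)
open Pool.Agent.W301.SS (om)
open Pool.Agent.H560R3.GB (sing)

/-- `P m` holds for at most `N / (log N) ^ A` of the `m ≤ N`, for every `A` -/
def Few (P : ℕ → Prop) : Prop := ∀ A : ℕ, ∀ᶠ N : ℕ in atTop, (Nat.card {m : ℕ | 1 ≤ m ∧ m ≤ N ∧ P m} : ℝ) ≤ N / Real.log N ^ A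

theorem few_fin (P : ℕ → Prop) (N : ℕ) : {m : ℕ | 1 ≤ m ∧ m ≤ N ∧ P m}.Finite :=
  (Finset.Icc 1 N).finite_toSet.subset fun n hn => by
    rw [Finset.mem_coe, Finset.mem_Icc]
    exact ⟨hn.1, hn.2.1⟩

theorem few_or {P Q : ℕ → Prop} (hP : Few P) (hQ : Few Q) : Few fun m => P m ∨ Q m := by
  intro A
  filter_upwards [hP (A + 1), hQ (A + 1), ev_logge 2] with N h1 h2 h3
  have hL0 : 0 < Real.log (N : ℝ) := by linarith
  have h4 : Nat.card {m : ℕ | 1 ≤ m ∧ m ≤ N ∧ (P m ∨ Q m)} ≤ Nat.card {m : ℕ | 1 ≤ m ∧ m ≤ N ∧ P m} +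
      Nat.card {m : ℕ | 1 ≤ m ∧ m ≤ N ∧ Q m} := by
    rw [Nat.card_coe_set_eq, Nat.card_coe_set_eq, Nat.card_coe_set_eq]
    refine (Set.ncard_le_ncard ?_ ((few_fin P N).union (few_fin Q N))).trans (Set.ncard_union_le _ _)
    rintro m ⟨a, b, c | c⟩
    · exact Or.inl ⟨a, b, c⟩
    · exact Or.inr ⟨a, b, c⟩
  have h5 : (Nat.card {m : ℕ | 1 ≤ m ∧ m ≤ N ∧ (P m ∨ Q m)} : ℝ) ≤ Nat.card {m : ℕ | 1 ≤ m ∧ m ≤ N ∧ P m} +
      Nat.card {m : ℕ | 1 ≤ m ∧ m ≤ N ∧ Q m} := by exact_mod_cast h4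
  calc _ ≤ _ := h5
    _ ≤ N / Real.log N ^ (A + 1) + N / Real.log N ^ (A + 1) := add_le_add h1 h2
    _ = N / Real.log N ^ A * (2 / Real.log N) := by
        rw [pow_succ]
        field_simp
        ring
    _ ≤ N / Real.log N ^ A * 1 := by
        gcongr
        rw [div_le_one hL0]
        exact h3
    _ = _ := mul_one _

theorem few_lt (m1 : ℕ) : Few fun m => m ≤ m1 := by
  intro A
  filter_upwards [ev_logpow m1 A, ev_logge 1] with N h1 h2
  have hL0 : 0 < Real.log (N : ℝ) := by linarith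
  rw [le_div_iff₀ (by positivity)]
  refine le_trans ?_ h1
  gcongr
  rw [Nat.card_coe_set_eq]
  have : {m : ℕ | 1 ≤ m ∧ m ≤ N ∧ m ≤ m1} ⊆ ((Finset.Icc 1 m1 : Finset ℕ) : Set ℕ) := fun n hn => by
    rw [Finset.mem_coe, Finset.mem_Icc]
    exact ⟨hn.1, hn.2.2⟩
  have h3 := Set.ncard_le_ncard this (Finset.finite_toSet _)
  rwa [Set.ncard_coe_finset, Nat.card_Icc, Nat.add_sub_cancel] at h3

theorem few_sub {P Q : ℕ → Prop} (h : ∀ m, P m → Q m) (hQ : Few Q) : Few P := by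
  intro A
  filter_upwards [hQ A] with N h1
  refine le_trans ?_ h1
  rw [Nat.card_coe_set_eq, Nat.card_coe_set_eq]
  have h2 : {m : ℕ | 1 ≤ m ∧ m ≤ N ∧ P m} ⊆ {m : ℕ | 1 ≤ m ∧ m ≤ N ∧ Q m} := fun m hm => ⟨hm.1, hm.2.1, h m hm.2.2⟩
  exact_mod_cast Set.ncard_le_ncard h2 (few_fin Q N)

theorem few_mono {P Q : ℕ → Prop} (h : ∀ᶠ m : ℕ in atTop, P m → Q m) (hQ : Few Q) : Few P := by
  obtain ⟨m1, hm1⟩ := h.exists_forall_of_atTop
  refine few_sub ?_ (few_or hQ (few_lt m1))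
  intro m hm
  by_cases h1 : m1 ≤ m
  · exact Or.inl (hm1 m h1 hm)
  · exact Or.inr (by omega)

theorem few_ex {f : ℕ → ℝ} (h : ∀ A : ℕ, ∀ᶠ N : ℕ in atTop, (Ex f A N : ℝ) ≤ N / Real.log N ^ A) : Few fun m => (m : ℝ) < f m := by
  intro A
  filter_upwards [h (A + 1), ev_logge 2] with N h1 h2
  have hL0 : 0 < Real.log (N : ℝ) := by linarith
  have h3 : Nat.card {m : ℕ | 1 ≤ m ∧ m ≤ N ∧ (m : ℝ) < f m} ≤ Ex f (A + 1) N + ⌊(N : ℝ) / Real.log N ^ (A + 1)⌋₊ := by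
    rw [Nat.card_coe_set_eq]
    have hsub : {m : ℕ | 1 ≤ m ∧ m ≤ N ∧ (m : ℝ) < f m} ⊆
        ((((Icc 1 N).filter fun n => (N : ℝ) / Real.log N ^ (A + 1) < f n) ∪ Icc 1 ⌊(N : ℝ) / Real.log N ^ (A + 1)⌋₊ : Finset ℕ) : Set ℕ) := by
      rintro m ⟨a, b, c⟩
      rw [Finset.mem_coe, Finset.mem_union, Finset.mem_filter, Finset.mem_Icc, Finset.mem_Icc]
      by_cases hm : m ≤ ⌊(N : ℝ) / Real.log N ^ (A + 1)⌋₊
      · exact Or.inr ⟨a, hm⟩
      · left
        refine ⟨⟨a, b⟩, lt_trans ?_ c⟩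
        exact (Nat.floor_lt (by positivity)).1 (not_le.1 hm)
    refine (Set.ncard_le_ncard hsub (Finset.finite_toSet _)).trans ?_
    rw [Set.ncard_coe_finset]
    refine (Finset.card_union_le _ _).trans ?_
    rw [Nat.card_Icc, Nat.add_sub_cancel]
    exact le_of_eq rfl
  have h4 : (Nat.card {m : ℕ | 1 ≤ m ∧ m ≤ N ∧ (m : ℝ) < f m} : ℝ) ≤ Ex f (A + 1) N + (⌊(N : ℝ) / Real.log N ^ (A + 1)⌋₊ : ℕ) := by
    exact_mod_cast h3
  have h5 := Nat.floor_le (show 0 ≤ (N : ℝ) / Real.log N ^ (A + 1) by positivity)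
  calc _ ≤ _ := h4
    _ ≤ N / Real.log N ^ (A + 1) + N / Real.log N ^ (A + 1) := add_le_add h1 h5
    _ = N / Real.log N ^ A * (2 / Real.log N) := by
        rw [pow_succ]
        field_simp
        ring
    _ ≤ N / Real.log N ^ A * 1 := by
        gcongr
        rw [div_le_one hL0]
        exact h2
    _ = _ := mul_one _

/-- small along `s` -/
def SC (s : ℕ → ℕ) (f : ℕ → ℝ) : Prop := ∀ B : ℕ, Few fun m => (s m : ℝ) / Real.log (s m) ^ B < |f (s m)|

theorem ev_log_s {s : ℕ → ℕ} (hs : StrictMono s) (c : ℝ) : ∀ᶠ m : ℕ in atTop, c ≤ Real.log (s m) :=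
  hs.tendsto_atTop.eventually (ev_logge c)

theorem SC_zero (s : ℕ → ℕ) : SC s fun _ => 0 := by
  intro B
  refine few_sub (Q := fun m => m ≤ 0) ?_ (few_lt 0)
  intro m hm
  exfalso
  rw [abs_zero] at hm
  have : 0 ≤ Real.log (s m : ℝ) := Real.log_natCast_nonneg _
  have h2 : 0 ≤ (s m : ℝ) / Real.log (s m) ^ B := by positivity
  linarith

theorem SC_add {s : ℕ → ℕ} (hs : StrictMono s) {f g : ℕ → ℝ} (hf : SC s f) (hg : SC s g) : SC s fun n => f n + g n := by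
  intro B
  refine few_mono ?_ (few_or (hf (B + 1)) (hg (B + 1)))
  filter_upwards [ev_log_s hs 2] with m hm h
  by_contra hc
  push Not at hc
  have hL0 : 0 < Real.log (s m : ℝ) := by linarith
  have e1 : (s m : ℝ) / Real.log (s m) ^ (B + 1) + s m / Real.log (s m) ^ (B + 1) ≤ s m / Real.log (s m) ^ B := by
    calc (s m : ℝ) / Real.log (s m) ^ (B + 1) + s m / Real.log (s m) ^ (B + 1) = s m / Real.log (s m) ^ B * (2 / Real.log (s m)) := by
          rw [pow_succ]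
          field_simp
          ring
      _ ≤ s m / Real.log (s m) ^ B * 1 := by
          gcongr
          rw [div_le_one hL0]
          exact hm
      _ = _ := mul_one _
  have := abs_add_le (f (s m)) (g (s m))
  linarith [hc.1, hc.2]

theorem step_seq (s : ℕ → ℕ) (hs : StrictMono s) (l : List ℝ) (hl : Pos l) (M : ℕ → ℝ) (C E : ℕ)
    (hM : ∀ v, 0 < v → |M v| ≤ C * Real.log (v + 3) ^ E) :
    ∀ᵐ α : ℝ, 0 < α → SC s fun n => ∑ u ∈ Ico 1 n, (mu (α :: l) u - mu l u) * M (n - u) := by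
  apply ae_of_exp (P := fun α => SC s fun n => ∑ u ∈ Ico 1 n, (mu (α :: l) u - mu l u) * M (n - u)) one_pos
  have h1 : ∀ᵐ w : ℝ, ∀ (z : ℤ) (B : ℕ), w ∈ Set.Icc (z : ℝ) (z + 1) → ∀ A : ℕ, ∀ᶠ N : ℕ in atTop,
      (Ex (fun m => ‖((m * Real.log (s m) ^ B / s m : ℝ) : ℂ) * FF l M (⌈1 / Real.exp (z : ℝ)⌉₊ * (KK l + 1)) (s m) w‖) A N : ℝ) ≤
        N / Real.log N ^ A := by
    rw [ae_all_iff]
    intro z
    rw [ae_all_iff]
    intro B
    refine (ae_restrict_iff' measurableSet_Icc).1 (bc (fun m w => ((m * Real.log (s m) ^ B / s m : ℝ) : ℂ) *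
      FF l M (⌈1 / Real.exp (z : ℝ)⌉₊ * (KK l + 1)) (s m) w) (fun m => (FF_meas l M _ (s m)).const_mul _) z ?_)
    refine to_bc _ (fun m => (FF_meas l M _ (s m)).const_mul _) z (fun m => FF_fin l M _ (s m) z _) ?_
    intro A
    filter_upwards [hs.tendsto_atTop.eventually (one_l2 l hl M C E hM z (A + 2 * B)), ev_log_s hs 1,
      ev_logge 1, eventually_ge_atTop 3] with m h2 h3 h3' h4
    have hsm : m ≤ s m := hs.le_apply
    have hm0 : (0 : ℝ) < m := by exact_mod_cast (by omega : 0 < m)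
    have hsmr : (m : ℝ) ≤ s m := by exact_mod_cast hsm
    have hs0 : (0 : ℝ) < s m := by linarith
    obtain ⟨L, hL⟩ : ∃ L, L = Real.log (s m : ℝ) := ⟨_, rfl⟩
    rw [← hL] at h2 h3
    rw [← hL]
    have hL0 : 0 < L := by linarith
    have hlog : Real.log (m : ℝ) ≤ L := by
      rw [hL]
      exact Real.log_le_log hm0 hsmr
    have hc0 : 0 ≤ (m : ℝ) * L ^ B / s m := by positivity
    simp only [enorm_mul, mul_pow]
    rw [lintegral_const_mul' _ _ (by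
      rw [← ofReal_norm]
      simp)]
    have e1 : ‖(((m : ℝ) * L ^ B / s m : ℝ) : ℂ)‖ₑ ^ 2 = ENNReal.ofReal (((m : ℝ) * L ^ B / s m) ^ 2) := by
      rw [← ofReal_norm, Complex.norm_real, Real.norm_eq_abs, abs_of_nonneg hc0, ENNReal.ofReal_pow hc0]
    rw [e1]
    refine (mul_le_mul_right h2 _).trans ?_
    rw [← ENNReal.ofReal_mul (by positivity)]
    apply ENNReal.ofReal_le_ofReal
    calc ((m : ℝ) * L ^ B / s m) ^ 2 * ((s m : ℝ) ^ 2 / L ^ (A + 2 * B)) = m ^ 2 / L ^ A := by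
          rw [pow_add, mul_comm 2 B, pow_mul]
          have : 0 < L ^ B := by positivity
          field_simp
      _ ≤ m ^ 2 / Real.log m ^ A := by
          have : 0 < Real.log (m : ℝ) := by linarith
          gcongr
  filter_upwards [h1] with w hw B
  have h2 := few_ex (hw ⌊w⌋ B ⟨Int.floor_le w, (Int.lt_floor_add_one w).le⟩)
  refine few_mono ?_ h2
  filter_upwards [ev_log_s hs 1, eventually_ge_atTop 1] with m h3 h4 h5
  have hsm : m ≤ s m := hs.le_apply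
  have hm0 : (0 : ℝ) < m := by exact_mod_cast (by omega : 0 < m)
  have hsmr : (m : ℝ) ≤ s m := by exact_mod_cast hsm
  have hs0 : (0 : ℝ) < s m := by linarith
  have hL0 : 0 < Real.log (s m : ℝ) := by linarith
  rw [one_mul] at h5
  rw [norm_mul, FF_eq cI1 l hl M _ (s m) (Int.floor_le w), Complex.norm_real, Complex.norm_real, Real.norm_eq_abs, Real.norm_eq_abs,
    abs_of_nonneg (show 0 ≤ (m : ℝ) * Real.log (s m) ^ B / s m by positivity)]
  rw [div_lt_iff₀ (by positivity)] at h5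
  calc (m : ℝ) = m / s m * s m := by field_simp
    _ < m / s m * (|∑ u ∈ Ico 1 (s m), (mu (Real.exp w :: l) u - mu l u) * M (s m - u)| * Real.log (s m) ^ B) := by gcongr
    _ = _ := by ring

end Pool.Agent.D0H91.GI
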