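import Mathlib
import Pool.Agent.D0H91.GI.SeqB

/-! Along arbitrary increasing sequences: the numbers of representations. -/

set_option autoImplicit false

namespace Pool.Agent.D0H91.GI

open Finset MeasureTheory Filter Topology
open scoped ENNReal
open Pool.Agent.D0H91.MG
open Pool.Agent.W301.SS (om)
open Pool.Agent.H560R3.GB (sing energy)

theorem pos_nil : Pos [] := by
  intro α hα
  simp at hα

theorem core_pt (l l' : List ℝ) (hl : Pos l) (hl' : Pos l') (ε : ℝ) (hε : 0 < ε) (hε1 : ε ≤ 1) : ∀ᶠ n : ℕ in atTop,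
    |(rr [] [] n : ℝ) * Real.log n ^ 2 - sing n * n| ≤ ε / 20 * (sing n * n) →
    |∑ u ∈ Ico 1 n, (mu l u - mu [] u) * mu [] (n - u)| ≤ n / Real.log n ^ 1 →
    |∑ u ∈ Ico 1 n, (mu l' u - mu [] u) * mu l (n - u)| ≤ n / Real.log n ^ 1 →
    |(Nat.card (RD l l' n) : ℝ) * (l.prod * l'.prod) * Real.log n ^ (l.length + l'.length + 2) - sing n * n| ≤
      2 * ε * (sing n * n) := by
  obtain ⟨c, hc⟩ := RD_RS cTR cMB l l' hl hl'
  have hlp : 0 < l.prod := List.prod_pos hl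
  have hlp' : 0 < l'.prod := List.prod_pos hl'
  obtain ⟨P, hP⟩ : ∃ P, P = l.prod * l'.prod := ⟨_, rfl⟩
  have hP0 : 0 < P := by
    rw [hP]
    positivity
  filter_upwards [cCT l l' hl hl' (ε / 20) (by positivity), cCT [] [] pos_nil pos_nil (ε / 20) (by positivity),
    ev_logge (40 / ε), ev_logpow (c * P / ε) (l.length + l'.length + 2), eventually_ge_atTop 1] with n q1 q2 h3 h4 h5 k1 k2 k3
  have hn1 : (1 : ℝ) ≤ n := by exact_mod_cast h5
  have hL0 : 0 < Real.log (n : ℝ) := lt_of_lt_of_le (by positivity) h3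
  simp only [List.prod_nil, List.length_nil, mul_one, one_mul, zero_add] at q2
  rw [pow_one] at k2 k3
  have q3 : |TT l l' n - TT [] [] n| ≤ ε / 20 * n := by
    rw [TT_diff]
    refine (abs_add_le _ _).trans ?_
    have e1 : (n : ℝ) / Real.log n + n / Real.log n ≤ ε / 20 * n := by
      calc (n : ℝ) / Real.log n + n / Real.log n = ε / 20 * n * ((40 / ε) / Real.log n) := by
            field_simp
            ring
        _ ≤ ε / 20 * n * 1 := by
            gcongr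
            rw [div_le_one hL0]
            exact h3
        _ = _ := mul_one _
    linarith
  have hs := Pool.Agent.W93.GB.one_le_sing n
  have hSn : (n : ℝ) ≤ sing n * n := by nlinarith
  have hfin := last (ε := ε) (X := l.prod * l'.prod * Real.log n ^ (l.length + l'.length + 2) * rr l l' n)
    (X0 := Real.log n ^ 2 * rr [] [] n) (T := TT l l' n) (T0 := TT [] [] n) (S := sing n * n) (n := n)
    hε hε1 hSn (by linarith) (by positivity) q1 q2 (by rwa [mul_comm (Real.log (n : ℝ) ^ 2)]) q3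
  obtain ⟨g2, g3⟩ := hc n
  rw [RS_card cTR l l' hl hl'] at g2 g3
  have g2' : (Nat.card (RD l l' n) : ℝ) ≤ rr l l' n := by exact_mod_cast g2
  have g3' : (rr l l' n : ℝ) ≤ Nat.card (RD l l' n) + c := by exact_mod_cast g3
  rw [← hP] at hfin ⊢
  obtain ⟨ℓ, hℓ⟩ : ∃ ℓ, ℓ = P * Real.log (n : ℝ) ^ (l.length + l'.length + 2) := ⟨_, rfl⟩
  have hℓ0 : 0 ≤ ℓ := by
    rw [hℓ]
    positivity
  have g4 : c * ℓ ≤ ε * n := by
    rw [hℓ]
    calc (c : ℝ) * (P * Real.log (n : ℝ) ^ (l.length + l'.length + 2)) = ε * (c * P / ε * Real.log n ^ (l.length + l'.length + 2)) := by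
          field_simp
      _ ≤ ε * n := by gcongr
  rw [← hℓ] at hfin
  rw [mul_assoc, ← hℓ]
  have g5 := mul_le_mul_of_nonneg_right g2' hℓ0
  have g6 := mul_le_mul_of_nonneg_right g3' hℓ0
  have g7 : ε * (n : ℝ) ≤ ε * (sing n * n) := by gcongr
  rw [abs_le] at hfin ⊢
  constructor <;> linarith

theorem law_pt (l l' : List ℝ) (hl : Pos l) (hl' : Pos l') (α : ℝ) (hα : 0 < α) (ε : ℝ) (hε : 0 < ε) : ∀ᶠ n : ℕ in atTop,
    |∑ u ∈ Ico 1 n, (mu (α :: l) u - mu l u) * mu l' (n - u)| ≤ n / Real.log n ^ 1 →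
    |α * Real.log n * Nat.card (RD (α :: l) l' n) - Nat.card (RD l l' n)| ≤
      ε * (Nat.card (RD l l' n) + n / Real.log n ^ (l.length + l'.length + 2)) := by
  have hl1 : Pos (α :: l) := by
    intro β hβ
    rcases List.mem_cons.1 hβ with rfl | hβ
    · exact hα
    · exact hl β hβ
  have hlp : 0 < l.prod := List.prod_pos hl
  have hlp' : 0 < l'.prod := List.prod_pos hl'
  obtain ⟨P, hP⟩ : ∃ P, P = l.prod * l'.prod := ⟨_, rfl⟩
  have hP0 : 0 < P := by
    rw [hP]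
    positivity
  obtain ⟨η, hη⟩ : ∃ η, η = min (1 / 10) (min (ε / 8) (ε * P / 8)) := ⟨_, rfl⟩
  have hη0 : 0 < η := by
    rw [hη]
    positivity
  have hη1 : η ≤ 1 / 10 := by
    rw [hη]
    exact min_le_left _ _
  have hη2 : 4 * η ≤ ε / 2 := by
    have : η ≤ ε / 8 := by
      rw [hη]
      exact (min_le_right _ _).trans (min_le_left _ _)
    linarith
  have hη3 : 4 * η / P ≤ ε / 2 := by
    have : η ≤ ε * P / 8 := by
      rw [hη]
      exact (min_le_right _ _).trans (min_le_right _ _)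
    rw [div_le_iff₀ hP0]
    linarith
  obtain ⟨k, hk⟩ : ∃ k, k = l.length + l'.length + 2 := ⟨_, rfl⟩
  rw [← hk]
  obtain ⟨c, hc⟩ := RD_RS cTR cMB l l' hl hl'
  obtain ⟨c', hc'⟩ := RD_RS cTR cMB (α :: l) l' hl1 hl'
  filter_upwards [cCT (α :: l) l' hl1 hl' η hη0, cCT l l' hl hl' η hη0, ev_logpow ((α * c' + (1 + ε) * c) / (ε / 2)) (k + 1),
    ev_logge 1, ev_logge (1 / η), eventually_ge_atTop 1] with n q1 q2 g1 hℓ1' g5 w1 k2
  have hn1r : (1 : ℝ) ≤ n := by exact_mod_cast w1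
  have hlogpos : 0 < Real.log (n : ℝ) := by linarith
  have q3 : |TT (α :: l) l' n - TT l l' n| ≤ η * n := by
    have e0 : TT (α :: l) l' n - TT l l' n = ∑ u ∈ Ico 1 n, (mu (α :: l) u - mu l u) * mu l' (n - u) := by
      unfold TT
      rw [← Finset.sum_sub_distrib]
      refine Finset.sum_congr rfl fun u _ => ?_
      ring
    rw [e0]
    refine k2.trans ?_
    rw [pow_one]
    calc (n : ℝ) / Real.log n = η * n * ((1 / η) / Real.log n) := by field_simp
      _ ≤ η * n * 1 := by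
          gcongr
          rw [div_le_one hlogpos]
          exact g5
      _ = _ := mul_one _
  obtain ⟨ℓ, hℓ⟩ : ∃ ℓ, ℓ = Real.log (n : ℝ) := ⟨_, rfl⟩
  have hℓ1 : 1 ≤ ℓ := by
    rw [hℓ]
    exact hℓ1'
  have hℓ0 : 0 < ℓ := by linarith
  have hlen : (α :: l).length + l'.length + 2 = k + 1 := by
    rw [hk, List.length_cons]
    ring
  rw [hlen, List.prod_cons, ← hℓ] at q1
  rw [← hk, ← hP, ← hℓ] at q2
  have hαP : α * l.prod * l'.prod = α * P := by
    rw [hP]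
    ring
  rw [hαP] at q1
  have hfin := last2 hη0 hη1 (show (0 : ℝ) ≤ n by linarith) (show 0 ≤ P * ℓ ^ k * rr l l' n by positivity) q1 q2 q3
  have hQ : 0 < P * ℓ ^ k := by positivity
  have h6 : |α * ℓ * rr (α :: l) l' n - rr l l' n| ≤ 4 * η * (rr l l' n + n / (P * ℓ ^ k)) := by
    have e1 : α * P * ℓ ^ (k + 1) * rr (α :: l) l' n - P * ℓ ^ k * rr l l' n =
        P * ℓ ^ k * (α * ℓ * rr (α :: l) l' n - rr l l' n) := by
      rw [pow_succ]
      ring
    rw [e1, abs_mul, abs_of_pos hQ] at hfin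
    have e2 : 4 * η * (P * ℓ ^ k * rr l l' n + n) = P * ℓ ^ k * (4 * η * (rr l l' n + n / (P * ℓ ^ k))) := by
      field_simp
    rw [e2] at hfin
    exact le_of_mul_le_mul_left hfin hQ
  rw [← hℓ]
  obtain ⟨i1, i2⟩ := hc n
  obtain ⟨j1, j2⟩ := hc' n
  rw [RS_card cTR l l' hl hl'] at i1 i2
  rw [RS_card cTR (α :: l) l' hl1 hl'] at j1 j2
  have i1' : (Nat.card (RD l l' n) : ℝ) ≤ rr l l' n := by exact_mod_cast i1
  have i2' : (rr l l' n : ℝ) ≤ Nat.card (RD l l' n) + c := by exact_mod_cast i2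
  have j1' : (Nat.card (RD (α :: l) l' n) : ℝ) ≤ rr (α :: l) l' n := by exact_mod_cast j1
  have j2' : (rr (α :: l) l' n : ℝ) ≤ Nat.card (RD (α :: l) l' n) + c' := by exact_mod_cast j2
  obtain ⟨r, hr⟩ : ∃ r : ℝ, r = Nat.card (RD l l' n) := ⟨_, rfl⟩
  obtain ⟨r', hr'⟩ : ∃ r' : ℝ, r' = Nat.card (RD (α :: l) l' n) := ⟨_, rfl⟩
  obtain ⟨s, hs⟩ : ∃ s : ℝ, s = rr l l' n := ⟨_, rfl⟩
  obtain ⟨s', hs'⟩ : ∃ s' : ℝ, s' = rr (α :: l) l' n := ⟨_, rfl⟩
  rw [← hr, ← hs] at i1' i2'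
  rw [← hr', ← hs'] at j1' j2'
  rw [← hs, ← hs'] at h6
  rw [← hr, ← hr']
  have hr0 : 0 ≤ r := by
    rw [hr]
    positivity
  have h7 : 4 * η * (n / (P * ℓ ^ k)) ≤ ε / 2 * (n / ℓ ^ k) := by
    have e1 : 4 * η * ((n : ℝ) / (P * ℓ ^ k)) = 4 * η / P * (n / ℓ ^ k) := by
      field_simp
    rw [e1]
    gcongr
  have h8 : α * ℓ * c' + (1 + ε) * c ≤ ε / 2 * (n / ℓ ^ k) := by
    rw [← hℓ] at g1
    have e1 : α * ℓ * c' + (1 + ε) * c ≤ (α * c' + (1 + ε) * c) * ℓ := by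
      have : (1 + ε) * (c : ℝ) * 1 ≤ (1 + ε) * c * ℓ := by gcongr
      nlinarith
    refine e1.trans ?_
    rw [← mul_div_assoc, le_div_iff₀ (by positivity)]
    calc (α * c' + (1 + ε) * c) * ℓ * ℓ ^ k = ε / 2 * ((α * c' + (1 + ε) * c) / (ε / 2) * ℓ ^ (k + 1)) := by
          rw [pow_succ]
          field_simp
      _ ≤ ε / 2 * n := by gcongr
  have h9 : 4 * η * s ≤ ε / 2 * (r + c) := by
    calc 4 * η * s ≤ 4 * η * (r + c) := by gcongr
      _ ≤ ε / 2 * (r + c) := by gcongr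
  have hαℓ : 0 < α * ℓ := by positivity
  have h10 := mul_le_mul_of_nonneg_left j1' hαℓ.le
  have h11 := mul_le_mul_of_nonneg_left j2' hαℓ.le
  have h12 : 0 ≤ ε * (c : ℝ) := by positivity
  have h13 : 0 ≤ ε * r := by positivity
  have hc0 : (0 : ℝ) ≤ c := Nat.cast_nonneg c
  have hc0' : (0 : ℝ) ≤ α * ℓ * c' := by positivity
  rw [abs_le] at h6 ⊢
  obtain ⟨u1, u2⟩ := h6
  rw [mul_add] at u1 u2 h9 h11
  constructor <;> nlinarith

/-- the classical problem along `s` -/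
def BaseS (s : ℕ → ℕ) : Prop := ∀ ε : ℝ, 0 < ε →
  Few fun m => ¬ |(rr [] [] (s m) : ℝ) * Real.log (s m) ^ 2 - sing (s m) * s m| ≤ ε * (sing (s m) * s m)

/-- the bad indices -/
def BadS (s : ℕ → ℕ) (k : ℕ) (l l' : List ℝ) (ε : ℝ) (m : ℕ) : Prop :=
  ¬ |(Nat.card (RD l l' (s m)) : ℝ) * (l.prod * l'.prod) * Real.log (s m) ^ k - sing (s m) * s m| ≤ ε * (sing (s m) * s m)

theorem seq_pair {s : ℕ → ℕ} (hs : StrictMono s) (hB : BaseS s) (l l' : List ℝ) (hl : Pos l) (hl' : Pos l')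
    (h1 : SC s fun n => ∑ u ∈ Ico 1 n, (mu l u - mu [] u) * mu [] (n - u))
    (h2 : SC s fun n => ∑ u ∈ Ico 1 n, (mu l' u - mu [] u) * mu l (n - u)) (ε : ℝ) (hε : 0 < ε) :
    Few (BadS s (l.length + l'.length + 2) l l' ε) := by
  obtain ⟨δ, hδ⟩ : ∃ δ, δ = min (ε / 2) 1 := ⟨_, rfl⟩
  have hδ0 : 0 < δ := by
    rw [hδ]
    positivity
  have hδ1 : δ ≤ 1 := by
    rw [hδ]
    exact min_le_right _ _
  have hδε : 2 * δ ≤ ε := by
    have : δ ≤ ε / 2 := by
      rw [hδ]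
      exact min_le_left _ _
    linarith
  refine few_mono ?_ (few_or (hB (δ / 20) (by positivity)) (few_or (h1 1) (h2 1)))
  filter_upwards [hs.tendsto_atTop.eventually (core_pt l l' hl hl' δ hδ0 hδ1)] with m hm hbad
  by_contra hc
  push Not at hc
  obtain ⟨c1, c2, c3⟩ := hc
  apply hbad
  refine (hm c1 c2 c3).trans ?_
  apply mul_le_mul_of_nonneg_right hδε
  have := Pool.Agent.W93.GB.one_le_sing (s m)
  positivity

theorem ae_sc {s : ℕ → ℕ} (hs : StrictMono s) (M : ℕ → ℝ) (C E : ℕ) (hM : ∀ v, 0 < v → |M v| ≤ C * Real.log (v + 3) ^ E) (k : ℕ) :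
    AE k fun l => SC s fun n => ∑ u ∈ Ico 1 n, (mu l u - mu [] u) * M (n - u) := by
  induction k with
  | zero =>
    change SC s fun n => ∑ u ∈ Ico 1 n, (mu [] u - mu [] u) * M (n - u)
    have e : (fun n => ∑ u ∈ Ico 1 n, (mu [] u - mu [] u) * M (n - u)) = fun _ => 0 := by
      funext n
      simp
    rw [e]
    exact SC_zero s
  | succ k ih =>
    refine AE_imp (k := k) (P := fun l => SC s fun n => ∑ u ∈ Ico 1 n, (mu l u - mu [] u) * M (n - u))
      (Q := fun l => ∀ᵐ α : ℝ, 0 < α → SC s fun n => ∑ u ∈ Ico 1 n, (mu (α :: l) u - mu [] u) * M (n - u)) ?_ ih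
    intro l _ hl h1
    filter_upwards [step_seq s hs l hl M C E hM] with α hα h0
    have h2 := SC_add hs (hα h0) h1
    have e : (fun n => ∑ u ∈ Ico 1 n, (mu (α :: l) u - mu l u) * M (n - u) + ∑ u ∈ Ico 1 n, (mu l u - mu [] u) * M (n - u)) =
        fun n => ∑ u ∈ Ico 1 n, (mu (α :: l) u - mu [] u) * M (n - u) := by
      funext n
      rw [← Finset.sum_add_distrib]
      refine Finset.sum_congr rfl fun u _ => ?_
      ring
    rw [e] at h2
    exact h2

/-- generic chains along `s` -/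
theorem ae_seq {s : ℕ → ℕ} (hs : StrictMono s) (hB : BaseS s) (a b : ℕ) :
    AE a fun l => AE b fun l' => ∀ ε : ℝ, 0 < ε → Few (BadS s (a + b + 2) l l' ε) := by
  obtain ⟨C0, E0, -, -, -, h0⟩ := cMB [] pos_nil
  refine AE_imp ?_ (ae_sc hs (mu []) C0 E0 h0 a)
  intro l hla hl h1
  obtain ⟨C1, E1, -, -, -, h2⟩ := cMB l hl
  refine AE_imp ?_ (ae_sc hs (mu l) C1 E1 h2 b)
  intro l' hlb hl' h3 ε hε
  have h4 := seq_pair hs hB l l' hl hl' h1 h3 ε hε
  rw [hla, hlb] at h4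
  exact h4

/-- the transfer law along `s` -/
theorem law_seq {s : ℕ → ℕ} (hs : StrictMono s) (l l' : List ℝ) (hl : Pos l) (hl' : Pos l') :
    ∀ᵐ α : ℝ, 0 < α → ∀ ε : ℝ, 0 < ε → Few fun m =>
      ¬ |α * Real.log (s m) * Nat.card (RD (α :: l) l' (s m)) - Nat.card (RD l l' (s m))| ≤
        ε * (Nat.card (RD l l' (s m)) + s m / Real.log (s m) ^ (l.length + l'.length + 2)) := by
  obtain ⟨C1, E1, -, -, -, h2⟩ := cMB l' hl'
  filter_upwards [step_seq s hs l hl (mu l') C1 E1 h2] with α h1 h0 ε hε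
  refine few_mono ?_ (h1 h0 1)
  filter_upwards [hs.tendsto_atTop.eventually (law_pt l l' hl hl' α h0 ε hε)] with m hm hbad
  by_contra hc
  push Not at hc
  exact hbad (hm hc)

end Pool.Agent.D0H91.GI
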