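import Mathlib
import Pool.Agent.D0H91.GI.SeqC

/-! Along arbitrary increasing sequences: thin families, almost every vector, fast sequences. -/

set_option autoImplicit false

namespace Pool.Agent.D0H91.GI

open Finset MeasureTheory Filter Topology
open scoped ENNReal
open Pool.Agent.D0H91.MG
open Pool.Agent.H560R3.GB (sing energy g HL)
open Pool.Agent.W93.GB (Good fam)

theorem base_thin {s : ℕ → ℕ} (hs : StrictMono s) (hev : ∀ m, Even (s m)) (h C : ℕ) (hh : 1 ≤ h)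
    (hE : ∀ᶠ x : ℕ in atTop, (energy h x s : ℝ) * s x ≤ Real.log (s x) ^ C * (x : ℝ) ^ (2 * h)) : BaseS s := by
  classical
  intro ε hε A
  obtain ⟨N₀, hN₀⟩ := fam h 1 C A hh ε hε
  filter_upwards [hE, hs.tendsto_atTop.eventually_ge_atTop N₀, ev_logge 1, eventually_ge_atTop 1] with x h1 h2 h3 h4
  obtain ⟨S, hS⟩ : ∃ S, S = (Icc 1 x).filter fun m =>
    ¬ |(rr [] [] (s m) : ℝ) * Real.log (s m) ^ 2 - sing (s m) * s m| ≤ ε * (sing (s m) * s m) := ⟨_, rfl⟩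
  have e1 : {m : ℕ | 1 ≤ m ∧ m ≤ x ∧ ¬ |(rr [] [] (s m) : ℝ) * Real.log (s m) ^ 2 - sing (s m) * s m| ≤
      ε * (sing (s m) * s m)} = (S : Set ℕ) := by
    ext m
    rw [hS]
    simp only [Set.mem_setOf_eq, Finset.coe_filter, Finset.mem_Icc]
    tauto
  rw [e1, Nat.card_coe_set_eq, Set.ncard_coe_finset]
  have h5 := hN₀ (s x) h2 x s (fun m hm => ⟨by
    rw [one_mul]
    exact hs.monotone (Finset.mem_Icc.1 hm).2, (hev m).two_dvd⟩) h1 S (by
      rw [hS]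
      exact Finset.filter_subset _ _) (by
      intro m hm hg
      rw [hS, Finset.mem_filter] at hm
      apply hm.2
      obtain ⟨n, hn⟩ : ∃ n, n = s m := ⟨_, rfl⟩
      have hevn := hev m
      rw [← hn] at hg hevn ⊢
      have hg1 := hg.1
      rw [Pool.Agent.D0H42.GI.rr_nil]
      rcases Nat.eq_zero_or_pos n with h0 | h0
      · rw [h0]
        simp
      · have hn2 : 2 ≤ n := by
          obtain ⟨r, hr⟩ := hevn
          omega
        have hn2r : (2 : ℝ) ≤ n := by exact_mod_cast hn2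
        have hlog : 0 < Real.log (n : ℝ) := Real.log_pos (by linarith)
        unfold HL at hg1
        have hl2 : 0 < Real.log (n : ℝ) ^ 2 := by positivity
        have h6 := mul_le_mul_of_nonneg_right hg1 hl2.le
        rw [← abs_of_pos hl2, ← abs_mul, abs_of_pos hl2] at h6
        have e3 : ((g n : ℝ) - sing n * (n / Real.log n ^ 2)) * Real.log n ^ 2 = g n * Real.log n ^ 2 - sing n * n := by
          field_simp
        have e4 : ε * (sing n * (n / Real.log n ^ 2)) * Real.log n ^ 2 = ε * (sing n * n) := by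
          field_simp
        rw [e3, e4] at h6
        exact h6)
  refine h5.trans ?_
  have hx0 : (0 : ℝ) < x := by exact_mod_cast h4
  have hxs : (x : ℝ) ≤ s x := by exact_mod_cast hs.le_apply
  have hl := Real.log_le_log hx0 hxs
  gcongr

/-- the bad set along `s` -/
def YS (s : ℕ → ℕ) (l l' : List ℝ) (k : ℕ) (ε : ℝ) (N : ℕ) : Set ℕ := {m : ℕ | 1 ≤ m ∧ m ≤ N ∧ BadS s k l l' ε m}

theorem YS_meas (s : ℕ → ℕ) (a b k N : ℕ) (ε : ℝ) :
    Measurable fun p : (Fin a → ℝ) × (Fin b → ℝ) => Nat.card (YS s (List.ofFn p.1) (List.ofFn p.2) k ε N) := by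
  apply card_meas (fun p : (Fin a → ℝ) × (Fin b → ℝ) => YS s (List.ofFn p.1) (List.ofFn p.2) k ε N)
  intro m
  have hpr : ∀ c : ℕ, Measurable fun v : Fin c → ℝ => (List.ofFn v).prod := by
    intro c
    simp only [List.prod_ofFn]
    exact Finset.measurable_fun_prod _ fun i _ => measurable_pi_apply i
  have h1 : Measurable fun p : (Fin a → ℝ) × (Fin b → ℝ) => |(Nat.card (RD (List.ofFn p.1) (List.ofFn p.2) (s m)) : ℝ) *
      ((List.ofFn p.1).prod * (List.ofFn p.2).prod) * Real.log (s m) ^ k - sing (s m) * s m| := by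
    apply Measurable.abs
    apply Measurable.sub_const
    apply Measurable.mul_const
    apply Measurable.mul
    · exact (measurable_from_nat (f := fun m : ℕ => (m : ℝ))).comp (RD_meas a b (s m))
    · exact ((hpr a).comp measurable_fst).mul ((hpr b).comp measurable_snd)
  have h2 : MeasurableSet {p : (Fin a → ℝ) × (Fin b → ℝ) | |(Nat.card (RD (List.ofFn p.1) (List.ofFn p.2) (s m)) : ℝ) *
      ((List.ofFn p.1).prod * (List.ofFn p.2).prod) * Real.log (s m) ^ k - sing (s m) * s m| ≤ ε * (sing (s m) * s m)} :=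
    measurableSet_le h1 measurable_const
  by_cases hn : 1 ≤ m ∧ m ≤ N
  · have e : {p : (Fin a → ℝ) × (Fin b → ℝ) | m ∈ YS s (List.ofFn p.1) (List.ofFn p.2) k ε N} =
        {p : (Fin a → ℝ) × (Fin b → ℝ) | |(Nat.card (RD (List.ofFn p.1) (List.ofFn p.2) (s m)) : ℝ) *
      ((List.ofFn p.1).prod * (List.ofFn p.2).prod) * Real.log (s m) ^ k - sing (s m) * s m| ≤ ε * (sing (s m) * s m)}ᶜ := by
      ext p
      simp only [YS, BadS, Set.mem_setOf_eq, Set.mem_compl_iff]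
      tauto
    rw [e]
    exact h2.compl
  · have e : {p : (Fin a → ℝ) × (Fin b → ℝ) | m ∈ YS s (List.ofFn p.1) (List.ofFn p.2) k ε N} = ∅ := by
      ext p
      simp only [YS, Set.mem_setOf_eq, Set.mem_empty_iff_false, iff_false]
      tauto
    rw [e]
    exact MeasurableSet.empty

theorem YS_anti (s : ℕ → ℕ) (l l' : List ℝ) (k N : ℕ) {ε δ : ℝ} (h : ε ≤ δ) :
    Nat.card (YS s l l' k δ N) ≤ Nat.card (YS s l l' k ε N) := by
  rw [Nat.card_coe_set_eq, Nat.card_coe_set_eq]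
  apply Set.ncard_le_ncard
  · rintro m ⟨h1, h2, h4⟩
    refine ⟨h1, h2, fun h5 => h4 (h5.trans ?_)⟩
    apply mul_le_mul_of_nonneg_right h
    have := Pool.Agent.W93.GB.one_le_sing (s m)
    positivity
  · exact few_fin _ N

/-- the property along `s` -/
def GPs (s : ℕ → ℕ) (k : ℕ) (l l' : List ℝ) : Prop := ∀ ε : ℝ, 0 < ε → Few (BadS s k l l' ε)

theorem GPs_meas (s : ℕ → ℕ) (a b k : ℕ) :
    MeasurableSet {p : (Fin a → ℝ) × (Fin b → ℝ) | GPs s k (List.ofFn p.1) (List.ofFn p.2)} := by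
  have e : {p : (Fin a → ℝ) × (Fin b → ℝ) | GPs s k (List.ofFn p.1) (List.ofFn p.2)} =
      ⋂ j : ℕ, ⋂ A : ℕ, ⋃ N0 : ℕ, ⋂ N : ℕ, ⋂ _ : N0 ≤ N, {p : (Fin a → ℝ) × (Fin b → ℝ) |
        (Nat.card (YS s (List.ofFn p.1) (List.ofFn p.2) k (1 / ((j : ℝ) + 1)) N) : ℝ) ≤ N / Real.log N ^ A} := by
    ext p
    simp only [Set.mem_iInter, Set.mem_iUnion, Set.mem_setOf_eq]
    constructor
    · intro h j A
      exact (h (1 / ((j : ℝ) + 1)) (by positivity) A).exists_forall_of_atTop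
    · intro h ε hε A
      obtain ⟨j, hj⟩ := exists_nat_one_div_lt hε
      obtain ⟨N0, h0⟩ := h j A
      filter_upwards [eventually_ge_atTop N0] with N hN
      refine le_trans ?_ (h0 N hN)
      exact_mod_cast YS_anti s _ _ k N hj.le
  rw [e]
  refine MeasurableSet.iInter fun j => MeasurableSet.iInter fun A => MeasurableSet.iUnion fun N0 =>
    MeasurableSet.iInter fun N => MeasurableSet.iInter fun _ => ?_
  exact measurableSet_le ((measurable_from_nat (f := fun m : ℕ => (m : ℝ))).comp (YS_meas s a b k N _)) measurable_const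

theorem full_meas_s (s : ℕ → ℕ) (a b k : ℕ) : MeasurableSet {p : (Fin a → ℝ) × (Fin b → ℝ) |
    (∀ i, 0 < p.1 i) → (∀ j, 0 < p.2 j) → GPs s k (List.ofFn p.1) (List.ofFn p.2)} := by
  have e : {p : (Fin a → ℝ) × (Fin b → ℝ) | (∀ i, 0 < p.1 i) → (∀ j, 0 < p.2 j) → GPs s k (List.ofFn p.1) (List.ofFn p.2)} =
      {p : (Fin a → ℝ) × (Fin b → ℝ) | (∀ i, 0 < p.1 i) ∧ ∀ j, 0 < p.2 j}ᶜ ∪
        {p : (Fin a → ℝ) × (Fin b → ℝ) | GPs s k (List.ofFn p.1) (List.ofFn p.2)} := by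
    ext p
    simp only [Set.mem_setOf_eq, Set.mem_union, Set.mem_compl_iff]
    tauto
  rw [e]
  exact (posset_meas a b).compl.union (GPs_meas s a b k)

/-- from iterated almost every to almost every vector -/
theorem two_vec (a b : ℕ) (G : List ℝ → List ℝ → Prop) (hm : MeasurableSet {p : (Fin a → ℝ) × (Fin b → ℝ) |
    (∀ i, 0 < p.1 i) → (∀ j, 0 < p.2 j) → G (List.ofFn p.1) (List.ofFn p.2)}) (h0 : AE a fun l => AE b fun l' => G l l') :
    ∀ᵐ p : (Fin a → ℝ) × (Fin b → ℝ), (∀ i, 0 < p.1 i) → (∀ j, 0 < p.2 j) → G (List.ofFn p.1) (List.ofFn p.2) := by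
  have h1 : AE a fun l => ∀ᵐ w : Fin b → ℝ, (∀ j, 0 < w j) → G l (List.ofFn w) := by
    refine AE_imp ?_ h0
    intro l hla hl h2
    obtain ⟨v, rfl⟩ : ∃ v : Fin a → ℝ, List.ofFn v = l := by
      subst hla
      exact ⟨l.get, List.ofFn_get l⟩
    refine AE_vec b _ ?_ h2
    have hv : ∀ i, 0 < v i := fun i => hl (v i) (List.mem_ofFn.2 ⟨i, rfl⟩)
    have hs : Measurable fun w : Fin b → ℝ => (v, w) := measurable_const.prodMk measurable_id
    have h3 := hs hm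
    have e : (fun w : Fin b → ℝ => (v, w)) ⁻¹' {p : (Fin a → ℝ) × (Fin b → ℝ) |
        (∀ i, 0 < p.1 i) → (∀ j, 0 < p.2 j) → G (List.ofFn p.1) (List.ofFn p.2)} =
        {w : Fin b → ℝ | (∀ i, 0 < w i) → G (List.ofFn v) (List.ofFn w)} := by
      ext w
      simp only [Set.mem_preimage, Set.mem_setOf_eq]
      exact ⟨fun h => h hv, fun h _ => h⟩
    rwa [e] at h3
  have key : ∀ v : Fin a → ℝ, ((∀ i, 0 < v i) → ∀ᵐ w : Fin b → ℝ, (∀ j, 0 < w j) → G (List.ofFn v) (List.ofFn w)) ↔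
      ∀ᵐ w : Fin b → ℝ, (v, w) ∈ {p : (Fin a → ℝ) × (Fin b → ℝ) |
        (∀ i, 0 < p.1 i) → (∀ j, 0 < p.2 j) → G (List.ofFn p.1) (List.ofFn p.2)} := by
    intro v
    rw [← Filter.eventually_imp_distrib_left]
    rfl
  have h2 := AE_vec a (fun l => ∀ᵐ w : Fin b → ℝ, (∀ j, 0 < w j) → G l (List.ofFn w)) (by
    have e : {v : Fin a → ℝ | (∀ i, 0 < v i) → ∀ᵐ w : Fin b → ℝ, (∀ j, 0 < w j) → G (List.ofFn v) (List.ofFn w)} =
        {v : Fin a → ℝ | ∀ᵐ w : Fin b → ℝ, (v, w) ∈ {p : (Fin a → ℝ) × (Fin b → ℝ) |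
        (∀ i, 0 < p.1 i) → (∀ j, 0 < p.2 j) → G (List.ofFn p.1) (List.ofFn p.2)}} := by
      ext v
      exact key v
    rw [e]
    exact sec_meas' volume hm) h1
  have h3 : (volume : Measure ((Fin a → ℝ) × (Fin b → ℝ))) {p : (Fin a → ℝ) × (Fin b → ℝ) |
      (∀ i, 0 < p.1 i) → (∀ j, 0 < p.2 j) → G (List.ofFn p.1) (List.ofFn p.2)}ᶜ = 0 := by
    rw [Measure.volume_eq_prod, Measure.measure_prod_null hm.compl]
    filter_upwards [h2] with v hv
    exact (key v).1 hv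
  rw [ae_iff]
  exact h3

theorem vec_seq {s : ℕ → ℕ} (hs : StrictMono s) (hB : BaseS s) (a b : ℕ) :
    ∀ᵐ p : (Fin a → ℝ) × (Fin b → ℝ), (∀ i, 0 < p.1 i) → (∀ j, 0 < p.2 j) →
      GPs s (a + b + 2) (List.ofFn p.1) (List.ofFn p.2) :=
  two_vec a b (GPs s (a + b + 2)) (full_meas_s s a b (a + b + 2)) (ae_seq hs hB a b)

/-- fast sequences: no exceptions -/
theorem step_fast (s : ℕ → ℕ) (hs : StrictMono s) (δ : ℝ) (hδ : 0 < δ) (hf : ∀ᶠ m : ℕ in atTop, (m : ℝ) ^ δ ≤ Real.log (s m))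
    (l : List ℝ) (hl : Pos l) (M : ℕ → ℝ) (C E : ℕ) (hM : ∀ v, 0 < v → |M v| ≤ C * Real.log (v + 3) ^ E) :
    ∀ᵐ α : ℝ, 0 < α → ∀ᶠ m : ℕ in atTop,
      |∑ u ∈ Ico 1 (s m), (mu (α :: l) u - mu l u) * M (s m - u)| ≤ s m / Real.log (s m) ^ 1 := by
  apply ae_of_exp (P := fun α => ∀ᶠ m : ℕ in atTop,
      |∑ u ∈ Ico 1 (s m), (mu (α :: l) u - mu l u) * M (s m - u)| ≤ s m / Real.log (s m) ^ 1) one_pos
  obtain ⟨A, hA⟩ : ∃ A : ℕ, 2 / δ ≤ A := ⟨_, Nat.le_ceil _⟩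
  have h1 : ∀ᵐ w : ℝ, ∀ z : ℤ, w ∈ Set.Icc (z : ℝ) (z + 1) → ∀ᶠ m : ℕ in atTop,
      ‖((Real.log (s m) / s m : ℝ) : ℂ) * FF l M (⌈1 / Real.exp (z : ℝ)⌉₊ * (KK l + 1)) (s m) w‖ ≤ 1 := by
    rw [ae_all_iff]
    intro z
    refine (ae_restrict_iff' measurableSet_Icc).1 ?_
    obtain ⟨m1, hm1⟩ := ((hs.tendsto_atTop.eventually (one_l2 l hl M C E hM z (A + 2))).and ((ev_log_s hs 1).and
      (hf.and (eventually_ge_atTop 1)))).exists_forall_of_atTop
    obtain ⟨F, hF⟩ : ∃ F : ℕ → ℝ → ℂ, F = fun m w => ((Real.log (s m) / s m : ℝ) : ℂ) *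
      FF l M (⌈1 / Real.exp (z : ℝ)⌉₊ * (KK l + 1)) (s m) w := ⟨_, rfl⟩
    have hFm : ∀ m, Measurable (F m) := by
      intro m
      rw [hF]
      exact (FF_meas l M _ (s m)).const_mul _
    have hint : ∀ m, m1 ≤ m → ∫⁻ w in Set.Icc (z : ℝ) (z + 1), ‖F m w‖ₑ ^ 2 ≤ ENNReal.ofReal ((m : ℝ) ^ (-2 : ℝ)) := by
      intro m hm
      obtain ⟨h2, h3, h4, h5⟩ := hm1 m hm
      have hsm : m ≤ s m := hs.le_apply
      have hm0 : (0 : ℝ) < m := by exact_mod_cast h5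
      have hm1r : (1 : ℝ) ≤ m := by exact_mod_cast h5
      have hsmr : (m : ℝ) ≤ s m := by exact_mod_cast hsm
      have hs0 : (0 : ℝ) < s m := by linarith
      obtain ⟨L, hL⟩ : ∃ L, L = Real.log (s m : ℝ) := ⟨_, rfl⟩
      rw [← hL] at h2 h3 h4
      have hL0 : 0 < L := by linarith
      have hc0 : 0 ≤ L / (s m : ℝ) := by positivity
      rw [hF]
      simp only [← hL, enorm_mul, mul_pow]
      rw [lintegral_const_mul' _ _ (by
        rw [← ofReal_norm]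
        simp)]
      have e1 : ‖((L / (s m : ℝ) : ℝ) : ℂ)‖ₑ ^ 2 = ENNReal.ofReal ((L / (s m : ℝ)) ^ 2) := by
        rw [← ofReal_norm, Complex.norm_real, Real.norm_eq_abs, abs_of_nonneg hc0, ENNReal.ofReal_pow hc0]
      rw [e1]
      refine (mul_le_mul_right h2 _).trans ?_
      rw [← ENNReal.ofReal_mul (by positivity)]
      apply ENNReal.ofReal_le_ofReal
      have e2 : (L / (s m : ℝ)) ^ 2 * ((s m : ℝ) ^ 2 / L ^ (A + 2)) = 1 / L ^ A := by
        rw [pow_add]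
        field_simp
      rw [e2, Real.rpow_neg hm0.le, ← one_div]
      apply one_div_le_one_div_of_le (by positivity)
      calc (m : ℝ) ^ (2 : ℝ) ≤ (m : ℝ) ^ (δ * A) := by
            apply Real.rpow_le_rpow_of_exponent_le hm1r
            rw [div_le_iff₀ hδ] at hA
            linarith
        _ = ((m : ℝ) ^ δ) ^ A := by
            rw [Real.rpow_mul hm0.le, Real.rpow_natCast]
        _ ≤ L ^ A := by
            apply pow_le_pow_left₀ (by positivity) h4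
    have hGi : ∀ i : ℕ, ∫⁻ w in Set.Icc (z : ℝ) (z + 1), ‖F (i + (m1 + 1)) w‖ₑ ^ 2 ≤ ENNReal.ofReal (((i + 1 : ℕ) : ℝ) ^ (-2 : ℝ)) := by
      intro i
      refine (hint (i + (m1 + 1)) (by omega)).trans (ENNReal.ofReal_le_ofReal ?_)
      apply Real.rpow_le_rpow_of_nonpos (by positivity) _ (by norm_num)
      exact_mod_cast (by omega : i + 1 ≤ i + (m1 + 1))
    have hsum0 : Summable (fun i : ℕ => ((i + 1 : ℕ) : ℝ) ^ (-2 : ℝ)) := by
      have h1 : Summable (fun N : ℕ => (N : ℝ) ^ (-2 : ℝ)) := Real.summable_nat_rpow.2 (by norm_num)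
      exact (summable_nat_add_iff (f := fun N : ℕ => (N : ℝ) ^ (-2 : ℝ)) 1).2 h1
    have hfin : ∫⁻ w in Set.Icc (z : ℝ) (z + 1), ∑' i : ℕ, ‖F (i + (m1 + 1)) w‖ₑ ^ 2 ≠ ⊤ := by
      rw [lintegral_tsum fun i => ((hFm _).enorm.pow_const 2).aemeasurable]
      refine ne_of_lt (lt_of_le_of_lt (ENNReal.tsum_le_tsum hGi) ?_)
      exact hsum0.tsum_ofReal_lt_top
    have hae := ae_lt_top (Measurable.tsum fun i : ℕ => (hFm (i + (m1 + 1))).enorm.pow_const 2) hfin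
    filter_upwards [hae] with w hw
    have ht := ENNReal.tendsto_atTop_zero_of_tsum_ne_top hw.ne
    have h1 : ∀ᶠ i : ℕ in atTop, ‖F (i + (m1 + 1)) w‖ₑ ^ 2 ≤ 1 := ht.eventually_le_const (by norm_num)
    obtain ⟨i1, hi1⟩ := h1.exists_forall_of_atTop
    filter_upwards [eventually_ge_atTop (i1 + (m1 + 1))] with m hm
    have h2 := hi1 (m - (m1 + 1)) (by omega)
    rw [show m - (m1 + 1) + (m1 + 1) = m by omega] at h2
    have h3 : ‖F m w‖ ^ 2 ≤ 1 := by
      have e2 : ‖F m w‖ₑ ^ 2 = ENNReal.ofReal (‖F m w‖ ^ 2) := by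
        rw [ENNReal.ofReal_pow (norm_nonneg _), ofReal_norm]
      rw [e2, ← ENNReal.ofReal_one, ENNReal.ofReal_le_ofReal_iff (by norm_num)] at h2
      exact h2
    have h4 : ‖F m w‖ ≤ 1 := by
      nlinarith [norm_nonneg (F m w)]
    rw [hF] at h4
    exact h4
  filter_upwards [h1] with w hw
  filter_upwards [hw ⌊w⌋ ⟨Int.floor_le w, (Int.lt_floor_add_one w).le⟩, ev_log_s hs 1, eventually_ge_atTop 1] with m h5 h3 h4
  have hsm : m ≤ s m := hs.le_apply
  have hm0 : (0 : ℝ) < m := by exact_mod_cast (by omega : 0 < m)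
  have hsmr : (m : ℝ) ≤ s m := by exact_mod_cast hsm
  have hs0 : (0 : ℝ) < s m := by linarith
  have hL0 : 0 < Real.log (s m : ℝ) := by linarith
  rw [one_mul, pow_one]
  rw [norm_mul, FF_eq cI1 l hl M _ (s m) (Int.floor_le w), Complex.norm_real, Complex.norm_real, Real.norm_eq_abs, Real.norm_eq_abs,
    abs_of_nonneg (show 0 ≤ Real.log (s m : ℝ) / s m by positivity), div_mul_eq_mul_div, div_le_one hs0] at h5
  rw [le_div_iff₀ hL0, mul_comm]
  exact h5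

theorem law_fast {s : ℕ → ℕ} (hs : StrictMono s) (δ : ℝ) (hδ : 0 < δ)
    (hf : ∀ᶠ m : ℕ in atTop, (m : ℝ) ^ δ ≤ Real.log (s m)) (l l' : List ℝ) (hl : Pos l) (hl' : Pos l') :
    ∀ᵐ α : ℝ, 0 < α → ∀ ε : ℝ, 0 < ε → ∀ᶠ m : ℕ in atTop,
      |α * Real.log (s m) * Nat.card (RD (α :: l) l' (s m)) - Nat.card (RD l l' (s m))| ≤
        ε * (Nat.card (RD l l' (s m)) + s m / Real.log (s m) ^ (l.length + l'.length + 2)) := by
  obtain ⟨C1, E1, -, -, -, h2⟩ := cMB l' hl'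
  filter_upwards [step_fast s hs δ hδ hf l hl (mu l') C1 E1 h2] with α h1 h0 ε hε
  filter_upwards [h1 h0, hs.tendsto_atTop.eventually (law_pt l l' hl hl' α h0 ε hε)] with m h3 h4
  exact h4 h3

end Pool.Agent.D0H91.GI
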