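import Mathlib
import Pool.Agent.D0H91.GI.SeqD

/-! Along arbitrary increasing sequences: the generic problem is equivalent to the classical one. -/

set_option autoImplicit false

namespace Pool.Agent.D0H91.GI

open Finset MeasureTheory Filter Topology
open scoped ENNReal
open Pool.Agent.D0H91.MG
open Pool.Agent.H560R3.GB (sing energy g HL)

/-- the bad indices for the classical problem -/
def Bad0 (s : ℕ → ℕ) (ε : ℝ) (m : ℕ) : Prop :=
  ¬ |(g (s m) : ℝ) * Real.log (s m) ^ 2 - sing (s m) * s m| ≤ ε * (sing (s m) * s m)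

theorem core_pt2 (l l' : List ℝ) (hl : Pos l) (hl' : Pos l') (ε : ℝ) (hε : 0 < ε) (hε1 : ε ≤ 1) : ∀ᶠ n : ℕ in atTop,
    |(Nat.card (RD l l' n) : ℝ) * (l.prod * l'.prod) * Real.log n ^ (l.length + l'.length + 2) - sing n * n| ≤
      ε / 40 * (sing n * n) →
    |∑ u ∈ Ico 1 n, (mu l u - mu [] u) * mu [] (n - u)| ≤ n / Real.log n ^ 1 →
    |∑ u ∈ Ico 1 n, (mu l' u - mu [] u) * mu l (n - u)| ≤ n / Real.log n ^ 1 →
    |(g n : ℝ) * Real.log n ^ 2 - sing n * n| ≤ ε * (sing n * n) := by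
  obtain ⟨c, hc⟩ := RD_RS cTR cMB l l' hl hl'
  have hlp : 0 < l.prod := List.prod_pos hl
  have hlp' : 0 < l'.prod := List.prod_pos hl'
  obtain ⟨P, hP⟩ : ∃ P, P = l.prod * l'.prod := ⟨_, rfl⟩
  have hP0 : 0 < P := by
    rw [hP]
    positivity
  filter_upwards [cCT l l' hl hl' (ε / 20) (by positivity), cCT [] [] pos_nil pos_nil (ε / 20) (by positivity),
    ev_logge (40 / ε), ev_logpow (c * P / (ε / 40)) (l.length + l'.length + 2), eventually_ge_atTop 1] with n q1 q2 h3 h4 h5 k1 k2 k3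
  have hn1 : (1 : ℝ) ≤ n := by exact_mod_cast h5
  have hL0 : 0 < Real.log (n : ℝ) := lt_of_lt_of_le (by positivity) h3
  simp only [List.prod_nil, List.length_nil, mul_one, one_mul, zero_add] at q2
  rw [pow_one] at k2 k3
  have q3 : |TT l l' n - TT [] [] n| ≤ ε / 20 * n := by
    rw [TT_diff]
    refine (abs_add_le _ _).trans ?_
    have e1 : (n : ℝ) / Real.log n + n / Real.log n ≤ ε / 20 * n := by
      calc (n : ℝ) / Real.log n + n / Real.log n = ε / 20 * n * ((40 / ε) / Real.log n) := by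
            field_simp
            ring
        _ ≤ ε / 20 * n * 1 := by
            gcongr
            rw [div_le_one hL0]
            exact h3
        _ = _ := mul_one _
    linarith
  rw [abs_sub_comm] at q3
  have hs := Pool.Agent.W93.GB.one_le_sing n
  have hSn : (n : ℝ) ≤ sing n * n := by nlinarith
  obtain ⟨g2, g3⟩ := hc n
  rw [RS_card cTR l l' hl hl'] at g2 g3
  have g2' : (Nat.card (RD l l' n) : ℝ) ≤ rr l l' n := by exact_mod_cast g2
  have g3' : (rr l l' n : ℝ) ≤ Nat.card (RD l l' n) + c := by exact_mod_cast g3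
  obtain ⟨ℓ, hℓ⟩ : ∃ ℓ, ℓ = P * Real.log (n : ℝ) ^ (l.length + l'.length + 2) := ⟨_, rfl⟩
  have hℓ0 : 0 ≤ ℓ := by
    rw [hℓ]
    positivity
  have g4 : c * ℓ ≤ ε / 40 * n := by
    rw [hℓ]
    calc (c : ℝ) * (P * Real.log (n : ℝ) ^ (l.length + l'.length + 2)) =
          ε / 40 * (c * P / (ε / 40) * Real.log n ^ (l.length + l'.length + 2)) := by
          field_simp
      _ ≤ ε / 40 * n := by gcongr
  have g5 := mul_le_mul_of_nonneg_right g2' hℓ0
  have g6 := mul_le_mul_of_nonneg_right g3' hℓ0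
  have g7 : ε / 40 * (n : ℝ) ≤ ε / 40 * (sing n * n) := by gcongr
  have hX0 : |l.prod * l'.prod * Real.log n ^ (l.length + l'.length + 2) * rr l l' n - sing n * n| ≤ ε / 20 * (sing n * n) := by
    rw [mul_assoc, ← hP, ← hℓ] at k1
    rw [← hP, ← hℓ]
    rw [abs_le] at k1 ⊢
    constructor <;> linarith
  have hfin := last (ε := ε) (X := Real.log n ^ 2 * rr [] [] n) (X0 := l.prod * l'.prod * Real.log n ^ (l.length + l'.length + 2) * rr l l' n)
    (T := TT [] [] n) (T0 := TT l l' n) (S := sing n * n) (n := n)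
    hε hε1 hSn (by linarith) (by positivity) q2 q1 hX0 q3
  rw [Pool.Agent.D0H42.GI.rr_nil, mul_comm] at hfin
  exact hfin

/-- notions of smallness -/
structure Small (S : (ℕ → Prop) → Prop) : Prop where
  mono : ∀ {P Q : ℕ → Prop}, (∀ᶠ m : ℕ in atTop, P m → Q m) → S Q → S P
  or : ∀ {P Q : ℕ → Prop}, S P → S Q → S fun m => P m ∨ Q m
  bot : S fun _ => False

theorem small_few : Small Few := by
  refine ⟨few_mono, few_or, few_mono (Q := fun m => m ≤ 0) ?_ (few_lt 0)⟩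
  exact Filter.Eventually.of_forall fun m h => h.elim

/-- only finitely many -/
def Fin' (P : ℕ → Prop) : Prop := ∀ᶠ m : ℕ in atTop, ¬ P m

theorem small_fin : Small Fin' := by
  refine ⟨?_, ?_, ?_⟩
  · intro P Q h hQ
    filter_upwards [h, hQ] with m h1 h2 h3
    exact h2 (h1 h3)
  · intro P Q hP hQ
    filter_upwards [hP, hQ] with m h1 h2 h3
    rcases h3 with h3 | h3
    · exact h1 h3
    · exact h2 h3
  · exact Filter.Eventually.of_forall fun m h => h

/-- the step, for a notion of smallness -/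
def StepS (S : (ℕ → Prop) → Prop) (s : ℕ → ℕ) : Prop := ∀ l, Pos l → ∀ (M : ℕ → ℝ) (C E : ℕ),
  (∀ v, 0 < v → |M v| ≤ C * Real.log (v + 3) ^ E) → ∀ᵐ α : ℝ, 0 < α →
    ∀ B : ℕ, S fun m => (s m : ℝ) / Real.log (s m) ^ B < |∑ u ∈ Ico 1 (s m), (mu (α :: l) u - mu l u) * M (s m - u)|

variable {S : (ℕ → Prop) → Prop}

theorem ae_sg (hS : Small S) {s : ℕ → ℕ} (hs : StrictMono s) (hst : StepS S s) (M : ℕ → ℝ) (C E : ℕ)
    (hM : ∀ v, 0 < v → |M v| ≤ C * Real.log (v + 3) ^ E) (k : ℕ) :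
    AE k fun l => ∀ B : ℕ, S fun m => (s m : ℝ) / Real.log (s m) ^ B < |∑ u ∈ Ico 1 (s m), (mu l u - mu [] u) * M (s m - u)| := by
  induction k with
  | zero =>
    intro B
    refine hS.mono (Q := fun _ => False) ?_ hS.bot
    filter_upwards with m hm
    simp only [sub_self, zero_mul, Finset.sum_const_zero, abs_zero] at hm
    have : 0 ≤ Real.log (s m : ℝ) := Real.log_natCast_nonneg _
    have h2 : 0 ≤ (s m : ℝ) / Real.log (s m) ^ B := by positivity
    linarith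
  | succ k ih =>
    refine AE_imp (k := k) (P := fun l => ∀ B : ℕ, S fun m => (s m : ℝ) / Real.log (s m) ^ B <
        |∑ u ∈ Ico 1 (s m), (mu l u - mu [] u) * M (s m - u)|)
      (Q := fun l => ∀ᵐ α : ℝ, 0 < α → ∀ B : ℕ, S fun m => (s m : ℝ) / Real.log (s m) ^ B <
        |∑ u ∈ Ico 1 (s m), (mu (α :: l) u - mu [] u) * M (s m - u)|) ?_ ih
    intro l _ hl h1
    filter_upwards [hst l hl M C E hM] with α hα h0 B
    refine hS.mono ?_ (hS.or (hα h0 (B + 1)) (h1 (B + 1)))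
    filter_upwards [ev_log_s hs 2] with m hm h
    by_contra hc
    push Not at hc
    have hL0 : 0 < Real.log (s m : ℝ) := by linarith
    have e1 : (s m : ℝ) / Real.log (s m) ^ (B + 1) + s m / Real.log (s m) ^ (B + 1) ≤ s m / Real.log (s m) ^ B := by
      calc (s m : ℝ) / Real.log (s m) ^ (B + 1) + s m / Real.log (s m) ^ (B + 1) = s m / Real.log (s m) ^ B * (2 / Real.log (s m)) := by
            rw [pow_succ]
            field_simp
            ring
        _ ≤ s m / Real.log (s m) ^ B * 1 := by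
            gcongr
            rw [div_le_one hL0]
            exact hm
        _ = _ := mul_one _
    have e : ∑ u ∈ Ico 1 (s m), (mu (α :: l) u - mu [] u) * M (s m - u) =
        ∑ u ∈ Ico 1 (s m), (mu (α :: l) u - mu l u) * M (s m - u) + ∑ u ∈ Ico 1 (s m), (mu l u - mu [] u) * M (s m - u) := by
      rw [← Finset.sum_add_distrib]
      refine Finset.sum_congr rfl fun u _ => ?_
      ring
    rw [e] at h
    have := abs_add_le (∑ u ∈ Ico 1 (s m), (mu (α :: l) u - mu l u) * M (s m - u)) (∑ u ∈ Ico 1 (s m), (mu l u - mu [] u) * M (s m - u))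
    linarith [hc.1, hc.2]

theorem pair_iff (hS : Small S) {s : ℕ → ℕ} (hs : StrictMono s) (l l' : List ℝ) (hl : Pos l) (hl' : Pos l')
    (h1 : ∀ B : ℕ, S fun m => (s m : ℝ) / Real.log (s m) ^ B < |∑ u ∈ Ico 1 (s m), (mu l u - mu [] u) * mu [] (s m - u)|)
    (h2 : ∀ B : ℕ, S fun m => (s m : ℝ) / Real.log (s m) ^ B < |∑ u ∈ Ico 1 (s m), (mu l' u - mu [] u) * mu l (s m - u)|) :
    (∀ ε : ℝ, 0 < ε → S (Bad0 s ε)) ↔ (∀ ε : ℝ, 0 < ε → S (BadS s (l.length + l'.length + 2) l l' ε)) := by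
  constructor
  · intro hB ε hε
    obtain ⟨δ, hδ⟩ : ∃ δ, δ = min (ε / 2) 1 := ⟨_, rfl⟩
    have hδ0 : 0 < δ := by
      rw [hδ]
      positivity
    have hδ1 : δ ≤ 1 := by
      rw [hδ]
      exact min_le_right _ _
    have hδε : 2 * δ ≤ ε := by
      have : δ ≤ ε / 2 := by
        rw [hδ]
        exact min_le_left _ _
      linarith
    refine hS.mono ?_ (hS.or (hB (δ / 20) (by positivity)) (hS.or (h1 1) (h2 1)))
    filter_upwards [hs.tendsto_atTop.eventually (core_pt l l' hl hl' δ hδ0 hδ1)] with m hm hbad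
    by_contra hc
    push Not at hc
    obtain ⟨c1, c2, c3⟩ := hc
    apply hbad
    rw [Pool.Agent.D0H42.GI.rr_nil] at hm
    unfold Bad0 at c1
    rw [not_not] at c1
    refine (hm c1 c2 c3).trans ?_
    apply mul_le_mul_of_nonneg_right hδε
    have := Pool.Agent.W93.GB.one_le_sing (s m)
    positivity
  · intro hB ε hε
    obtain ⟨δ, hδ⟩ : ∃ δ, δ = min ε 1 := ⟨_, rfl⟩
    have hδ0 : 0 < δ := by
      rw [hδ]
      positivity
    have hδ1 : δ ≤ 1 := by
      rw [hδ]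
      exact min_le_right _ _
    have hδε : δ ≤ ε := by
      rw [hδ]
      exact min_le_left _ _
    refine hS.mono ?_ (hS.or (hB (δ / 40) (by positivity)) (hS.or (h1 1) (h2 1)))
    filter_upwards [hs.tendsto_atTop.eventually (core_pt2 l l' hl hl' δ hδ0 hδ1)] with m hm hbad
    by_contra hc
    push Not at hc
    obtain ⟨c1, c2, c3⟩ := hc
    apply hbad
    unfold BadS at c1
    rw [not_not] at c1
    refine (hm c1 c2 c3).trans ?_
    apply mul_le_mul_of_nonneg_right hδε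
    have := Pool.Agent.W93.GB.one_le_sing (s m)
    positivity

theorem ae_iff_seq (hS : Small S) {s : ℕ → ℕ} (hs : StrictMono s) (hst : StepS S s) (a b : ℕ) :
    AE a fun l => AE b fun l' => ((∀ ε : ℝ, 0 < ε → S (Bad0 s ε)) ↔ (∀ ε : ℝ, 0 < ε → S (BadS s (a + b + 2) l l' ε))) := by
  obtain ⟨C0, E0, -, -, -, h0⟩ := cMB [] pos_nil
  refine AE_imp ?_ (ae_sg hS hs hst (mu []) C0 E0 h0 a)
  intro l hla hl h1
  obtain ⟨C1, E1, -, -, -, h2⟩ := cMB l hl
  refine AE_imp ?_ (ae_sg hS hs hst (mu l) C1 E1 h2 b)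
  intro l' hlb hl' h3
  have h4 := pair_iff hS hs l l' hl hl' h1 h3
  rw [hla, hlb] at h4
  exact h4

theorem iff_meas (s : ℕ → ℕ) (a b k : ℕ) (hm : MeasurableSet {p : (Fin a → ℝ) × (Fin b → ℝ) |
    ∀ ε : ℝ, 0 < ε → S (BadS s k (List.ofFn p.1) (List.ofFn p.2) ε)}) : MeasurableSet {p : (Fin a → ℝ) × (Fin b → ℝ) |
    (∀ i, 0 < p.1 i) → (∀ j, 0 < p.2 j) →
      ((∀ ε : ℝ, 0 < ε → S (Bad0 s ε)) ↔ (∀ ε : ℝ, 0 < ε → S (BadS s k (List.ofFn p.1) (List.ofFn p.2) ε)))} := by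
  have e : {p : (Fin a → ℝ) × (Fin b → ℝ) | (∀ i, 0 < p.1 i) → (∀ j, 0 < p.2 j) →
      ((∀ ε : ℝ, 0 < ε → S (Bad0 s ε)) ↔ (∀ ε : ℝ, 0 < ε → S (BadS s k (List.ofFn p.1) (List.ofFn p.2) ε)))} =
      {p : (Fin a → ℝ) × (Fin b → ℝ) | (∀ i, 0 < p.1 i) ∧ ∀ j, 0 < p.2 j}ᶜ ∪
        {p : (Fin a → ℝ) × (Fin b → ℝ) | (∀ ε : ℝ, 0 < ε → S (Bad0 s ε)) ↔
          (∀ ε : ℝ, 0 < ε → S (BadS s k (List.ofFn p.1) (List.ofFn p.2) ε))} := by
    ext p
    simp only [Set.mem_setOf_eq, Set.mem_union, Set.mem_compl_iff]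
    tauto
  rw [e]
  refine (posset_meas a b).compl.union ?_
  by_cases h : ∀ ε : ℝ, 0 < ε → S (Bad0 s ε)
  · have e2 : {p : (Fin a → ℝ) × (Fin b → ℝ) | (∀ ε : ℝ, 0 < ε → S (Bad0 s ε)) ↔
          (∀ ε : ℝ, 0 < ε → S (BadS s k (List.ofFn p.1) (List.ofFn p.2) ε))} =
        {p : (Fin a → ℝ) × (Fin b → ℝ) | ∀ ε : ℝ, 0 < ε → S (BadS s k (List.ofFn p.1) (List.ofFn p.2) ε)} := by
      ext p
      simp only [Set.mem_setOf_eq]
      exact ⟨fun h1 => h1.1 h, fun h1 => ⟨fun _ => h1, fun _ => h⟩⟩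
    rw [e2]
    exact hm
  · have e2 : {p : (Fin a → ℝ) × (Fin b → ℝ) | (∀ ε : ℝ, 0 < ε → S (Bad0 s ε)) ↔
          (∀ ε : ℝ, 0 < ε → S (BadS s k (List.ofFn p.1) (List.ofFn p.2) ε))} =
        {p : (Fin a → ℝ) × (Fin b → ℝ) | ∀ ε : ℝ, 0 < ε → S (BadS s k (List.ofFn p.1) (List.ofFn p.2) ε)}ᶜ := by
      ext p
      simp only [Set.mem_setOf_eq, Set.mem_compl_iff]
      exact ⟨fun h1 h2 => h (h1.2 h2), fun h1 => ⟨fun h2 => (h h2).elim, fun h2 => (h1 h2).elim⟩⟩
    rw [e2]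
    exact hm.compl

theorem BadS_meas (s : ℕ → ℕ) (a b k m : ℕ) (ε : ℝ) :
    MeasurableSet {p : (Fin a → ℝ) × (Fin b → ℝ) | BadS s k (List.ofFn p.1) (List.ofFn p.2) ε m} := by
  have hpr : ∀ c : ℕ, Measurable fun v : Fin c → ℝ => (List.ofFn v).prod := by
    intro c
    simp only [List.prod_ofFn]
    exact Finset.measurable_fun_prod _ fun i _ => measurable_pi_apply i
  have h1 : Measurable fun p : (Fin a → ℝ) × (Fin b → ℝ) => |(Nat.card (RD (List.ofFn p.1) (List.ofFn p.2) (s m)) : ℝ) *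
      ((List.ofFn p.1).prod * (List.ofFn p.2).prod) * Real.log (s m) ^ k - sing (s m) * s m| := by
    apply Measurable.abs
    apply Measurable.sub_const
    apply Measurable.mul_const
    apply Measurable.mul
    · exact (measurable_from_nat (f := fun m : ℕ => (m : ℝ))).comp (RD_meas a b (s m))
    · exact ((hpr a).comp measurable_fst).mul ((hpr b).comp measurable_snd)
  have h2 : MeasurableSet {p : (Fin a → ℝ) × (Fin b → ℝ) | |(Nat.card (RD (List.ofFn p.1) (List.ofFn p.2) (s m)) : ℝ) *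
      ((List.ofFn p.1).prod * (List.ofFn p.2).prod) * Real.log (s m) ^ k - sing (s m) * s m| ≤ ε * (sing (s m) * s m)} :=
    measurableSet_le h1 measurable_const
  exact h2.compl

theorem fin_meas (s : ℕ → ℕ) (a b k : ℕ) : MeasurableSet {p : (Fin a → ℝ) × (Fin b → ℝ) |
    ∀ ε : ℝ, 0 < ε → Fin' (BadS s k (List.ofFn p.1) (List.ofFn p.2) ε)} := by
  have e : {p : (Fin a → ℝ) × (Fin b → ℝ) | ∀ ε : ℝ, 0 < ε → Fin' (BadS s k (List.ofFn p.1) (List.ofFn p.2) ε)} =
      ⋂ j : ℕ, ⋃ N0 : ℕ, ⋂ m : ℕ, ⋂ _ : N0 ≤ m, {p : (Fin a → ℝ) × (Fin b → ℝ) |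
        BadS s k (List.ofFn p.1) (List.ofFn p.2) (1 / ((j : ℝ) + 1)) m}ᶜ := by
    ext p
    simp only [Set.mem_iInter, Set.mem_iUnion, Set.mem_setOf_eq, Set.mem_compl_iff]
    constructor
    · intro h j
      exact (h (1 / ((j : ℝ) + 1)) (by positivity)).exists_forall_of_atTop
    · intro h ε hε
      obtain ⟨j, hj⟩ := exists_nat_one_div_lt hε
      obtain ⟨N0, h0⟩ := h j
      change ∀ᶠ m : ℕ in atTop, ¬ BadS s k (List.ofFn p.1) (List.ofFn p.2) ε m
      filter_upwards [eventually_ge_atTop N0] with m hm hb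
      refine h0 m hm (fun h5 => hb (h5.trans ?_))
      apply mul_le_mul_of_nonneg_right hj.le
      have := Pool.Agent.W93.GB.one_le_sing (s m)
      positivity
  rw [e]
  refine MeasurableSet.iInter fun j => MeasurableSet.iUnion fun N0 =>
    MeasurableSet.iInter fun m => MeasurableSet.iInter fun _ => ?_
  exact (BadS_meas s a b k m _).compl

/-- few exceptions, every sequence -/
theorem step_few {s : ℕ → ℕ} (hs : StrictMono s) : StepS Few s := by
  intro l hl M C E hM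
  exact step_seq s hs l hl M C E hM

theorem equiv_few {s : ℕ → ℕ} (hs : StrictMono s) (a b : ℕ) : ∀ᵐ p : (Fin a → ℝ) × (Fin b → ℝ),
    (∀ i, 0 < p.1 i) → (∀ j, 0 < p.2 j) →
      ((∀ ε : ℝ, 0 < ε → Few (Bad0 s ε)) ↔ (∀ ε : ℝ, 0 < ε → Few (BadS s (a + b + 2) (List.ofFn p.1) (List.ofFn p.2) ε))) :=
  two_vec a b (fun l l' => ((∀ ε : ℝ, 0 < ε → Few (Bad0 s ε)) ↔ (∀ ε : ℝ, 0 < ε → Few (BadS s (a + b + 2) l l' ε))))
    (iff_meas s a b (a + b + 2) (GPs_meas s a b (a + b + 2))) (ae_iff_seq small_few hs (step_few hs) a b)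

end Pool.Agent.D0H91.GI
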