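import Mathlib
import Pool.Agent.D0H91.GI.SeqE

/-! Fast sequences, and the theorems in the final form. -/

set_option autoImplicit false

namespace Pool.Agent.D0H91.GI

open Finset MeasureTheory Filter Topology
open scoped ENNReal
open Pool.Agent.D0H91.MG
open Pool.Agent.H560R3.GB (sing energy g HL)

/-- fast sequences: no exceptions -/
theorem step_fastB (s : ℕ → ℕ) (hs : StrictMono s) (δ : ℝ) (hδ : 0 < δ) (hf : ∀ᶠ m : ℕ in atTop, (m : ℝ) ^ δ ≤ Real.log (s m))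
    (l : List ℝ) (hl : Pos l) (M : ℕ → ℝ) (C E : ℕ) (hM : ∀ v, 0 < v → |M v| ≤ C * Real.log (v + 3) ^ E) :
    ∀ᵐ α : ℝ, 0 < α → ∀ B : ℕ, ∀ᶠ m : ℕ in atTop,
      |∑ u ∈ Ico 1 (s m), (mu (α :: l) u - mu l u) * M (s m - u)| ≤ s m / Real.log (s m) ^ B := by
  apply ae_of_exp (P := fun α => ∀ B : ℕ, ∀ᶠ m : ℕ in atTop,
      |∑ u ∈ Ico 1 (s m), (mu (α :: l) u - mu l u) * M (s m - u)| ≤ s m / Real.log (s m) ^ B) one_pos
  obtain ⟨A, hA⟩ : ∃ A : ℕ, 2 / δ ≤ A := ⟨_, Nat.le_ceil _⟩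
  have h1 : ∀ᵐ w : ℝ, ∀ (z : ℤ) (B : ℕ), w ∈ Set.Icc (z : ℝ) (z + 1) → ∀ᶠ m : ℕ in atTop,
      ‖((Real.log (s m) ^ B / s m : ℝ) : ℂ) * FF l M (⌈1 / Real.exp (z : ℝ)⌉₊ * (KK l + 1)) (s m) w‖ ≤ 1 := by
    rw [ae_all_iff]
    intro z
    rw [ae_all_iff]
    intro B
    refine (ae_restrict_iff' measurableSet_Icc).1 ?_
    obtain ⟨m1, hm1⟩ := ((hs.tendsto_atTop.eventually (one_l2 l hl M C E hM z (A + 2 * B))).and ((ev_log_s hs 1).and
      (hf.and (eventually_ge_atTop 1)))).exists_forall_of_atTop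
    obtain ⟨F, hF⟩ : ∃ F : ℕ → ℝ → ℂ, F = fun m w => ((Real.log (s m) ^ B / s m : ℝ) : ℂ) *
      FF l M (⌈1 / Real.exp (z : ℝ)⌉₊ * (KK l + 1)) (s m) w := ⟨_, rfl⟩
    have hFm : ∀ m, Measurable (F m) := by
      intro m
      rw [hF]
      exact (FF_meas l M _ (s m)).const_mul _
    have hint : ∀ m, m1 ≤ m → ∫⁻ w in Set.Icc (z : ℝ) (z + 1), ‖F m w‖ₑ ^ 2 ≤ ENNReal.ofReal ((m : ℝ) ^ (-2 : ℝ)) := by
      intro m hm
      obtain ⟨h2, h3, h4, h5⟩ := hm1 m hm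
      have hsm : m ≤ s m := hs.le_apply
      have hm0 : (0 : ℝ) < m := by exact_mod_cast h5
      have hm1r : (1 : ℝ) ≤ m := by exact_mod_cast h5
      have hsmr : (m : ℝ) ≤ s m := by exact_mod_cast hsm
      have hs0 : (0 : ℝ) < s m := by linarith
      obtain ⟨L, hL⟩ : ∃ L, L = Real.log (s m : ℝ) := ⟨_, rfl⟩
      rw [← hL] at h2 h3 h4
      have hL0 : 0 < L := by linarith
      have hc0 : 0 ≤ L ^ B / (s m : ℝ) := by positivity
      rw [hF]
      simp only [← hL, enorm_mul, mul_pow]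
      rw [lintegral_const_mul' _ _ (by
        rw [← ofReal_norm]
        simp)]
      have e1 : ‖((L ^ B / (s m : ℝ) : ℝ) : ℂ)‖ₑ ^ 2 = ENNReal.ofReal ((L ^ B / (s m : ℝ)) ^ 2) := by
        rw [← ofReal_norm, Complex.norm_real, Real.norm_eq_abs, abs_of_nonneg hc0, ENNReal.ofReal_pow hc0]
      rw [e1]
      refine (mul_le_mul_right h2 _).trans ?_
      rw [← ENNReal.ofReal_mul (by positivity)]
      apply ENNReal.ofReal_le_ofReal
      have e2 : (L ^ B / (s m : ℝ)) ^ 2 * ((s m : ℝ) ^ 2 / L ^ (A + 2 * B)) = 1 / L ^ A := by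
        rw [pow_add, mul_comm 2 B, pow_mul]
        have : 0 < L ^ B := by positivity
        field_simp
      rw [e2, Real.rpow_neg hm0.le, ← one_div]
      apply one_div_le_one_div_of_le (by positivity)
      calc (m : ℝ) ^ (2 : ℝ) ≤ (m : ℝ) ^ (δ * A) := by
            apply Real.rpow_le_rpow_of_exponent_le hm1r
            rw [div_le_iff₀ hδ] at hA
            linarith
        _ = ((m : ℝ) ^ δ) ^ A := by
            rw [Real.rpow_mul hm0.le, Real.rpow_natCast]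
        _ ≤ L ^ A := by
            apply pow_le_pow_left₀ (by positivity) h4
    have hGi : ∀ i : ℕ, ∫⁻ w in Set.Icc (z : ℝ) (z + 1), ‖F (i + (m1 + 1)) w‖ₑ ^ 2 ≤ ENNReal.ofReal (((i + 1 : ℕ) : ℝ) ^ (-2 : ℝ)) := by
      intro i
      refine (hint (i + (m1 + 1)) (by omega)).trans (ENNReal.ofReal_le_ofReal ?_)
      apply Real.rpow_le_rpow_of_nonpos (by positivity) _ (by norm_num)
      exact_mod_cast (by omega : i + 1 ≤ i + (m1 + 1))
    have hsum0 : Summable (fun i : ℕ => ((i + 1 : ℕ) : ℝ) ^ (-2 : ℝ)) := by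
      have h1 : Summable (fun N : ℕ => (N : ℝ) ^ (-2 : ℝ)) := Real.summable_nat_rpow.2 (by norm_num)
      exact (summable_nat_add_iff (f := fun N : ℕ => (N : ℝ) ^ (-2 : ℝ)) 1).2 h1
    have hfin : ∫⁻ w in Set.Icc (z : ℝ) (z + 1), ∑' i : ℕ, ‖F (i + (m1 + 1)) w‖ₑ ^ 2 ≠ ⊤ := by
      rw [lintegral_tsum fun i => ((hFm _).enorm.pow_const 2).aemeasurable]
      refine ne_of_lt (lt_of_le_of_lt (ENNReal.tsum_le_tsum hGi) ?_)
      exact hsum0.tsum_ofReal_lt_top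
    have hae := ae_lt_top (Measurable.tsum fun i : ℕ => (hFm (i + (m1 + 1))).enorm.pow_const 2) hfin
    filter_upwards [hae] with w hw
    have ht := ENNReal.tendsto_atTop_zero_of_tsum_ne_top hw.ne
    have h1 : ∀ᶠ i : ℕ in atTop, ‖F (i + (m1 + 1)) w‖ₑ ^ 2 ≤ 1 := ht.eventually_le_const (by norm_num)
    obtain ⟨i1, hi1⟩ := h1.exists_forall_of_atTop
    filter_upwards [eventually_ge_atTop (i1 + (m1 + 1))] with m hm
    have h2 := hi1 (m - (m1 + 1)) (by omega)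
    rw [show m - (m1 + 1) + (m1 + 1) = m by omega] at h2
    have h3 : ‖F m w‖ ^ 2 ≤ 1 := by
      have e2 : ‖F m w‖ₑ ^ 2 = ENNReal.ofReal (‖F m w‖ ^ 2) := by
        rw [ENNReal.ofReal_pow (norm_nonneg _), ofReal_norm]
      rw [e2, ← ENNReal.ofReal_one, ENNReal.ofReal_le_ofReal_iff (by norm_num)] at h2
      exact h2
    have h4 : ‖F m w‖ ≤ 1 := by
      nlinarith [norm_nonneg (F m w)]
    rw [hF] at h4
    exact h4
  filter_upwards [h1] with w hw B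
  filter_upwards [hw ⌊w⌋ B ⟨Int.floor_le w, (Int.lt_floor_add_one w).le⟩, ev_log_s hs 1, eventually_ge_atTop 1] with m h5 h3 h4
  have hsm : m ≤ s m := hs.le_apply
  have hm0 : (0 : ℝ) < m := by exact_mod_cast (by omega : 0 < m)
  have hsmr : (m : ℝ) ≤ s m := by exact_mod_cast hsm
  have hs0 : (0 : ℝ) < s m := by linarith
  have hL0 : 0 < Real.log (s m : ℝ) := by linarith
  rw [one_mul]
  rw [norm_mul, FF_eq cI1 l hl M _ (s m) (Int.floor_le w), Complex.norm_real, Complex.norm_real, Real.norm_eq_abs, Real.norm_eq_abs,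
    abs_of_nonneg (show 0 ≤ Real.log (s m : ℝ) ^ B / s m by positivity), div_mul_eq_mul_div, div_le_one hs0] at h5
  rw [le_div_iff₀ (by positivity), mul_comm]
  exact h5


theorem step_fin {s : ℕ → ℕ} (hs : StrictMono s) (δ : ℝ) (hδ : 0 < δ) (hf : ∀ᶠ m : ℕ in atTop, (m : ℝ) ^ δ ≤ Real.log (s m)) :
    StepS Fin' s := by
  intro l hl M C E hM
  filter_upwards [step_fastB s hs δ hδ hf l hl M C E hM] with α h1 h0 B
  change ∀ᶠ m : ℕ in atTop, ¬ _
  filter_upwards [h1 h0 B] with m hm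
  exact not_lt.2 hm

theorem equiv_fin {s : ℕ → ℕ} (hs : StrictMono s) (δ : ℝ) (hδ : 0 < δ) (hf : ∀ᶠ m : ℕ in atTop, (m : ℝ) ^ δ ≤ Real.log (s m))
    (a b : ℕ) : ∀ᵐ p : (Fin a → ℝ) × (Fin b → ℝ), (∀ i, 0 < p.1 i) → (∀ j, 0 < p.2 j) →
      ((∀ ε : ℝ, 0 < ε → Fin' (Bad0 s ε)) ↔ (∀ ε : ℝ, 0 < ε → Fin' (BadS s (a + b + 2) (List.ofFn p.1) (List.ofFn p.2) ε))) :=
  two_vec a b (fun l l' => ((∀ ε : ℝ, 0 < ε → Fin' (Bad0 s ε)) ↔ (∀ ε : ℝ, 0 < ε → Fin' (BadS s (a + b + 2) l l' ε))))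
    (iff_meas s a b (a + b + 2) (fin_meas s a b (a + b + 2))) (ae_iff_seq small_fin hs (step_fin hs δ hδ hf) a b)

/-- the classical problem in the uniform notation -/
theorem nil_iff {S : (ℕ → Prop) → Prop} (hS : Small S) {s : ℕ → ℕ} (hs : StrictMono s) :
    (∀ ε : ℝ, 0 < ε → S (Bad0 s ε)) ↔ (∀ ε : ℝ, 0 < ε → S (BadS s 2 [] [] ε)) := by
  have h : ∀ B : ℕ, S fun m => (s m : ℝ) / Real.log (s m) ^ B < |∑ u ∈ Ico 1 (s m), (mu [] u - mu [] u) * mu [] (s m - u)| := by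
    intro B
    refine hS.mono (Q := fun _ => False) ?_ hS.bot
    filter_upwards with m hm
    simp only [sub_self, zero_mul, Finset.sum_const_zero, abs_zero] at hm
    have : 0 ≤ Real.log (s m : ℝ) := Real.log_natCast_nonneg _
    have h2 : 0 ≤ (s m : ℝ) / Real.log (s m) ^ B := by positivity
    linarith
  exact pair_iff hS hs [] [] pos_nil pos_nil h h

theorem thin_even : ∀ᶠ x : ℕ in atTop, (energy 1 x (fun m => 2 * m) : ℝ) * ((2 * x : ℕ) : ℝ) ≤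
    Real.log ((2 * x : ℕ) : ℝ) ^ 1 * (x : ℝ) ^ (2 * 1) := by
  have ht : Tendsto (fun x : ℕ => 2 * x) atTop atTop := tendsto_id.const_mul_atTop' (by norm_num)
  filter_upwards [ht.eventually (ev_logge 2)] with x hx
  have h1 : (energy 1 x (fun m => 2 * m) : ℝ) ≤ x := by exact_mod_cast Pool.Agent.D0H42.GI.energy_one x
  have hx0 : (0 : ℝ) ≤ x := Nat.cast_nonneg x
  rw [pow_one]
  push_cast at hx ⊢
  calc (energy 1 x (fun m => 2 * m) : ℝ) * (2 * x) ≤ x * (2 * x) := by gcongr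
    _ = 2 * x ^ 2 := by ring
    _ ≤ Real.log (2 * x) * x ^ 2 := by gcongr
    _ = _ := by norm_num

end Pool.Agent.D0H91.GI
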