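import Mathlib
import Pool.Agent.D0H91.GI.SeqF
import Pool.Agent.H373R2.T7.BilE

/-! Values of polynomials are thin families. -/

set_option autoImplicit false

namespace Pool.Agent.D0H91.GI

open Finset Filter Topology Polynomial
open Pool.Agent.D0H91.MG
open Pool.Agent.H560R3.GB (energy)

theorem en_toNat (h x : ℕ) (f : ℕ → ℤ) (hf : ∀ n ∈ Icc 1 x, 0 ≤ f n) :
    energy h x (fun n => (f n).toNat) = Pool.Agent.H373R2.T7.energy h x f := by
  unfold Pool.Agent.H560R3.GB.energy Pool.Agent.H373R2.T7.energy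
  congr 1
  apply filter_congr
  intro q hq
  rw [mem_product, Fintype.mem_piFinset, Fintype.mem_piFinset] at hq
  have e : ∀ v : Fin h → ℕ, (∀ i, v i ∈ Icc 1 x) → ((∑ i, (f (v i)).toNat : ℕ) : ℤ) = ∑ i, f (v i) := by
    intro v hv
    rw [Nat.cast_sum]
    apply sum_congr rfl
    intro i _
    exact Int.toNat_of_nonneg (hf _ (hv i))
  rw [← e q.1 hq.1, ← e q.2 hq.2]
  exact Nat.cast_inj.symm

theorem poly_le (f : ℤ[X]) : ∃ B : ℕ, ∀ x : ℕ, 1 ≤ x → f.eval (x : ℤ) ≤ B * (x : ℤ) ^ f.natDegree := by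
  refine ⟨(∑ i ∈ range (f.natDegree + 1), |f.coeff i|).toNat, fun x hx => ?_⟩
  have h0 : 0 ≤ ∑ i ∈ range (f.natDegree + 1), |f.coeff i| := sum_nonneg fun _ _ => abs_nonneg _
  rw [Int.toNat_of_nonneg h0, eval_eq_sum_range, sum_mul]
  have hx1 : (1 : ℤ) ≤ x := by exact_mod_cast hx
  refine sum_le_sum fun i hi => ?_
  rw [mem_range] at hi
  have h1 : f.coeff i * (x : ℤ) ^ i ≤ |f.coeff i| * (x : ℤ) ^ i := by
    apply mul_le_mul_of_nonneg_right (le_abs_self _) (by positivity)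
  refine h1.trans ?_
  apply mul_le_mul_of_nonneg_left _ (abs_nonneg _)
  exact pow_le_pow_right₀ hx1 (by omega)

theorem thin_poly (f : ℤ[X]) (hd : 1 ≤ f.natDegree) (hl : 0 < f.leadingCoeff)
    (hs : StrictMono fun m : ℕ => f.eval (m : ℤ)) (h0 : 0 ≤ f.eval 0) : ∃ h C : ℕ, 1 ≤ h ∧
      ∀ᶠ x : ℕ in atTop, (energy h x (fun m => (f.eval (m : ℤ)).toNat) : ℝ) * ((f.eval (x : ℤ)).toNat : ℕ) ≤
        Real.log ((f.eval (x : ℤ)).toNat : ℕ) ^ C * (x : ℝ) ^ (2 * h) := by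
  have hpos : ∀ m : ℕ, 0 ≤ f.eval (m : ℤ) := by
    intro m
    have h1 : f.eval ((0 : ℕ) : ℤ) ≤ f.eval (m : ℤ) := hs.monotone (Nat.zero_le m)
    rw [Nat.cast_zero] at h1
    linarith
  have hsn : StrictMono fun m : ℕ => (f.eval (m : ℤ)).toNat := by
    intro a b hab
    have h1 : f.eval (a : ℤ) < f.eval (b : ℤ) := hs hab
    have h2 := hpos a
    change (f.eval (a : ℤ)).toNat < (f.eval (b : ℤ)).toNat
    omega
  obtain ⟨p, Cf, hCf, hE⟩ := Pool.Agent.H373R2.T7.energy_poly f hd hl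
  obtain ⟨B, hB⟩ := poly_le f
  have hp : 1 ≤ p := by
    by_contra hc
    have hp0 : p = 0 := by omega
    subst hp0
    obtain ⟨x, hx⟩ := exists_nat_gt (max Cf 1)
    have hx1 : (1 : ℝ) < x := lt_of_le_of_lt (le_max_right _ _) hx
    have hxC : Cf < x := lt_of_le_of_lt (le_max_left _ _) hx
    have hx1' : 1 ≤ x := by exact_mod_cast hx1.le
    have h1 := hE x hx1'
    have h2 : Pool.Agent.H373R2.T7.energy 0 x (fun m => f.eval (m : ℤ)) = 1 := by
      unfold Pool.Agent.H373R2.T7.energy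
      simp
    rw [h2] at h1
    simp only [Nat.cast_one, one_mul, mul_zero, pow_zero, mul_one] at h1
    have h3 : (x : ℝ) ≤ (x : ℝ) ^ f.natDegree := le_self_pow₀ hx1.le (by omega)
    linarith
  refine ⟨p, 1, hp, ?_⟩
  filter_upwards [hsn.tendsto_atTop.eventually (ev_logge (B * Cf)), eventually_ge_atTop 1] with x g2 hx1
  rw [en_toNat p x (fun n => f.eval (n : ℤ)) (fun n _ => hpos n)]
  have h3 := hE x hx1
  have h4 : (((f.eval (x : ℤ)).toNat : ℕ) : ℝ) ≤ B * (x : ℝ) ^ f.natDegree := by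
    have h5 := hB x hx1
    have h6 : (((f.eval (x : ℤ)).toNat : ℕ) : ℤ) ≤ B * (x : ℤ) ^ f.natDegree := by
      rw [Int.toNat_of_nonneg (hpos x)]
      exact h5
    exact_mod_cast h6
  calc (Pool.Agent.H373R2.T7.energy p x (fun n => f.eval (n : ℤ)) : ℝ) * ((f.eval (x : ℤ)).toNat : ℕ) ≤
        Pool.Agent.H373R2.T7.energy p x (fun n => f.eval (n : ℤ)) * (B * (x : ℝ) ^ f.natDegree) :=
        mul_le_mul_of_nonneg_left h4 (Nat.cast_nonneg _)
    _ = B * (Pool.Agent.H373R2.T7.energy p x (fun n => f.eval (n : ℤ)) * (x : ℝ) ^ f.natDegree) := by ring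
    _ ≤ B * (Cf * (x : ℝ) ^ (2 * p)) := mul_le_mul_of_nonneg_left h3 (Nat.cast_nonneg _)
    _ = (B * Cf) * (x : ℝ) ^ (2 * p) := by ring
    _ ≤ Real.log ((f.eval (x : ℤ)).toNat : ℕ) ^ 1 * (x : ℝ) ^ (2 * p) := by
        rw [pow_one]
        exact mul_le_mul_of_nonneg_right g2 (by positivity)

theorem smono_poly (f : ℤ[X]) (hs : StrictMono fun m : ℕ => f.eval (m : ℤ)) (h0 : 0 ≤ f.eval 0) :
    StrictMono fun m : ℕ => (f.eval (m : ℤ)).toNat := by
  intro a b hab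
  have h1 : f.eval (a : ℤ) < f.eval (b : ℤ) := hs hab
  have h2 : f.eval ((0 : ℕ) : ℤ) ≤ f.eval (a : ℤ) := hs.monotone (Nat.zero_le a)
  rw [Nat.cast_zero] at h2
  change (f.eval (a : ℤ)).toNat < (f.eval (b : ℤ)).toNat
  omega

theorem even_poly (f : ℤ[X]) (hs : StrictMono fun m : ℕ => f.eval (m : ℤ)) (h0 : 0 ≤ f.eval 0)
    (he : ∀ m : ℕ, Even (f.eval (m : ℤ))) (m : ℕ) : Even (f.eval (m : ℤ)).toNat := by
  have h2 : f.eval ((0 : ℕ) : ℤ) ≤ f.eval (m : ℤ) := hs.monotone (Nat.zero_le m)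
  rw [Nat.cast_zero] at h2
  obtain ⟨r, hr⟩ := he m
  refine ⟨r.toNat, ?_⟩
  omega

end Pool.Agent.D0H91.GI
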