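import Mathlib
import Pool.Agent.D0H91.GI.SeqG

/-! A polynomial with nonnegative strictly increasing values has a positive degree and a positive leading coefficient. -/

set_option autoImplicit false

namespace Pool.Agent.D0H91.GI

open Finset Filter Topology Polynomial

theorem deg_pos (f : ℤ[X]) (hs : StrictMono fun m : ℕ => f.eval (m : ℤ)) : 1 ≤ f.natDegree := by
  by_contra hc
  have h1 : f.natDegree = 0 := by omega
  have h2 : f.eval ((0 : ℕ) : ℤ) < f.eval ((1 : ℕ) : ℤ) := hs Nat.zero_lt_one
  rw [eq_C_of_natDegree_eq_zero h1, eval_C, eval_C] at h2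
  exact lt_irrefl _ h2

theorem lead_pos (f : ℤ[X]) (hs : StrictMono fun m : ℕ => f.eval (m : ℤ)) (h0 : 0 ≤ f.eval 0) : 0 < f.leadingCoeff := by
  have hd := deg_pos f hs
  by_contra hc
  rw [not_lt] at hc
  set P : ℝ[X] := f.map (Int.castRingHom ℝ) with hP
  have hinj : Function.Injective (Int.castRingHom ℝ) := by
    intro a b hab
    simpa using hab
  have hlc : P.leadingCoeff ≤ 0 := by
    rw [hP, leadingCoeff_map_of_injective hinj]
    simp only [eq_intCast]
    exact_mod_cast hc
  have hdeg : 0 < P.degree := by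
    rw [hP, degree_map_eq_of_injective hinj]
    exact natDegree_pos_iff_degree_pos.1 hd
  have h1 : Tendsto (fun x : ℝ => P.eval x) atTop atBot := P.tendsto_atBot_of_leadingCoeff_nonpos hdeg hlc
  have h2 := (h1.comp tendsto_natCast_atTop_atTop).eventually (eventually_lt_atBot 0)
  obtain ⟨m, hm⟩ := h2.exists
  have h3 : P.eval (m : ℝ) = ((f.eval (m : ℤ) : ℤ) : ℝ) := by
    rw [hP, eval_map, show (m : ℝ) = Int.castRingHom ℝ (m : ℤ) by simp, eval₂_at_apply]
    simp
  have h4 : f.eval ((0 : ℕ) : ℤ) ≤ f.eval (m : ℤ) := hs.monotone (Nat.zero_le m)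
  rw [Nat.cast_zero] at h4
  simp only [Function.comp_apply, h3] at hm
  have h5 : f.eval (m : ℤ) < 0 := by exact_mod_cast hm
  linarith

end Pool.Agent.D0H91.GI
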