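import Mathlib
import Pool.Agent.D0H91.GI.SeqH

/-! The transfer law with an arbitrary set as the second summand. -/

set_option autoImplicit false

namespace Pool.Agent.D0H91.GI

open Finset MeasureTheory Filter Topology
open Pool.Agent.D0H91.MG
open Pool.Agent.D0H42.GI (lemA lemB cn_le)

/-- primes `q` whose chain value `u` satisfies `0 < u < n`, `n - u ∈ T` -/
def RT (T : Set ℕ) (l : List ℝ) (n : ℕ) : Set ℕ := {q | q.Prime ∧ 0 < ch l q ∧ ch l q < n ∧ n - ch l q ∈ T}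

open Classical in
/-- indicator -/
noncomputable def ind (T : Set ℕ) (v : ℕ) : ℝ := if v ∈ T then 1 else 0

noncomputable def tt (T : Set ℕ) (l : List ℝ) (n : ℕ) : ℝ := ∑ u ∈ Ico 1 n, mu l u * ind T (n - u)

noncomputable def rt (T : Set ℕ) (l : List ℝ) (n : ℕ) : ℝ := ∑ u ∈ Ico 1 n, (cn l u : ℝ) * ind T (n - u)

theorem ind_nn (T : Set ℕ) (v : ℕ) : 0 ≤ ind T v := by
  unfold ind
  split_ifs <;> norm_num

theorem ind_le (T : Set ℕ) (v : ℕ) : ind T v ≤ 1 := by
  unfold ind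
  split_ifs <;> norm_num

theorem RT_card (T : Set ℕ) (l : List ℝ) (hl : Pos l) (n : ℕ) : (Nat.card (RT T l n) : ℝ) = rt T l n := by
  classical
  obtain ⟨F, hF⟩ : ∃ F, F = (Icc 1 (KK l * (n + 1))).filter fun q => q.Prime ∧ 0 < ch l q ∧ ch l q < n ∧ n - ch l q ∈ T :=
    ⟨_, rfl⟩
  have h1 : RT T l n = (F : Set ℕ) := by
    ext q
    rw [hF, Finset.mem_coe, Finset.mem_filter, Finset.mem_Icc]
    constructor
    · rintro ⟨a, b, c, d⟩
      have := cTR l hl q b
      exact ⟨⟨a.one_lt.le, this.trans (Nat.mul_le_mul_left _ (by omega))⟩, a, b, c, d⟩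
    · rintro ⟨-, h⟩
      exact h
  rw [h1, Nat.card_coe_set_eq, Set.ncard_coe_finset]
  have h2 : F.card = ∑ u ∈ Ico 1 n, (F.filter fun q => ch l q = u).card := by
    apply Finset.card_eq_sum_card_fiberwise
    intro q hq
    rw [hF, Finset.mem_coe, Finset.mem_filter] at hq
    rw [Finset.mem_coe, Finset.mem_Ico]
    exact ⟨hq.2.2.1, hq.2.2.2.1⟩
  rw [h2]
  push_cast
  unfold rt
  refine Finset.sum_congr rfl fun u hu => ?_
  rw [Finset.mem_Ico] at hu
  unfold ind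
  by_cases hT : n - u ∈ T
  · rw [if_pos hT, mul_one]
    unfold cn
    congr 2
    ext q
    rw [hF, Finset.mem_filter, Finset.mem_filter, Finset.mem_filter, Finset.mem_Icc, Finset.mem_Icc]
    constructor
    · rintro ⟨⟨⟨a, b⟩, c, d, e, f⟩, g⟩
      have := cTR l hl q d
      rw [g] at this
      exact ⟨⟨a, this⟩, c, g⟩
    · rintro ⟨⟨a, b⟩, c, d⟩
      refine ⟨⟨⟨a, b.trans (Nat.mul_le_mul_left _ (by omega))⟩, c, by omega, by omega, by rw [d]; exact hT⟩, d⟩
  · rw [if_neg hT, mul_zero]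
    have : (F.filter fun q => ch l q = u) = ∅ := by
      rw [Finset.filter_eq_empty_iff]
      intro q hq hqu
      rw [hF, Finset.mem_filter, hqu] at hq
      exact hT hq.2.2.2.2
    rw [this]
    simp

/-- from weights to numbers -/
theorem ctT (T : Set ℕ) (l : List ℝ) (hl : Pos l) (ε : ℝ) (hε : 0 < ε) (B : ℕ) : ∀ᶠ n : ℕ in atTop,
    |tt T l n - l.prod * Real.log n ^ (l.length + 1) * rt T l n| ≤
      ε * (l.prod * Real.log n ^ (l.length + 1) * rt T l n) + n / Real.log n ^ B := by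
  classical
  have hAS : S_AS := Pool.Agent.D0H65.GI.t_AS
  obtain ⟨C, E, -, -, hC, hE⟩ := cMB l hl
  have hP : 0 < l.prod := List.prod_pos fun α hα => hl α hα
  obtain ⟨η, hη⟩ : ∃ η, η = min (1 / 2) (ε / (2 * (l.length + 1 : ℕ))) := ⟨_, rfl⟩
  have hlen0 : (0 : ℝ) < (l.length + 1 : ℕ) := by positivity
  have hη0 : 0 < η := by
    rw [hη]
    positivity
  have hη12 : η ≤ 1 / 2 := by
    rw [hη]
    exact min_le_left _ _
  have hη1 : η ≤ 1 := by linarith
  have hηa : (l.length + 1 : ℕ) * η ≤ ε / 2 := by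
    calc ((l.length + 1 : ℕ) : ℝ) * η ≤ (l.length + 1 : ℕ) * (ε / (2 * (l.length + 1 : ℕ))) := by
          apply mul_le_mul_of_nonneg_left _ hlen0.le
          rw [hη]
          exact min_le_right _ _
      _ = ε / 2 := by field_simp
  obtain ⟨U0, hU0⟩ := lemA hAS l hl (ε / 2) (by positivity)
  have hcast : Tendsto (fun N : ℕ => (N : ℝ)) atTop atTop := tendsto_natCast_atTop_atTop
  obtain ⟨M, hM⟩ : ∃ M, M = E + (l.length + 1) := ⟨_, rfl⟩
  obtain ⟨K, hK⟩ : ∃ K : ℝ, K = C * 2 ^ E + l.prod * C + 1 := ⟨_, rfl⟩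
  have hK0 : 0 < K := by
    rw [hK]
    positivity
  have ev1 : ∀ᶠ n : ℕ in atTop, Real.log n ^ (M + B) ≤ 1 / (2 * K) * (n : ℝ) ^ η := by
    have h := (isLittleO_log_rpow_rpow_atTop ((M + B : ℕ) : ℝ) hη0).bound (show 0 < 1 / (2 * K) by positivity)
    have h' := hcast.eventually h
    filter_upwards [h', eventually_ge_atTop 1] with u hu hu1
    have hl : 0 ≤ Real.log (u : ℝ) := Real.log_natCast_nonneg u
    rw [Real.rpow_natCast, Real.norm_of_nonneg (by positivity), Real.norm_of_nonneg (by positivity)] at hu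
    exact hu
  have ev2 : ∀ᶠ n : ℕ in atTop, (1 : ℝ) ≤ Real.log n :=
    (Real.tendsto_log_atTop.comp hcast).eventually_ge_atTop 1
  have ev3 : ∀ᶠ n : ℕ in atTop, ((U0 + 1 : ℕ) : ℝ) ≤ (n : ℝ) ^ (1 - η) :=
    ((tendsto_rpow_atTop (by linarith : 0 < 1 - η)).comp hcast).eventually_ge_atTop _
  filter_upwards [ev1, ev2, ev3, eventually_ge_atTop 3] with n hn1 hn2 hn3 hn4
  have hnR : (3 : ℝ) ≤ n := by exact_mod_cast hn4
  have hn0 : (0 : ℝ) < n := by linarith
  obtain ⟨L, hL⟩ : ∃ L, L = Real.log (n : ℝ) := ⟨_, rfl⟩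
  rw [← hL] at hn1 hn2
  have hL0 : 0 < L := by linarith
  obtain ⟨X, hX⟩ : ∃ X, X = l.prod * L ^ (l.length + 1) := ⟨_, rfl⟩
  have hX0 : 0 < X := by
    rw [hX]
    positivity
  obtain ⟨y, hy⟩ : ∃ y, y = (n : ℝ) ^ (1 - η) := ⟨_, rfl⟩
  rw [← hy] at hn3
  have hy1 : 1 ≤ y := by
    rw [hy]
    exact Real.one_le_rpow (by linarith) (by linarith)
  have good : ∀ u ∈ Ico 1 n, y ≤ u → |mu l u - X * cn l u| * ind T (n - u) ≤ ε * (X * (cn l u * ind T (n - u))) := by
    intro u hu hgood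
    rw [Finset.mem_Ico] at hu
    have hn3' : ((U0 + 1 : ℕ) : ℝ) ≤ (u : ℝ) := hn3.trans hgood
    have hu3 : U0 + 1 ≤ u := by exact_mod_cast hn3'
    have b1 := lemB l hl ε η hη0.le hηa hη1 n u (by omega) (by omega) (by omega)
      (by rw [← hy]; exact hgood) (hU0 u (by omega)) hε.le
    rw [← hL, ← hX] at b1
    calc |mu l u - X * cn l u| * ind T (n - u) ≤ (ε * (X * cn l u)) * ind T (n - u) :=
          mul_le_mul_of_nonneg_right b1 (ind_nn _ _)
      _ = _ := by ring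
  have hln3 : ∀ v : ℕ, v ≤ n → Real.log ((v : ℝ) + 3) ≤ 2 * L := by
    intro v hv
    have hvn : (v : ℝ) ≤ n := by exact_mod_cast hv
    have hv0 : (0 : ℝ) ≤ v := Nat.cast_nonneg v
    calc Real.log ((v : ℝ) + 3) ≤ Real.log ((n : ℝ) ^ 2) := Real.log_le_log (by linarith) (by nlinarith)
      _ = 2 * L := by
          rw [Real.log_pow, hL]
          push_cast
          ring
  have bad : ∀ u ∈ Ico 1 n, |mu l u - X * cn l u| * ind T (n - u) ≤ K * L ^ M := by
    intro u hu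
    rw [Finset.mem_Ico] at hu
    have c1 := hE u (by omega)
    have c3 := cn_le (hC u (by omega))
    have hl0 : 0 ≤ Real.log ((u : ℝ) + 3) := Real.log_nonneg (by
      have : (0 : ℝ) ≤ u := Nat.cast_nonneg u
      linarith)
    have d1 : |mu l u| ≤ C * 2 ^ E * L ^ E := by
      refine c1.trans ?_
      rw [mul_assoc, ← mul_pow]
      apply mul_le_mul_of_nonneg_left _ (Nat.cast_nonneg C)
      exact pow_le_pow_left₀ hl0 (hln3 u (by omega)) E
    have d4 : X * (cn l u : ℝ) ≤ l.prod * C * L ^ (l.length + 1) := by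
      have e1 : (cn l u : ℝ) ≤ C := by exact_mod_cast c3
      calc X * (cn l u : ℝ) ≤ X * C := mul_le_mul_of_nonneg_left e1 hX0.le
        _ = _ := by
            rw [hX]
            ring
    have d5 : 0 ≤ X * (cn l u : ℝ) := by positivity
    have p1 : L ^ E ≤ L ^ M := pow_le_pow_right₀ hn2 (by omega)
    have p2 : L ^ (l.length + 1) ≤ L ^ M := pow_le_pow_right₀ hn2 (by omega)
    have q1 : (C : ℝ) * 2 ^ E * L ^ E ≤ C * 2 ^ E * L ^ M := mul_le_mul_of_nonneg_left p1 (by positivity)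
    have q2 : l.prod * C * L ^ (l.length + 1) ≤ l.prod * C * L ^ M := mul_le_mul_of_nonneg_left p2 (by positivity)
    have q3 : K * L ^ M = C * 2 ^ E * L ^ M + l.prod * C * L ^ M + L ^ M := by
      rw [hK]
      ring
    have q4 : 0 ≤ L ^ M := by positivity
    have q5 := abs_sub (mu l u) (X * (cn l u : ℝ))
    rw [abs_of_nonneg d5] at q5
    calc |mu l u - X * cn l u| * ind T (n - u) ≤ |mu l u - X * cn l u| * 1 :=
          mul_le_mul_of_nonneg_left (ind_le _ _) (abs_nonneg _)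
      _ ≤ _ := by linarith
  have e1 : tt T l n - X * rt T l n = ∑ u ∈ Ico 1 n, (mu l u - X * cn l u) * ind T (n - u) := by
    unfold tt rt
    rw [Finset.mul_sum, ← Finset.sum_sub_distrib]
    refine Finset.sum_congr rfl fun u _ => ?_
    ring
  have hLe : l.prod * Real.log (n : ℝ) ^ (l.length + 1) = X := by rw [← hL, hX]
  rw [hLe, e1, ← hL]
  refine (Finset.abs_sum_le_sum_abs _ _).trans ?_
  have e2 : ∑ u ∈ Ico 1 n, |(mu l u - X * cn l u) * ind T (n - u)| = ∑ u ∈ Ico 1 n, |mu l u - X * cn l u| * ind T (n - u) := by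
    refine Finset.sum_congr rfl fun u _ => ?_
    rw [abs_mul, abs_of_nonneg (ind_nn _ _)]
  rw [e2, ← Finset.sum_filter_add_sum_filter_not (Ico 1 n) (fun u : ℕ => y ≤ u)]
  apply add_le_add
  · calc ∑ u ∈ (Ico 1 n).filter (fun u : ℕ => y ≤ u), |mu l u - X * cn l u| * ind T (n - u) ≤
          ∑ u ∈ (Ico 1 n).filter (fun u : ℕ => y ≤ u), ε * (X * (cn l u * ind T (n - u))) := by
          apply Finset.sum_le_sum
          intro u hu
          rw [Finset.mem_filter] at hu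
          exact good u hu.1 hu.2
      _ ≤ ∑ u ∈ Ico 1 n, ε * (X * (cn l u * ind T (n - u))) := by
          apply Finset.sum_le_sum_of_subset_of_nonneg (Finset.filter_subset _ _)
          intro u _ _
          have := ind_nn T (n - u)
          positivity
      _ = ε * (X * rt T l n) := by
          unfold rt
          rw [Finset.mul_sum, Finset.mul_sum]
  · have hcard : (((Ico 1 n).filter (fun u : ℕ => ¬ y ≤ u)).card : ℝ) ≤ y := by
      have h1 : (Ico 1 n).filter (fun u : ℕ => ¬ y ≤ u) ⊆ Icc 1 ⌊y⌋₊ := by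
        intro u hu
        rw [Finset.mem_filter, Finset.mem_Ico] at hu
        rw [Finset.mem_Icc]
        exact ⟨hu.1.1, Nat.le_floor (not_le.1 hu.2).le⟩
      have h2 := Finset.card_le_card h1
      rw [Nat.card_Icc, Nat.add_sub_cancel] at h2
      have h3 : (((Ico 1 n).filter (fun u : ℕ => ¬ y ≤ u)).card : ℝ) ≤ (⌊y⌋₊ : ℝ) := by exact_mod_cast h2
      exact h3.trans (Nat.floor_le (by linarith))
    calc ∑ u ∈ (Ico 1 n).filter (fun u : ℕ => ¬ y ≤ u), |mu l u - X * cn l u| * ind T (n - u) ≤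
          ∑ u ∈ (Ico 1 n).filter (fun u : ℕ => ¬ y ≤ u), K * L ^ M := by
          apply Finset.sum_le_sum
          intro u hu
          rw [Finset.mem_filter] at hu
          exact bad u hu.1
      _ = ((Ico 1 n).filter (fun u : ℕ => ¬ y ≤ u)).card * (K * L ^ M) := by rw [Finset.sum_const, nsmul_eq_mul]
      _ ≤ y * (K * L ^ M) := mul_le_mul_of_nonneg_right hcard (by positivity)
      _ = y * K * (L ^ (M + B) / L ^ B) := by
          rw [pow_add]
          field_simp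
      _ ≤ y * K * ((1 / (2 * K) * (n : ℝ) ^ η) / L ^ B) := by
          gcongr
      _ = (1 / 2) * ((y * (n : ℝ) ^ η) / L ^ B) := by
          field_simp
      _ = (1 / 2) * (n / L ^ B) := by
          rw [hy, ← Real.rpow_add hn0]
          norm_num
      _ ≤ n / L ^ B := by
          have : 0 ≤ n / L ^ B := by positivity
          linarith

theorem last3 {η X X' T T' y : ℝ} (hη : 0 < η) (hη1 : η ≤ 1 / 10) (hy : 0 ≤ y) (hX : 0 ≤ X)
    (h1 : |T' - X'| ≤ η * X' + y) (h2 : |T - X| ≤ η * X + y) (h3 : |T' - T| ≤ y) :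
    |X' - X| ≤ 3 * η * X + 4 * y := by
  rw [abs_le] at h1 h2 h3 ⊢
  obtain ⟨a1, a2⟩ := h1
  obtain ⟨b1, b2⟩ := h2
  obtain ⟨c1, c2⟩ := h3
  have e0 : η * X ≤ 1 / 10 * X := mul_le_mul_of_nonneg_right hη1 hX
  have e00 : 0 ≤ η * X := by positivity
  have e1 : X' * (1 - η) ≤ (1 + η) * X + 3 * y := by linarith
  have e2 : (1 - η) * X - 3 * y ≤ X' * (1 + η) := by linarith
  have f1 : η * (η * X) ≤ 1 / 10 * (η * X) := mul_le_mul_of_nonneg_right hη1 e00
  have f2 : η * y ≤ 1 / 10 * y := mul_le_mul_of_nonneg_right hη1 hy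
  constructor
  · by_contra hc
    push Not at hc
    have hc' : X' < X - 3 * η * X - 4 * y := by linarith
    have : X' * (1 + η) < (X - 3 * η * X - 4 * y) * (1 + η) := mul_lt_mul_of_pos_right hc' (by linarith)
    have f3 : 0 ≤ η * (η * X) := by positivity
    have f4 : 0 ≤ η * y := by positivity
    nlinarith
  · by_contra hc
    push Not at hc
    have hc' : X + 3 * η * X + 4 * y < X' := by linarith
    have : (X + 3 * η * X + 4 * y) * (1 - η) < X' * (1 - η) := mul_lt_mul_of_pos_right hc' (by linarith)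
    nlinarith

theorem lawT_pt (T : Set ℕ) (l : List ℝ) (hl : Pos l) (α : ℝ) (hα : 0 < α) (ε : ℝ) (hε : 0 < ε) (A : ℕ) : ∀ᶠ n : ℕ in atTop,
    |∑ u ∈ Ico 1 n, (mu (α :: l) u - mu l u) * ind T (n - u)| ≤ n / Real.log n ^ (A + 1) →
    |α * Real.log n * Nat.card (RT T (α :: l) n) - Nat.card (RT T l n)| ≤
      ε * Nat.card (RT T l n) + n / Real.log n ^ A := by
  have hl1 : Pos (α :: l) := by
    intro β hβ
    rcases List.mem_cons.1 hβ with rfl | hβ
    · exact hα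
    · exact hl β hβ
  have hlp : 0 < l.prod := List.prod_pos hl
  obtain ⟨P, hP⟩ : ∃ P, P = l.prod := ⟨_, rfl⟩
  have hP0 : 0 < P := by
    rw [hP]
    exact hlp
  obtain ⟨η, hη⟩ : ∃ η, η = min (1 / 10) (ε / 3) := ⟨_, rfl⟩
  have hη0 : 0 < η := by
    rw [hη]
    positivity
  have hη1 : η ≤ 1 / 10 := by
    rw [hη]
    exact min_le_left _ _
  have hη2 : 3 * η ≤ ε := by
    have : η ≤ ε / 3 := by
      rw [hη]
      exact min_le_right _ _
    linarith
  filter_upwards [ctT T (α :: l) hl1 η hη0 (A + 1), ctT T l hl η hη0 (A + 1), ev_logge 1, ev_logge (4 / P)] with n q1 q2 g1 g2 k2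
  obtain ⟨ℓ, hℓ⟩ : ∃ ℓ, ℓ = Real.log (n : ℝ) := ⟨_, rfl⟩
  obtain ⟨k, hk⟩ : ∃ k, k = l.length + 1 := ⟨_, rfl⟩
  rw [RT_card T (α :: l) hl1, RT_card T l hl]
  rw [List.length_cons, List.prod_cons] at q1
  rw [← hk, ← hP, ← hℓ] at q1 q2
  rw [← hℓ] at g1 g2 k2
  rw [← hℓ]
  have hℓ0 : 0 < ℓ := by linarith
  have hn0 : (0 : ℝ) ≤ n := Nat.cast_nonneg n
  have q3 : |tt T (α :: l) n - tt T l n| ≤ n / ℓ ^ (A + 1) := by
    have e0 : tt T (α :: l) n - tt T l n = ∑ u ∈ Ico 1 n, (mu (α :: l) u - mu l u) * ind T (n - u) := by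
      unfold tt
      rw [← Finset.sum_sub_distrib]
      refine Finset.sum_congr rfl fun u _ => ?_
      ring
    rw [e0]
    exact k2
  have hr0 : 0 ≤ rt T l n := by
    unfold rt
    exact Finset.sum_nonneg fun u _ => mul_nonneg (Nat.cast_nonneg _) (ind_nn _ _)
  have hfin := last3 hη0 hη1 (show 0 ≤ (n : ℝ) / ℓ ^ (A + 1) by positivity) (show 0 ≤ P * ℓ ^ k * rt T l n by positivity) q1 q2 q3
  have hQ : 0 < P * ℓ ^ k := by positivity
  have e1 : α * P * ℓ ^ (k + 1) * rt T (α :: l) n - P * ℓ ^ k * rt T l n =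
      P * ℓ ^ k * (α * ℓ * rt T (α :: l) n - rt T l n) := by
    rw [pow_succ]
    ring
  rw [e1, abs_mul, abs_of_pos hQ] at hfin
  have hk1 : ℓ ≤ ℓ ^ k := le_self_pow₀ g1 (by omega)
  have h4 : 4 * (n / ℓ ^ (A + 1)) ≤ P * ℓ ^ k * (n / ℓ ^ A) := by
    have e3 : 4 ≤ P * ℓ := by
      rw [div_le_iff₀ hP0] at g2
      linarith
    have e4 : 4 ≤ P * ℓ ^ k * ℓ := by
      have : P * ℓ * 1 ≤ P * ℓ ^ k * ℓ := by gcongr
      linarith
    calc 4 * (n / ℓ ^ (A + 1)) ≤ (P * ℓ ^ k * ℓ) * (n / ℓ ^ (A + 1)) := by gcongr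
      _ = P * ℓ ^ k * (n / ℓ ^ A) := by
          rw [pow_succ]
          field_simp
  have h5 : P * ℓ ^ k * |α * ℓ * rt T (α :: l) n - rt T l n| ≤ P * ℓ ^ k * (ε * rt T l n + n / ℓ ^ A) := by
    refine hfin.trans ?_
    have h6 : 3 * η * (P * ℓ ^ k * rt T l n) ≤ ε * (P * ℓ ^ k * rt T l n) := by gcongr
    rw [mul_add]
    calc _ ≤ ε * (P * ℓ ^ k * rt T l n) + P * ℓ ^ k * (n / ℓ ^ A) := add_le_add h6 h4
      _ = _ := by ring
  exact le_of_mul_le_mul_left h5 hQ

theorem lawT {S : (ℕ → Prop) → Prop} (hS : Small S) {s : ℕ → ℕ} (hs : StrictMono s) (hst : StepS S s) (T : Set ℕ)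
    (l : List ℝ) (hl : Pos l) : ∀ᵐ α : ℝ, 0 < α → ∀ ε : ℝ, 0 < ε → ∀ A : ℕ,
    S fun m => ¬ |α * Real.log (s m) * Nat.card (RT T (α :: l) (s m)) - Nat.card (RT T l (s m))| ≤
      ε * Nat.card (RT T l (s m)) + s m / Real.log (s m) ^ A := by
  filter_upwards [hst l hl (ind T) 1 0 (fun v _ => by
    rw [abs_of_nonneg (ind_nn T v), pow_zero, Nat.cast_one, mul_one]
    exact ind_le T v)] with α h1 h0 ε hε A
  refine hS.mono ?_ (h1 h0 (A + 1))
  filter_upwards [hs.tendsto_atTop.eventually (lawT_pt T l hl α h0 ε hε A)] with m hm hbad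
  by_contra hc
  exact hbad (hm (not_lt.1 hc))

end Pool.Agent.D0H91.GI
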