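import Mathlib
import Pool.Agent.D0H91.GI.AnyT
import Pool.Agent.Results.MP_5d7b92_nt.AlmostAllMultiples

/-! Multiples of small primorials. -/

set_option autoImplicit false

namespace Pool.Agent.D0H91.GI

open Finset MeasureTheory Filter Topology
open Pool.Agent.D0H91.MG
open Pool.Agent.Results.MP_5d7b92_nt.AlmostAllMultiples (V)

/-- number of elements up to `x` -/
noncomputable def cnt (T : Set ℕ) (x : ℕ) : ℕ := Nat.card {t : ℕ | t ∈ T ∧ t ≤ x}

open Classical in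
theorem cnt_eq (T : Set ℕ) (hT : ∀ p ∈ T, p.Prime) (x : ℕ) : cnt T x = ((Icc 1 x).filter fun t => t ∈ T).card := by
  unfold cnt
  have h : {t : ℕ | t ∈ T ∧ t ≤ x} = (((Icc 1 x).filter fun t => t ∈ T : Finset ℕ) : Set ℕ) := by
    ext t
    rw [Finset.mem_coe, Finset.mem_filter, Finset.mem_Icc]
    constructor
    · rintro ⟨a, b⟩
      exact ⟨⟨(hT t a).one_lt.le, b⟩, a⟩
    · rintro ⟨⟨_, b⟩, a⟩
      exact ⟨a, b⟩
  rw [h, Nat.card_coe_set_eq, Set.ncard_coe_finset]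

open Classical in
theorem rep_le (T : Set ℕ) (x n : ℕ) : (Pool.Agent.Results.MP_5d7b92_nt.AlmostAllMultiples.Rep ((Icc 1 x).filter fun t => t ∈ T) n).card ≤ Nat.card (RT T [] n) := by
  have hfin : (RT T [] n).Finite := (Finset.range n).finite_toSet.subset fun q hq => by
    rw [Finset.mem_coe, Finset.mem_range]
    exact hq.2.2.1
  rw [Nat.card_coe_set_eq, ← Set.ncard_coe_finset]
  apply Set.ncard_le_ncard_of_injOn (fun p => n - p) _ _ hfin
  · intro p hp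
    rw [Finset.mem_coe] at hp
    unfold Pool.Agent.Results.MP_5d7b92_nt.AlmostAllMultiples.Rep at hp
    rw [Finset.mem_filter, Finset.mem_filter, Finset.mem_Icc] at hp
    obtain ⟨⟨⟨h1, h2⟩, h3⟩, h4⟩ := hp
    have h5 := h4.pos
    refine ⟨h4, h5, ?_, ?_⟩
    · change n - p < n
      omega
    · change n - (n - p) ∈ T
      rw [show n - (n - p) = p by omega]
      exact h3
  · intro p hp q hq hpq
    rw [Finset.mem_coe] at hp hq
    unfold Pool.Agent.Results.MP_5d7b92_nt.AlmostAllMultiples.Rep at hp hq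
    rw [Finset.mem_filter] at hp hq
    have h1 := hp.2.pos
    have h2 := hq.2.pos
    have h3 : n - p = n - q := hpq
    omega

theorem V_pos (y : ℕ) : 0 < V y := by
  unfold V
  apply Finset.prod_pos
  intro q hq
  rw [Finset.mem_filter] at hq
  have h2 : (2 : ℝ) ≤ q := by exact_mod_cast hq.2.two_le
  have h3 : 1 / (q : ℝ) ≤ 1 / 2 := one_div_le_one_div_of_le (by norm_num) h2
  linarith

theorem V_le (y : ℕ) : V y ≤ 1 := by
  unfold V
  apply Finset.prod_le_one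
  · intro q hq
    rw [Finset.mem_filter] at hq
    have h2 : (2 : ℝ) ≤ q := by exact_mod_cast hq.2.two_le
    have h3 : 1 / (q : ℝ) ≤ 1 / 2 := one_div_le_one_div_of_le (by norm_num) h2
    linarith
  · intro q hq
    have : 0 ≤ 1 / (q : ℝ) := by positivity
    linarith

/-- the pointwise deduction -/
theorem point {δ α L ℓ R R' W e : ℝ} (hδ : 0 < δ) (hδ1 : δ ≤ 1 / 4) (hα : 0 < α) (hL : 0 < L) (hℓ1 : L ≤ ℓ) (hℓ2 : ℓ ≤ (1 + δ) * L)
    (hW : 0 ≤ W) (hR : (1 - δ) * W ≤ R) (he : e ≤ δ * W) (hx : |α * ℓ * R' - R| ≤ δ * R + e) (hR' : 0 ≤ R') :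
    (1 - 4 * δ) * (W / (α * L)) ≤ R' := by
  rw [abs_le] at hx
  have h1 : (1 - δ) * R - e ≤ α * ℓ * R' := by linarith [hx.1]
  have h2 : (1 - δ) * ((1 - δ) * W) ≤ (1 - δ) * R := mul_le_mul_of_nonneg_left hR (by linarith)
  have h3 : (1 - 3 * δ) * W ≤ α * ℓ * R' := by nlinarith [mul_nonneg (sq_nonneg δ) hW]
  have h4 : α * ℓ * R' ≤ α * ((1 + δ) * L) * R' := by gcongr
  have h5 : (1 - 4 * δ) * W * (1 + δ) ≤ (1 - 3 * δ) * W := by nlinarith [mul_nonneg (sq_nonneg δ) hW]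
  have h6 : (1 - 4 * δ) * W * (1 + δ) ≤ (α * L * R') * (1 + δ) := by nlinarith
  have h7 : (1 - 4 * δ) * W ≤ α * L * R' := le_of_mul_le_mul_right h6 (by linarith)
  rw [← mul_div_assoc, div_le_iff₀ (by positivity)]
  linarith

theorem mult (T : Set ℕ) (hT : ∀ p ∈ T, p.Prime) (A : ℕ) (hA : ∀ᶠ x : ℕ in atTop, (x : ℝ) ≤ cnt T x * Real.log x ^ A)
    (α : ℝ) (hα : 0 < α)
    (hlaw : ∀ ε : ℝ, 0 < ε → ∀ A : ℕ, Few fun n => ¬ |α * Real.log n * Nat.card (RT T [α] n) - Nat.card (RT T [] n)| ≤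
      ε * Nat.card (RT T [] n) + n / Real.log n ^ A) :
    ∀ (C : ℕ) (ε : ℝ), 0 < ε → ε ≤ 1 → ∃ K₀ : ℕ, ∀ K₁ : ℕ, ∃ x₀ : ℕ, ∀ x : ℕ, x₀ ≤ x →
    ∀ y : ℕ, K₀ * Real.log (Real.log x) ≤ y → y ≤ K₁ * Real.log (Real.log x) →
    ∀ g₀ G : ℕ, x ≤ primorial y * g₀ → primorial y * (g₀ + G) ≤ 2 * x → (x : ℝ) ≤ primorial y * G * Real.log x ^ C →
    (Nat.card {g : ℕ | 1 ≤ g ∧ g ≤ G ∧ (Nat.card (RT T [α] (primorial y * (g₀ + g))) : ℝ) <
      (1 - ε) * (cnt T x / (V y * α * Real.log x ^ 2))} : ℝ) ≤ ε * G := by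
  classical
  intro C ε hε hε1
  obtain ⟨δ, hδ⟩ : ∃ δ, δ = ε / 4 := ⟨_, rfl⟩
  have hδ0 : 0 < δ := by
    rw [hδ]
    positivity
  have hδ1 : δ ≤ 1 / 4 := by
    rw [hδ]
    linarith
  obtain ⟨K₀, hK₀⟩ := Pool.Agent.Results.MP_5d7b92_nt.AlmostAllMultiples.result A C δ hδ0 (by linarith)
  refine ⟨K₀, fun K₁ => ?_⟩
  obtain ⟨x1, hx1⟩ := hK₀ K₁
  have hdbl : Tendsto (fun x : ℕ => 2 * x) atTop atTop := tendsto_id.const_mul_atTop' (by norm_num)
  obtain ⟨x2, hx2⟩ := (hA.and ((hdbl.eventually (hlaw δ hδ0 (A + 2) (C + 2 * K₁ + 1))).and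
    ((ev_logge (max 3 (4 / δ))).and (eventually_ge_atTop 3)))).exists_forall_of_atTop
  refine ⟨max x1 x2, fun x hx y hy1 hy2 g₀ G hg0 hg1 hg2 => ?_⟩
  obtain ⟨hA', hlaw', hlog, hx3⟩ := hx2 x (le_trans (le_max_right _ _) hx)
  obtain ⟨S, hS⟩ : ∃ S, S = (Icc 1 x).filter fun t => t ∈ T := ⟨_, rfl⟩
  have hcnt : cnt T x = S.card := by
    rw [hS]
    exact cnt_eq T hT x
  have key := (hx1 x (le_trans (le_max_left _ _) hx) y hy1 hy2 g₀ G hg0 hg1 hg2).1 S (by rw [hS]; exact Finset.filter_subset _ _)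
    (fun p hp => by
      rw [hS, Finset.mem_filter] at hp
      exact hT p hp.2) (by rw [← hcnt]; exact hA')
  obtain ⟨L, hL⟩ : ∃ L, L = Real.log (x : ℝ) := ⟨_, rfl⟩
  rw [← hcnt, ← hL] at key
  rw [← hL] at hA' hlog hg2 hy1 hy2
  rw [← hL]
  have hL3 : 3 ≤ L := (le_max_left _ _).trans hlog
  have hLδ : 4 / δ ≤ L := (le_max_right _ _).trans hlog
  have hL0 : 0 < L := by linarith
  have hxr : (3 : ℝ) ≤ x := by exact_mod_cast hx3
  have hx0 : (0 : ℝ) < x := by linarith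
  have hLδ' : 4 ≤ δ * L := by
    rw [div_le_iff₀ hδ0] at hLδ
    linarith
  obtain ⟨W, hW⟩ : ∃ W, W = (cnt T x : ℝ) / (V y * L) := ⟨_, rfl⟩
  have hV0 := V_pos y
  have hV1 := V_le y
  have hW1 : (x : ℝ) / L ^ (A + 1) ≤ W := by
    rw [hW, div_le_div_iff₀ (by positivity) (by positivity)]
    calc (x : ℝ) * (V y * L) ≤ (cnt T x * L ^ A) * (1 * L) := by gcongr
      _ = _ := by ring
  have hW0 : 0 ≤ W := le_trans (by positivity) hW1
  obtain ⟨P, hP⟩ : ∃ P, P = primorial y := ⟨_, rfl⟩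
  rw [← hP] at hg0 hg1 hg2 key
  rw [← hP]
  have hP0 : 0 < P := by
    rw [hP]
    exact primorial_pos y
  obtain ⟨E1, hE1⟩ : ∃ E1, E1 = (Icc 1 G).filter (fun g => ((Pool.Agent.Results.MP_5d7b92_nt.AlmostAllMultiples.Rep S (P * (g₀ + g))).card : ℝ) < (1 - δ) * W) := ⟨_, rfl⟩
  rw [← hW, ← hE1] at key
  obtain ⟨E2, hE2⟩ : ∃ E2 : Set ℕ, E2 = {n : ℕ | 1 ≤ n ∧ n ≤ 2 * x ∧ ¬ |α * Real.log n * Nat.card (RT T [α] n) - Nat.card (RT T [] n)| ≤
      δ * Nat.card (RT T [] n) + n / Real.log n ^ (A + 2)} := ⟨_, rfl⟩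
  have hE2c : (Nat.card E2 : ℝ) ≤ (2 * x : ℕ) / Real.log (2 * x : ℕ) ^ (C + 2 * K₁ + 1) := by
    rw [hE2]
    exact hlaw'
  obtain ⟨E3, hE3⟩ : ∃ E3, E3 = (Icc 1 G).filter (fun g => P * (g₀ + g) ∈ E2) := ⟨_, rfl⟩
  have hE2fin : E2.Finite := by
    rw [hE2]
    exact few_fin _ _
  have hE3c : E3.card ≤ Nat.card E2 := by
    rw [Nat.card_coe_set_eq, ← Set.ncard_coe_finset]
    apply Set.ncard_le_ncard_of_injOn (fun g => P * (g₀ + g)) _ _ hE2fin
    · intro g hg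
      rw [hE3, Finset.mem_coe, Finset.mem_filter] at hg
      exact hg.2
    · intro g _ g' _ h
      have h1 : P * (g₀ + g) = P * (g₀ + g') := h
      have h2 := Nat.eq_of_mul_eq_mul_left hP0 h1
      omega
  have hsub : {g : ℕ | 1 ≤ g ∧ g ≤ G ∧ (Nat.card (RT T [α] (P * (g₀ + g))) : ℝ) <
      (1 - ε) * (cnt T x / (V y * α * L ^ 2))} ⊆ ((E1 ∪ E3 : Finset ℕ) : Set ℕ) := by
    rintro g ⟨hg1', hg2', hbad⟩
    rw [Finset.mem_coe]
    by_contra hcc
    simp only [Finset.mem_union, not_or] at hcc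
    obtain ⟨m1, m3⟩ := hcc
    have hgI : g ∈ Icc 1 G := Finset.mem_Icc.2 ⟨hg1', hg2'⟩
    obtain ⟨n, hn⟩ : ∃ n, n = P * (g₀ + g) := ⟨_, rfl⟩
    rw [← hn] at hbad
    have hn1 : x ≤ n := by
      rw [hn]
      exact hg0.trans (Nat.mul_le_mul_left _ (by omega))
    have hn2 : n ≤ 2 * x := by
      rw [hn]
      exact (Nat.mul_le_mul_left _ (by omega)).trans hg1
    have k1 : (1 - δ) * W ≤ ((Pool.Agent.Results.MP_5d7b92_nt.AlmostAllMultiples.Rep S n).card : ℝ) := by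
      by_contra hq
      apply m1
      rw [hE1, Finset.mem_filter, ← hn]
      exact ⟨hgI, not_le.1 hq⟩
    have k3 : |α * Real.log n * Nat.card (RT T [α] n) - Nat.card (RT T [] n)| ≤
        δ * Nat.card (RT T [] n) + n / Real.log n ^ (A + 2) := by
      by_contra hq
      apply m3
      rw [hE3, Finset.mem_filter, ← hn, hE2]
      exact ⟨hgI, by omega, hn2, hq⟩
    have hn1r : (x : ℝ) ≤ n := by exact_mod_cast hn1
    have hn2r : (n : ℝ) ≤ 2 * x := by exact_mod_cast hn2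
    have hℓ1 : L ≤ Real.log (n : ℝ) := by
      rw [hL]
      exact Real.log_le_log hx0 hn1r
    have hℓ2 : Real.log (n : ℝ) ≤ (1 + δ) * L := by
      have h1 : Real.log (n : ℝ) ≤ Real.log (2 * x) := Real.log_le_log (by linarith) hn2r
      rw [Real.log_mul (by norm_num) hx0.ne', ← hL] at h1
      have h2 : Real.log 2 ≤ 1 := by
        have := Real.log_two_lt_d9
        linarith
      linarith
    have he : (n : ℝ) / Real.log n ^ (A + 2) ≤ δ * W := by
      calc (n : ℝ) / Real.log n ^ (A + 2) ≤ 2 * x / L ^ (A + 2) := by gcongr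
        _ = 2 / L * (x / L ^ (A + 1)) := by
            rw [pow_succ _ (A + 1)]
            field_simp
        _ ≤ δ * W := by
            apply mul_le_mul _ hW1 (by positivity) hδ0.le
            rw [div_le_iff₀ hL0]
            linarith
    have hR : (1 - δ) * W ≤ (Nat.card (RT T [] n) : ℝ) := by
      refine k1.trans ?_
      rw [hS]
      exact_mod_cast rep_le T x n
    have hfin := point hδ0 hδ1 hα hL0 hℓ1 hℓ2 hW0 hR he k3 (Nat.cast_nonneg _)
    have e1 : (1 - 4 * δ) * (W / (α * L)) = (1 - ε) * (cnt T x / (V y * α * L ^ 2)) := by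
      rw [hδ, hW]
      field_simp
    rw [e1] at hfin
    linarith
  have hcard := Set.ncard_le_ncard hsub (Finset.finite_toSet _)
  rw [Set.ncard_coe_finset] at hcard
  have hcard2 := hcard.trans ((Finset.card_union_le E1 E3).trans (Nat.add_le_add_left hE3c _))
  have hcard3 : (Nat.card {g : ℕ | 1 ≤ g ∧ g ≤ G ∧ (Nat.card (RT T [α] (P * (g₀ + g))) : ℝ) <
      (1 - ε) * (cnt T x / (V y * α * L ^ 2))} : ℝ) ≤ E1.card + Nat.card E2 := by
    rw [Nat.card_coe_set_eq]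
    exact_mod_cast hcard2
  refine hcard3.trans ?_
  have hPle : (P : ℝ) ≤ L ^ (2 * K₁) := by
    have h1 : (P : ℝ) ≤ 4 ^ y := by
      rw [hP]
      exact_mod_cast primorial_le_four_pow y
    have h2 : (4 : ℝ) ^ y = Real.exp (y * Real.log 4) := by
      rw [mul_comm, Real.exp_mul, Real.exp_log (by norm_num), Real.rpow_natCast]
    have h3 : Real.log 4 ≤ 2 := by
      have h4 : Real.log 4 = 2 * Real.log 2 := by
        rw [show (4 : ℝ) = 2 ^ 2 by norm_num, Real.log_pow]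
        norm_num
      have := Real.log_two_lt_d9
      linarith
    have h5 : 0 ≤ Real.log L := Real.log_nonneg (by linarith)
    calc (P : ℝ) ≤ 4 ^ y := h1
      _ = Real.exp (y * Real.log 4) := h2
      _ ≤ Real.exp ((K₁ * Real.log L) * 2) := by
          apply Real.exp_le_exp.2
          apply mul_le_mul hy2 h3 (Real.log_nonneg (by norm_num)) (by positivity)
      _ = L ^ (2 * K₁) := by
          rw [show (K₁ : ℝ) * Real.log L * 2 = Real.log L * ((2 * K₁ : ℕ) : ℝ) by push_cast; ring, Real.exp_mul, Real.exp_log hL0,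
            Real.rpow_natCast]
  have hE2' : (Nat.card E2 : ℝ) ≤ 3 * δ * G := by
    have h1 : L ≤ Real.log ((2 * x : ℕ) : ℝ) := by
      rw [hL]
      apply Real.log_le_log hx0
      push_cast
      linarith
    calc (Nat.card E2 : ℝ) ≤ (2 * x : ℕ) / Real.log (2 * x : ℕ) ^ (C + 2 * K₁ + 1) := hE2c
      _ ≤ (2 * x : ℕ) / L ^ (C + 2 * K₁ + 1) := by gcongr
      _ = 2 / L * (x / L ^ (C + 2 * K₁)) := by
          rw [pow_succ]
          push_cast
          field_simp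
      _ ≤ 2 / L * (P * G * L ^ C / L ^ (C + 2 * K₁)) := by gcongr
      _ ≤ 2 / L * (L ^ (2 * K₁) * G * L ^ C / L ^ (C + 2 * K₁)) := by gcongr
      _ = 2 / L * G := by
          rw [pow_add]
          field_simp
      _ ≤ 3 * δ * G := by
          apply mul_le_mul_of_nonneg_right _ (Nat.cast_nonneg G)
          rw [div_le_iff₀ hL0]
          nlinarith
  calc (E1.card : ℝ) + Nat.card E2 ≤ δ * G + 3 * δ * G := add_le_add key hE2'
    _ = ε * G := by
        rw [hδ]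
        ring

end Pool.Agent.D0H91.GI
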